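import Pool.Agent.H165R2.SM8

/-!
# Hub hosts with private leaves, and the exchange with bounded violations
-/

open Finset SimpleGraph
open scoped Classical symmDiff

namespace Pool.Agent.P8H52.SM

open Pool.Agent.H165R2.SM Pool.Agent.H165R2.SM.HV Pool.Agent.H165R2.SM.Dat
  Pool.Agent.Results.MP_fc2b6d_co.Forests

/-- the conflict relation with `M` additional leaves at every element -/
def ext {X : Type} (A : X → X → Prop) (M : ℕ) : (X ⊕ X × Fin M) → (X ⊕ X × Fin M) → Prop
  | .inl x, .inl y => A x y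
  | .inl x, .inr p => x = p.1
  | .inr _, _ => False

theorem ext_acyc {X : Type} {A : X → X → Prop} {M n : ℕ} (h : Acyc A n) : Acyc (ext A M) n := by
  intro Q hQ hc r hr
  have hQr := hQ r hr
  rcases r with ⟨x | p, y | q⟩
  · -- main conflict
    have hinj : Function.Injective (fun s : X × X => ((.inl s.1, .inl s.2) :
        (X ⊕ X × Fin M) × (X ⊕ X × Fin M))) := by
      rintro ⟨a, b⟩ ⟨a', b'⟩ e
      simp only [Prod.mk.injEq, Sum.inl.injEq] at e
      exact Prod.ext e.1 e.2
    set Q0 : Finset (X × X) := Q.preimage _ hinj.injOn with hQ0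
    have hc0 : Q0.card ≤ n := by
      refine le_trans ?_ hc
      refine card_le_card_of_injOn (fun s => (.inl s.1, .inl s.2)) ?_ hinj.injOn
      intro s hs
      rw [hQ0, mem_coe, mem_preimage] at hs
      exact hs
    obtain ⟨P, h1, h2, h3⟩ := h Q0 (by
      intro s hs
      rw [hQ0, mem_preimage] at hs
      exact hQ _ hs) hc0 (x, y) (by rw [hQ0, mem_preimage]; exact hr)
    refine ⟨{u | match u with
      | .inl a => a ∈ P
      | .inr p => p.1 ∈ P}, h1, h2, ?_⟩
    rintro ⟨a | a, b | b⟩ hs hne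
    · refine h3 (a, b) (by rw [hQ0, mem_preimage]; exact hs) ?_
      rintro e
      apply hne
      rw [Prod.mk.injEq] at e
      rw [e.1, e.2]
    · have : a = b.1 := hQ _ hs
      subst this
      exact Iff.rfl
    · exact (hQ _ hs).elim
    · exact (hQ _ hs).elim
  · -- leaf
    refine ⟨{u | u ≠ .inr q}, by simp, by simp, ?_⟩
    rintro ⟨a | a, b | b⟩ hs hne
    · simp
    · have h1 : a = b.1 := hQ _ hs
      have h2 : x = q.1 := hQr
      constructor
      · intro _ hb
        apply hne
        have : b = q := Sum.inr_injective hb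
        rw [h1, h2, this]
      · intro _
        simp
    · exact (hQ _ hs).elim
    · exact (hQ _ hs).elim
  · exact hQr.elim
  · exact hQr.elim

section
variable {Y W : Type} (h : Dat Y W)

theorem chT {x y u : Y} (hu : ch W u ∈ h.T x y) : u = x ∨ u = y := by
  rcases h.vert_T hu (Sym2.mem_mk_right _ _) with e | e | e | ⟨w, e⟩
  · cases e
  · cases e; exact .inl rfl
  · cases e; exact .inr rfl
  · cases e

/-- the gadget `r` is contained in `F` -/
def Full (F : SimpleGraph (HV Y W)) (r : Y × Y) : Prop :=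
  h.A r.1 r.2 ∧ ∀ e ∈ h.T r.1 r.2, e ∈ F.edgeSet

/-- at least `m` gadgets at `z` are contained in `F` -/
def Cnt (F : SimpleGraph (HV Y W)) (z : Y) (m : ℕ) : Prop :=
  ∃ s : Finset (Y × Y), s.card = m ∧ ∀ r ∈ s, Full h F r ∧ (z = r.1 ∨ z = r.2)

theorem Cnt.mono {h : Dat Y W} {F : SimpleGraph (HV Y W)} {z : Y} {m : ℕ} {s : Finset (Y × Y)}
    (hs : ∀ r ∈ s, Full h F r ∧ (z = r.1 ∨ z = r.2)) (hm : m ≤ s.card) : Cnt h F z m := by
  obtain ⟨t, ht, hc⟩ := exists_subset_card_eq hm
  exact ⟨t, hc, fun r hr => hs r (ht hr)⟩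

end

theorem exchangeB {X W : Type} {M : ℕ} {A : X → X → Prop} (h : Dat (X ⊕ X × Fin M) W)
    (h1 : ∀ x y, h.A (.inl x) (.inl y) ↔ A x y)
    (h2 : ∀ x p, h.A (.inl x) (.inr p) ↔ x = p.1)
    (h3 : ∀ p y, ¬ h.A (.inr p) y)
    (hU : Unst A) (F : SimpleGraph (HV (X ⊕ X × Fin M) W)) (hF : F ≤ h.G)
    (hcnt : ∀ z, ¬ Cnt h F z (M + 1)) :
    ∃ I ≤ h.G, (∀ z, ¬ Cnt h I z (M + 1)) ∧
      Cardinal.mk ↥(F.edgeSet \ I.edgeSet) < Cardinal.mk ↥(I.edgeSet \ F.edgeSet) := by
  have hFG : F.edgeSet ⊆ h.Gs := by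
    rw [← h.G_edge]
    exact SimpleGraph.edgeSet_subset_edgeSet.2 hF
  obtain ⟨S, hS⟩ : ∃ S : Set X, ∀ x, x ∈ S ↔ ch W (.inl x) ∈ F.edgeSet :=
    ⟨{x | ch W (.inl x) ∈ F.edgeSet}, fun _ => Iff.rfl⟩
  obtain ⟨D, B, R, hBD, hR, hBi, hBS, hlt⟩ := hU S ∅
  -- pairs whose gadget is contained in `F`
  obtain ⟨Rf, hRf⟩ : ∃ Rf : Finset (X × X), ∀ r, r ∈ Rf ↔
      r ∈ R ∧ ∀ e ∈ h.T (.inl r.1) (.inl r.2), e ∈ F.edgeSet :=
    ⟨R.filter (fun r => ∀ e ∈ h.T (.inl r.1) (.inl r.2), e ∈ F.edgeSet), fun r => mem_filter⟩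
  have hRfR : Rf ⊆ R := fun r hr => ((hRf r).1 hr).1
  have hm : ∀ r : X × X, ∃ e, r ∈ R \ Rf → e ∈ h.Pr (.inl r.1) (.inl r.2) ∧ e ∉ F.edgeSet := by
    intro r
    by_cases hr : r ∈ R \ Rf
    · rw [mem_sdiff, hRf] at hr
      obtain ⟨hr1, hr2⟩ := hr
      obtain ⟨g1, g2, g3, -, -, -⟩ := hR r hr1
      have : ∃ e ∈ h.T (.inl r.1) (.inl r.2), e ∉ F.edgeSet := by
        by_contra hcon
        push Not at hcon
        exact hr2 ⟨hr1, hcon⟩
      obtain ⟨e, he, heF⟩ := this
      refine ⟨e, fun _ => ⟨?_, heF⟩⟩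
      rw [Dat.Pr, mem_sdiff]
      refine ⟨he, ?_⟩
      simp only [mem_insert, mem_singleton, not_or]
      constructor
      · rintro rfl; exact heF ((hS _).1 g2)
      · rintro rfl; exact heF ((hS _).1 g3)
    · exact ⟨s(hub, hub), fun h => absurd h hr⟩
  choose m hm using hm
  -- broken leaves
  set brk : X → Fin M → Prop := fun x i =>
    ∃ e ∈ h.T (.inl x) (.inr (x, i)), e ≠ ch W (.inl x) ∧ e ∉ F.edgeSet with hbrk
  have hBr : ∀ x, ∃ t : Finset (Fin M), (∀ i ∈ t, brk x i) ∧
      t.card = (Rf.filter (fun r => r.1 = x)).card := by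
    intro x
    by_cases hlt' : (Rf.filter (fun r => r.1 = x)).card ≤ (univ.filter (brk x)).card
    · obtain ⟨t, ht, hc⟩ := exists_subset_card_eq hlt'
      exact ⟨t, fun i hi => (mem_filter.1 (ht hi)).2, hc⟩
    · exfalso
      push Not at hlt'
      have hne : (Rf.filter (fun r => r.1 = x)).Nonempty := by
        rw [← card_pos]; omega
      obtain ⟨r0, hr0⟩ := hne
      rw [mem_filter] at hr0
      have hxS : ch W (.inl x) ∈ F.edgeSet := by
        have := (hR r0 (hRfR hr0.1)).2.1
        rw [hr0.2] at this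
        exact (hS x).1 this
      refine hcnt (.inl x) (Cnt.mono (s := (Rf.filter (fun r => r.1 = x)).image
        (fun r => ((.inl r.1, .inl r.2) : (X ⊕ X × Fin M) × (X ⊕ X × Fin M))) ∪
        (univ.filter (fun i => ¬ brk x i)).image
        (fun i => ((.inl x, .inr (x, i)) : (X ⊕ X × Fin M) × (X ⊕ X × Fin M)))) ?_ ?_)
      · intro r hr
        rw [mem_union, mem_image, mem_image] at hr
        rcases hr with ⟨r', hr', rfl⟩ | ⟨i, hi, rfl⟩
        · rw [mem_filter] at hr'
          have := (hRf r').1 hr'.1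
          refine ⟨⟨(h1 _ _).2 (hR r' this.1).1, this.2⟩, .inl ?_⟩
          rw [hr'.2]
        · rw [mem_filter] at hi
          refine ⟨⟨(h2 _ _).2 rfl, ?_⟩, .inl rfl⟩
          intro e he
          by_cases hex : e = ch W (.inl x)
          · rw [hex]; exact hxS
          · by_contra heF
            exact hi.2 ⟨e, he, hex, heF⟩
      · rw [card_union_of_disjoint, card_image_of_injective, card_image_of_injective]
        · have h5 : (univ.filter (brk x)).card + (univ.filter (fun i => ¬ brk x i)).card = M := by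
            rw [card_filter_add_card_filter_not, card_univ, Fintype.card_fin]
          omega
        · intro i j hij
          simp only [Prod.mk.injEq, Sum.inr.injEq, true_and] at hij
          exact hij
        · rintro ⟨a, b⟩ ⟨a', b'⟩ e
          simp only [Prod.mk.injEq, Sum.inl.injEq] at e
          exact Prod.ext e.1 e.2
        · rw [Finset.disjoint_left]
          intro r hr hr'
          rw [mem_image] at hr hr'
          obtain ⟨_, _, rfl⟩ := hr
          obtain ⟨_, _, e⟩ := hr'
          simp at e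
  choose Br hBr1 hBr2 using hBr
  have hme : ∀ p : X × Fin M, ∃ e, p.2 ∈ Br p.1 →
      e ∈ h.T (.inl p.1) (.inr p) ∧ e ≠ ch W (.inl p.1) ∧ e ∉ F.edgeSet := by
    intro p
    by_cases hp : p.2 ∈ Br p.1
    · obtain ⟨e, g1, g2, g3⟩ := hBr1 _ _ hp
      exact ⟨e, fun _ => ⟨g1, g2, g3⟩⟩
    · exact ⟨s(hub, hub), fun h => absurd h hp⟩
  choose me hme using hme
  -- disjointness of the leaf gadgets
  have hleaf : ∀ (p q : X × Fin M) (e : Sym2 (HV (X ⊕ X × Fin M) W)),
      e ∈ h.T (.inl p.1) (.inr p) → e ≠ ch W (.inl p.1) → e ∈ h.T (.inl q.1) (.inr q) →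
      q = p := by
    intro p q e g1 g2 g3
    by_cases g4 : e = ch W (.inr p)
    · rw [g4] at g3
      rcases chT h g3 with g | g
      · cases g
      · exact (Sum.inr_injective g).symm
    · have : e ∈ h.Pr (.inl p.1) (.inr p) := by
        rw [Dat.Pr, mem_sdiff]
        simp [g1, g2, g4]
      obtain ⟨-, g⟩ := h.Pr_uniq ((h2 _ _).2 rfl) ((h2 _ _).2 rfl) this g3
      exact Sum.inr_injective g
  have hleafmain : ∀ (p : X × Fin M) (a b : X) (e : Sym2 (HV (X ⊕ X × Fin M) W)),
      h.A (.inl a) (.inl b) →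
      e ∈ h.T (.inl p.1) (.inr p) → e ≠ ch W (.inl p.1) → ¬ e ∈ h.T (.inl a) (.inl b) := by
    intro p a b e hab g1 g2 g3
    by_cases g4 : e = ch W (.inr p)
    · rw [g4] at g3
      rcases chT h g3 with g | g <;> cases g
    · have : e ∈ h.Pr (.inl p.1) (.inr p) := by
        rw [Dat.Pr, mem_sdiff]
        simp [g1, g2, g4]
      obtain ⟨-, g⟩ := h.Pr_uniq ((h2 _ _).2 rfl) hab this g3
      cases g
  set Is : Set (Sym2 (HV (X ⊕ X × Fin M) W)) := (F.edgeSet \ {e | ∃ x ∈ D, e = ch W (.inl x)}) ∪
    ({e | ∃ x ∈ B, e = ch W (.inl x)} ∪ ({e | ∃ r ∈ R, e ∈ h.Pr (.inl r.1) (.inl r.2)} ∪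
      {e | ∃ p : X × Fin M, p.2 ∈ Br p.1 ∧ e ∈ h.T (.inl p.1) (.inr p) ∧ e ≠ ch W (.inl p.1)}))
    with hIs
  have hIG : Is ⊆ h.Gs := by
    rintro e (⟨he, -⟩ | ⟨x, -, rfl⟩ | ⟨r, hr, he⟩ | ⟨p, -, he, -⟩)
    · exact hFG he
    · exact .inl ⟨_, rfl⟩
    · exact .inr ⟨_, _, (h1 _ _).2 (hR r hr).1, h.Pr_T he⟩
    · exact .inr ⟨_, _, (h2 _ _).2 rfl, he⟩
  have hIe : (SimpleGraph.fromEdgeSet Is).edgeSet = Is := by
    rw [SimpleGraph.edgeSet_fromEdgeSet]
    ext e
    constructor
    · exact fun he => he.1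
    · exact fun he => ⟨he, h.Gs_nd (hIG he)⟩
  have hch : ∀ x, ch W (.inl x) ∈ Is → x ∈ B ∨ (x ∈ S ∧ x ∉ D) := by
    rintro x (⟨he, he'⟩ | ⟨y, hy, he⟩ | ⟨r, hr, he⟩ | ⟨p, -, he, he'⟩)
    · exact .inr ⟨(hS x).2 he, fun hD => he' ⟨x, hD, rfl⟩⟩
    · rw [Sum.inl_injective (ch_inj he)]; exact .inl hy
    · exact (h.Pr_not_ch he).elim
    · rcases chT h he with g | g
      · exact absurd (congrArg (ch W) g) he'
      · cases g
  have hmain : ∀ a b, h.A (.inl a) (.inl b) → (∀ e ∈ h.T (.inl a) (.inl b), e ∈ Is) →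
      ((a ∈ S ∧ a ∉ D) ∧ (b ∈ S ∧ b ∉ D)) ∧ ∀ e ∈ h.T (.inl a) (.inl b), e ∈ F.edgeSet := by
    intro a b hab hT
    have hA := (h1 a b).1 hab
    have hx := hch a (hT _ (h.ch_T1 _ _))
    have hy := hch b (hT _ (h.ch_T2 _ _))
    have hxy : (a ∈ S ∧ a ∉ D) ∧ (b ∈ S ∧ b ∉ D) := by
      rcases hx with hx | hx
      · exfalso
        rcases hy with hy | hy
        · exact hBi a hx b hy hA
        · exact (hBS a hx b hy.1 hy.2).1 hA
      · rcases hy with hy | hy
        · exact ((hBS b hy a hx.1 hx.2).2 hA).elim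
        · exact ⟨hx, hy⟩
    refine ⟨hxy, fun e heT => ?_⟩
    by_cases e1 : e = ch W (.inl a)
    · rw [e1]; exact (hS a).1 hxy.1.1
    · by_cases e2 : e = ch W (.inl b)
      · rw [e2]; exact (hS b).1 hxy.2.1
      · have heP : e ∈ h.Pr (.inl a) (.inl b) := by
          rw [Dat.Pr, mem_sdiff]
          simp [heT, e1, e2]
        rcases hT e heT with ⟨he, -⟩ | ⟨z, hz, he⟩ | ⟨r, hr, he⟩ | ⟨p, -, he, he'⟩
        · exact he
        · rw [he] at heP; exact (h.Pr_not_ch heP).elim
        · exfalso
          obtain ⟨e3, e4⟩ := h.Pr_uniq hab ((h1 _ _).2 (hR r hr).1) heP (h.Pr_T he)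
          obtain ⟨-, -, -, h4, -, -⟩ := hR r hr
          rw [Sum.inl_injective e3, Sum.inl_injective e4] at h4
          rcases h4 with h4 | h4
          · exact hxy.1.2 h4
          · exact hxy.2.2 h4
        · exact (hleafmain p a b e hab he he' heT).elim
  refine ⟨SimpleGraph.fromEdgeSet Is, ?_, ?_, ?_⟩
  · rw [← SimpleGraph.edgeSet_subset_edgeSet, hIe, h.G_edge]
    exact hIG
  · rintro z ⟨s, hsc, hs⟩
    have hs' : ∀ r ∈ s, h.A r.1 r.2 ∧ (∀ e ∈ h.T r.1 r.2, e ∈ Is) ∧ (z = r.1 ∨ z = r.2) := by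
      intro r hr
      obtain ⟨⟨g1, g2⟩, g3⟩ := hs r hr
      rw [hIe] at g2
      exact ⟨g1, g2, g3⟩
    rcases z with x | q
    · -- a main element
      have hxx : x ∈ B ∨ (x ∈ S ∧ x ∉ D) := by
        have hne : s.Nonempty := by rw [← card_pos, hsc]; omega
        obtain ⟨r, hr⟩ := hne
        obtain ⟨g1, g2, g3⟩ := hs' r hr
        apply hch
        rcases g3 with g3 | g3
        · rw [g3]; exact g2 _ (h.ch_T1 _ _)
        · rw [g3]; exact g2 _ (h.ch_T2 _ _)
      -- the possible gadgets
      have hcase : ∀ r ∈ s, (∃ a b, r = (.inl a, .inl b) ∧ (x = a ∨ x = b)) ∨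
          ∃ i, r = (.inl x, .inr (x, i)) := by
        rintro ⟨a | a, b | b⟩ hr
        · obtain ⟨g1, g2, g3⟩ := hs' _ hr
          refine .inl ⟨a, b, rfl, ?_⟩
          rcases g3 with g3 | g3
          · exact .inl (Sum.inl_injective g3)
          · exact .inr (Sum.inl_injective g3)
        · obtain ⟨g1, g2, g3⟩ := hs' _ hr
          rcases g3 with g3 | g3
          · have e1 := Sum.inl_injective g3
            have e2 := (h2 _ _).1 g1
            refine .inr ⟨b.2, ?_⟩
            subst e1
            rw [Prod.mk.injEq, Sum.inr.injEq]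
            exact ⟨rfl, Prod.ext e2.symm rfl⟩
          · cases g3
        · exact (h3 _ _ (hs' _ hr).1).elim
        · exact (h3 _ _ (hs' _ hr).1).elim
      rcases hxx with hxB | hxS
      · -- only leaves
        have hsub : s ⊆ (univ : Finset (Fin M)).image
            (fun i => ((.inl x, .inr (x, i)) : (X ⊕ X × Fin M) × (X ⊕ X × Fin M))) := by
          intro r hr
          rcases hcase r hr with ⟨a, b, rfl, hab⟩ | ⟨i, rfl⟩
          · exfalso
            obtain ⟨g1, g2, -⟩ := hs' _ hr
            obtain ⟨⟨g3, g4⟩, -⟩ := hmain a b g1 g2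
            rcases hab with rfl | rfl
            · exact g3.2 (hBD hxB)
            · exact g4.2 (hBD hxB)
          · exact mem_image_of_mem _ (mem_univ i)
        have := card_le_card hsub
        have h6 := card_image_le (s := (univ : Finset (Fin M)))
          (f := fun i => ((.inl x, .inr (x, i)) : (X ⊕ X × Fin M) × (X ⊕ X × Fin M)))
        rw [card_univ, Fintype.card_fin] at h6
        omega
      · -- replace the restored leaves by the destroyed gadgets
        obtain ⟨LB, hLB⟩ : ∃ LB : Finset ((X ⊕ X × Fin M) × (X ⊕ X × Fin M)),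
          LB = (Br x).image (fun i => (.inl x, .inr (x, i))) := ⟨_, rfl⟩
        obtain ⟨MB, hMB⟩ : ∃ MB : Finset ((X ⊕ X × Fin M) × (X ⊕ X × Fin M)),
          MB = (Rf.filter (fun r => r.1 = x)).image (fun r => (.inl r.1, .inl r.2)) := ⟨_, rfl⟩
        have hLBc : LB.card ≤ (Rf.filter (fun r => r.1 = x)).card := by
          rw [hLB, ← hBr2 x]
          exact card_image_le
        have hMBc : MB.card = (Rf.filter (fun r => r.1 = x)).card := by
          rw [hMB, card_image_of_injective]
          rintro ⟨a, b⟩ ⟨a', b'⟩ e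
          simp only [Prod.mk.injEq, Sum.inl.injEq] at e
          exact Prod.ext e.1 e.2
        have hxF : ch W (.inl x) ∈ F.edgeSet := (hS x).1 hxS.1
        refine hcnt (.inl x) (Cnt.mono (s := (s \ LB) ∪ MB) ?_ ?_)
        · intro r hr
          rw [mem_union, mem_sdiff] at hr
          rcases hr with ⟨hr, hrL⟩ | hr
          · obtain ⟨k1, k2, k3⟩ := hs' r hr
            refine ⟨⟨k1, ?_⟩, k3⟩
            rcases hcase r hr with ⟨a, b, rfl, hab⟩ | ⟨i, rfl⟩
            · exact (hmain a b k1 k2).2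
            · have hi : i ∉ Br x := by
                intro hi
                apply hrL
                rw [hLB]
                exact mem_image_of_mem _ hi
              intro e he
              by_cases hex : e = ch W (.inl x)
              · rw [hex]; exact hxF
              · rcases k2 e he with ⟨he', -⟩ | ⟨z, hz, he'⟩ | ⟨r, hr, he'⟩ | ⟨p, hp, he', he''⟩
                · exact he'
                · exfalso
                  rw [he'] at he
                  rcases chT h he with k | k
                  · exact hex (by rw [he', k])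
                  · cases k
                · exact (hleafmain (x, i) r.1 r.2 e ((h1 _ _).2 (hR r hr).1) he hex
                    (h.Pr_T he')).elim
                · exfalso
                  have := hleaf (x, i) p e he hex he'
                  subst this
                  exact hi hp
          · rw [hMB, mem_image] at hr
            obtain ⟨r', hr', rfl⟩ := hr
            rw [mem_filter, hRf] at hr'
            exact ⟨⟨(h1 _ _).2 (hR r' hr'.1.1).1, hr'.1.2⟩, .inl (by rw [hr'.2])⟩
        · rw [card_union_of_disjoint]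
          · have := le_card_sdiff LB s
            omega
          · rw [Finset.disjoint_left]
            intro r hr hr'
            rw [mem_sdiff] at hr
            rw [hMB, mem_image] at hr'
            obtain ⟨r', hr', rfl⟩ := hr'
            rw [mem_filter] at hr'
            have hrR := hR r' (hRfR hr'.1)
            obtain ⟨k1, k2, -⟩ := hs' _ hr.1
            obtain ⟨⟨k3, k4⟩, -⟩ := hmain _ _ k1 k2
            rcases hrR.2.2.2.1 with k | k
            · exact k3.2 k
            · exact k4.2 k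
    · -- a leaf
      have hsub : s ⊆ {(.inl q.1, .inr q)} := by
        rintro ⟨a, b⟩ hr
        obtain ⟨g1, g2, g3⟩ := hs' _ hr
        rcases g3 with g3 | g3
        · simp only at g3
          rw [← g3] at g1
          exact (h3 _ _ g1).elim
        · simp only at g3 g1
          rw [← g3] at g1
          rcases a with a | a
          · rw [mem_singleton, Prod.mk.injEq, ← g3, (h2 _ _).1 g1]
            exact ⟨rfl, rfl⟩
          · exact (h3 _ _ g1).elim
      have := card_le_card hsub
      rw [card_singleton] at this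
      have hM : 0 < M := lt_of_le_of_lt (Nat.zero_le _) q.2.2
      omega
  · rw [hIe]
    -- the removed edges
    have d1 : F.edgeSet \ Is ⊆
        ((((D.filter (· ∈ S)) \ B).image (fun x => ch W (Sum.inl x : X ⊕ X × Fin M)) : Finset _) : Set _) := by
      rintro e ⟨he, heI⟩
      by_cases hD : ∃ x ∈ D, e = ch W (.inl x)
      · obtain ⟨x, hx, rfl⟩ := hD
        rw [coe_image]
        refine ⟨x, ?_, rfl⟩
        rw [mem_coe, mem_sdiff, mem_filter]
        exact ⟨⟨hx, (hS x).2 he⟩, fun hxB => heI (.inr (.inl ⟨x, hxB, rfl⟩))⟩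
      · exact absurd (.inl ⟨he, hD⟩) heI
    -- the restored leaves
    obtain ⟨BB, hBB⟩ : ∃ BB : Finset (X × Fin M),
      BB = ((Rf.image Prod.fst) ×ˢ univ).filter (fun p => p.2 ∈ Br p.1) := ⟨_, rfl⟩
    have hBBm : ∀ p ∈ BB, p.2 ∈ Br p.1 := by
      intro p hp
      rw [hBB, mem_filter] at hp
      exact hp.2
    have hBBc : Rf.card ≤ BB.card := by
      rw [card_eq_sum_card_fiberwise (f := Prod.fst) (s := Rf) (t := Rf.image Prod.fst)
        (fun r hr => by rw [mem_coe] at *; exact mem_image_of_mem _ hr),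
        card_eq_sum_card_fiberwise (f := Prod.fst) (s := BB) (t := Rf.image Prod.fst)
        (fun p hp => by
          rw [mem_coe] at *
          rw [hBB, mem_filter, mem_product] at hp
          exact hp.1.1)]
      refine sum_le_sum fun x hx => ?_
      rw [← hBr2 x, ← card_image_of_injective (Br x) (f := fun i => (x, i))
        (fun i j e => (Prod.mk.inj e).2)]
      refine card_le_card ?_
      intro p hp
      rw [mem_image] at hp
      obtain ⟨i, hi, rfl⟩ := hp
      rw [mem_filter, hBB, mem_filter, mem_product]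
      exact ⟨⟨⟨hx, mem_univ _⟩, hi⟩, rfl⟩
    -- the new edges
    have d2 : ((((B.filter (· ∉ S)).image (fun x => ch W (Sum.inl x : X ⊕ X × Fin M))) ∪
        ((R \ Rf).image m ∪ BB.image me) : Finset _) : Set _) ⊆ Is \ F.edgeSet := by
      intro e he
      rw [mem_coe, mem_union, mem_union, mem_image, mem_image, mem_image] at he
      rcases he with ⟨x, hx, rfl⟩ | ⟨r, hr, rfl⟩ | ⟨p, hp, rfl⟩
      · rw [mem_filter] at hx
        exact ⟨.inr (.inl ⟨x, hx.1, rfl⟩), fun hh => hx.2 ((hS x).2 hh)⟩
      · exact ⟨.inr (.inr (.inl ⟨r, (mem_sdiff.1 hr).1, (hm r hr).1⟩)), (hm r hr).2⟩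
      · have := hme p (hBBm p hp)
        exact ⟨.inr (.inr (.inr ⟨p, hBBm p hp, this.1, this.2.1⟩)), this.2.2⟩
    have c1 : Cardinal.mk ↥(F.edgeSet \ Is) ≤ ((((D.filter (· ∈ S)) \ B).card : ℕ) : Cardinal) := by
      refine (Cardinal.mk_le_mk_of_subset d1).trans ?_
      rw [Finset.coe_sort_coe, Cardinal.mk_coe_finset]
      exact_mod_cast card_image_le
    have c2 : ((((B.filter (· ∉ S)).card + R.card : ℕ)) : Cardinal) ≤
        Cardinal.mk ↥(Is \ F.edgeSet) := by
      refine le_trans ?_ (Cardinal.mk_le_mk_of_subset d2)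
      rw [Finset.coe_sort_coe, Cardinal.mk_coe_finset]
      have hsd := card_sdiff_of_subset hRfR
      have hle := card_le_card hRfR
      have hcard : ((B.filter (· ∉ S)).image (fun x => ch W (Sum.inl x : X ⊕ X × Fin M)) ∪
          ((R \ Rf).image m ∪ BB.image me)).card =
          (B.filter (· ∉ S)).card + ((R \ Rf).card + BB.card) := by
        rw [card_union_of_disjoint, card_union_of_disjoint, card_image_of_injective,
          card_image_of_injOn, card_image_of_injOn]
        · intro p hp q hq e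
          have k1 := hme p (hBBm p hp)
          have k2 := hme q (hBBm q hq)
          exact (hleaf p q _ k1.1 k1.2.1 (by rw [show me p = me q from e]; exact k2.1)).symm
        · intro r hr r' hr' e
          have k1 := (mem_sdiff.1 hr).1
          have k2 := (mem_sdiff.1 hr').1
          have := h.Pr_uniq ((h1 _ _).2 (hR r k1).1) ((h1 _ _).2 (hR r' k2).1) (hm r hr).1
            (h.Pr_T (by rw [show m r = m r' from e]; exact (hm r' hr').1))
          exact (Prod.ext (Sum.inl_injective this.1) (Sum.inl_injective this.2)).symm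
        · exact fun x y e => Sum.inl_injective (ch_inj e)
        · rw [Finset.disjoint_left]
          intro e he he'
          rw [mem_image] at he he'
          obtain ⟨r, hr, rfl⟩ := he
          obtain ⟨p, hp, he'⟩ := he'
          have k1 := hme p (hBBm p hp)
          have k2 := (mem_sdiff.1 hr).1
          refine hleafmain p r.1 r.2 _ ((h1 _ _).2 (hR r k2).1) k1.1 k1.2.1 ?_
          rw [he']
          exact h.Pr_T (hm r hr).1
        · rw [Finset.disjoint_left]
          intro e he he'
          rw [mem_image] at he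
          obtain ⟨x, -, rfl⟩ := he
          rw [mem_union, mem_image, mem_image] at he'
          rcases he' with ⟨r, hr, he'⟩ | ⟨p, hp, he'⟩
          · have := (hm r hr).1
            rw [he'] at this
            exact h.Pr_not_ch this
          · have k1 := hme p (hBBm p hp)
            rw [he'] at k1
            rcases chT h k1.1 with k | k
            · exact k1.2.1 (by rw [k])
            · cases k
      rw [hcard]
      exact_mod_cast (by omega)
    refine lt_of_le_of_lt c1 (lt_of_lt_of_le ?_ c2)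
    rw [Nat.cast_lt]
    have c3 : ((D.filter (· ∈ S)) \ B).card + (B.filter (· ∈ S)).card =
        (D.filter (· ∈ S)).card := by
      rw [← card_union_of_disjoint]
      · congr 1
        ext x
        simp only [mem_union, mem_sdiff, mem_filter]
        constructor
        · rintro (⟨h1, _⟩ | ⟨h1, h2⟩)
          · exact h1
          · exact ⟨hBD h1, h2⟩
        · rintro ⟨h1, h2⟩
          by_cases hB : x ∈ B
          · exact .inr ⟨hB, h2⟩
          · exact .inl ⟨⟨h1, h2⟩, hB⟩
      · rw [Finset.disjoint_left]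
        intro x h1 h2
        exact (mem_sdiff.1 h1).2 (mem_filter.1 h2).1
    have c4 : (B.filter (· ∈ S)).card + (B.filter (· ∉ S)).card = B.card :=
      card_filter_add_card_filter_not _
    omega

end Pool.Agent.P8H52.SM
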