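import Pool.Agent.P8H52.SM.BookA

/-!
# Books: copies of a 2-connected graph sharing an edge
-/

open Finset SimpleGraph
open scoped Classical symmDiff

namespace Pool.Agent.P8H52.SM

open Pool.Agent.H165R2.SM Pool.Agent.H165R2.SM.HV Pool.Agent.H165R2.SM.Dat
  Pool.Agent.Results.MP_fc2b6d_co.Forests

/-- `H` consists of the copies `φ i` (`i < m`) of `K`; two copies share exactly the vertices
corresponding to `v0` and `p`. -/
structure IsBook {W W0 : Type} (H : SimpleGraph W) (K : SimpleGraph W0) (v0 p : W0) {m : ℕ}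
    (φ : Fin m → W0 → W) : Prop where
  inj : ∀ i, Function.Injective (φ i)
  eq_v0 : ∀ i j, φ i v0 = φ j v0
  eq_p : ∀ i j, φ i p = φ j p
  dis : ∀ i j u w, φ i u = φ j w → i = j ∨ (u = w ∧ (u = v0 ∨ u = p))
  adj : ∀ s t, H.Adj s t ↔ ∃ i u w, K.Adj u w ∧ φ i u = s ∧ φ i w = t
  surj : ∀ s, ∃ i u, φ i u = s

section
variable {Y W W0 : Type} (h : Dat Y W0) {H : SimpleGraph W} {K : SimpleGraph W0} {m : ℕ}
  {φ : Fin m → W0 → W}

theorem contains_of_cnt (hE : ∀ e, e ∈ h.E ↔ e ∈ K.edgeSet) (hb : IsBook H K h.v0 h.p φ)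
    (σ : W0 → W0) (hσi : Function.Injective σ) (hσ : ∀ u w, K.Adj u w → K.Adj (σ u) (σ w))
    (hσ0 : σ h.v0 = h.v0) (hσp : σ h.p = h.q) {F : SimpleGraph (HV Y W0)} {z : Y}
    (hz : Cnt h F z m) : H ⊑ F := by
  obtain ⟨s, hsc, hs⟩ := hz
  obtain ⟨r, hri, hrs⟩ : ∃ r : Fin m → Y × Y, Function.Injective r ∧ ∀ i, r i ∈ s := by
    refine ⟨fun i => ((s.equivFinOfCardEq hsc).symm i).1, ?_, fun i => Subtype.prop _⟩
    intro i j hij
    exact (s.equivFinOfCardEq hsc).symm.injective (Subtype.ext hij)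
  have hg : ∀ i, ∃ g : W0 → HV Y W0, Function.Injective g ∧ g h.v0 = hub ∧ g h.p = vx z ∧
      (∀ u w, K.Adj u w → F.Adj (g u) (g w)) ∧
      ∀ u, g u = hub ∨ g u = vx (r i).1 ∨ g u = vx (r i).2 ∨ ∃ w, g u = prv (r i).1 (r i).2 w := by
    intro i
    obtain ⟨⟨hA, hT⟩, hzi⟩ := hs (r i) (hrs i)
    have hio := h.io_inj (h.ne_of hA)
    have hadj : ∀ u w, K.Adj u w → F.Adj (h.io (r i).1 (r i).2 u) (h.io (r i).1 (r i).2 w) := by
      intro u w huw
      have h1 : s(u, w) ∈ h.E := (hE _).2 huw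
      exact hT _ (h.mem_T.2 ⟨_, h1, rfl⟩)
    have hval : ∀ u, h.io (r i).1 (r i).2 u = hub ∨ h.io (r i).1 (r i).2 u = vx (r i).1 ∨
        h.io (r i).1 (r i).2 u = vx (r i).2 ∨
        ∃ w, h.io (r i).1 (r i).2 u = prv (r i).1 (r i).2 w := by
      intro u
      rcases h.io_cases (r i).1 (r i).2 u with ⟨_, e⟩ | ⟨_, e⟩ | ⟨_, e⟩ | ⟨_, _, _, e⟩
      · exact .inl e
      · exact .inr (.inl e)
      · exact .inr (.inr (.inl e))
      · exact .inr (.inr (.inr ⟨u, e⟩))
    rcases hzi with hzi | hzi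
    · exact ⟨h.io (r i).1 (r i).2, hio, h.io_v0 _ _, by rw [h.io_p, hzi], hadj, hval⟩
    · refine ⟨fun u => h.io (r i).1 (r i).2 (σ u), hio.comp hσi, ?_, ?_, ?_, fun u => hval _⟩
      · change h.io _ _ (σ h.v0) = _
        rw [hσ0]; exact h.io_v0 _ _
      · change h.io _ _ (σ h.p) = _
        rw [hσp, h.io_q, hzi]
      · exact fun u w huw => hadj _ _ (hσ u w huw)
  choose g hgi hg0 hgp hga hgv using hg
  have hgd : ∀ i j u w, g i u = g j w → i = j ∨ (u = w ∧ (u = h.v0 ∨ u = h.p)) := by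
    intro i j u w e
    by_cases hij : i = j
    · exact .inl hij
    right
    have hcase : g i u = hub ∨ g i u = vx z := by
      by_contra hcon
      push Not at hcon
      have hne : r i ≠ r j := fun h => hij (hri h)
      have hi := hs _ (hrs i)
      have hj := hs _ (hrs j)
      have key : ∀ t, g i u = vx t → g j w = vx t → False := by
        intro t h1 h2
        have htz : t ≠ z := by rintro rfl; exact hcon.2 h1
        have a1 : t = (r i).1 ∨ t = (r i).2 := by
          rcases hgv i u with k | k | k | ⟨_, k⟩ <;> rw [h1] at k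
          · cases k
          · exact .inl (HV.vx.inj k)
          · exact .inr (HV.vx.inj k)
          · cases k
        have a2 : t = (r j).1 ∨ t = (r j).2 := by
          rcases hgv j w with k | k | k | ⟨_, k⟩ <;> rw [h2] at k
          · cases k
          · exact .inl (HV.vx.inj k)
          · exact .inr (HV.vx.inj k)
          · cases k
        have b1 : r i = (t, z) ∨ r i = (z, t) := by
          rcases a1 with a | a <;> rcases hi.2 with b | b
          · exact absurd (a.trans b.symm) htz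
          · exact .inl (Prod.ext a.symm b.symm)
          · exact .inr (Prod.ext b.symm a.symm)
          · exact absurd (a.trans b.symm) htz
        have b2 : r j = (t, z) ∨ r j = (z, t) := by
          rcases a2 with a | a <;> rcases hj.2 with b | b
          · exact absurd (a.trans b.symm) htz
          · exact .inl (Prod.ext a.symm b.symm)
          · exact .inr (Prod.ext b.symm a.symm)
          · exact absurd (a.trans b.symm) htz
        have Ai := hi.1.1
        have Aj := hj.1.1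
        rcases b1 with b1 | b1 <;> rcases b2 with b2 | b2 <;> rw [b1] at Ai hne <;>
          rw [b2] at Aj hne
        · exact hne rfl
        · exact h.asy _ _ Ai Aj
        · exact h.asy _ _ Ai Aj
        · exact hne rfl
      rcases hgv i u with k | k | k | ⟨w', k⟩
      · exact hcon.1 k
      · exact key _ k (e ▸ k)
      · exact key _ k (e ▸ k)
      · rcases hgv j w with l | l | l | ⟨w'', l⟩ <;> rw [← e, k] at l
        · cases l
        · cases l
        · cases l
        · obtain ⟨l1, l2, -⟩ := HV.prv.inj l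
          exact hne (Prod.ext l1 l2)
    rcases hcase with k | k
    · have h1 : u = h.v0 := hgi i (k.trans (hg0 i).symm)
      have h2 : w = h.v0 := hgi j ((e.symm.trans k).trans (hg0 j).symm)
      exact ⟨h1.trans h2.symm, .inl h1⟩
    · have h1 : u = h.p := hgi i (k.trans (hgp i).symm)
      have h2 : w = h.p := hgi j ((e.symm.trans k).trans (hgp j).symm)
      exact ⟨h1.trans h2.symm, .inr h1⟩
  choose ii uu hiu using hb.surj
  set f : W → HV Y W0 := fun t => g (ii t) (uu t) with hf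
  have hfφ : ∀ i u, f (φ i u) = g i u := by
    intro i u
    have h1 := hiu (φ i u)
    rw [hf]
    change g (ii (φ i u)) (uu (φ i u)) = g i u
    rcases hb.dis _ _ _ _ h1 with h2 | ⟨h2, h3⟩
    · rw [h2] at h1 ⊢
      rw [hb.inj i h1]
    · rw [h2] at h3 ⊢
      rcases h3 with rfl | rfl
      · rw [hg0, hg0]
      · rw [hgp, hgp]
  refine contained_of f ?_ ?_
  · intro a b hab
    obtain ⟨i, u, rfl⟩ := hb.surj a
    obtain ⟨j, w, rfl⟩ := hb.surj b
    rw [hfφ, hfφ] at hab
    rcases hgd _ _ _ _ hab with h2 | ⟨h2, h3⟩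
    · subst h2
      rw [hgi i hab]
    · subst h2
      rcases h3 with rfl | rfl
      · exact hb.eq_v0 _ _
      · exact hb.eq_p _ _
  · intro a b hab
    obtain ⟨i, u, w, huw, rfl, rfl⟩ := (hb.adj a b).1 hab
    rw [hfφ, hfφ]
    exact hga i u w huw

theorem cnt_of_contains (hE : ∀ e, e ∈ h.E ↔ e ∈ K.edgeSet) (hc : h.E.card ≤ h.n)
    (hgood : Good h.E h.v0 h.p h.q) (hb : IsBook H K h.v0 h.p φ) (hm : 2 ≤ m)
    {I : SimpleGraph (HV Y W0)} (hI : I ≤ h.G) (hH : H ⊑ I) : ∃ z, Cnt h I z m := by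
  obtain ⟨f⟩ := hH
  have hfi : Function.Injective f := f.injective
  have hIG : ∀ e ∈ I.edgeSet, e ∈ h.Gs := by
    intro e he
    rw [← h.G_edge]
    exact SimpleGraph.edgeSet_subset_edgeSet.2 hI he
  have hmem : ∀ i, ∀ e ∈ im (fun u => f (φ i u)) h.E, e ∈ I.edgeSet := by
    intro i e he
    rw [im, mem_image] at he
    obtain ⟨e', he', rfl⟩ := he
    induction e' using Sym2.ind with
    | _ a b =>
      have h1 : K.Adj a b := (hE _).1 he'
      have h2 : H.Adj (φ i a) (φ i b) := (hb.adj _ _).2 ⟨i, a, b, h1, rfl, rfl⟩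
      exact f.toHom.map_adj h2
  have hcopy : ∀ i, ∃ r : Y × Y, h.A r.1 r.2 ∧ im (fun u => f (φ i u)) h.E = h.T r.1 r.2 := by
    intro i
    obtain ⟨x, y, hA, hT⟩ := h.copy_gadget hc hgood (f := fun u => f (φ i u))
      (hfi.comp (hb.inj i)) (fun e he => hIG e (hmem i e he))
    exact ⟨(x, y), hA, hT⟩
  choose r hrA hrT using hcopy
  have hri : Function.Injective r := by
    intro i j hij
    by_contra hne
    have h1 : s(f (φ i h.v0), f (φ i h.q)) ∈ im (fun u => f (φ i u)) h.E :=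
      mem_image_of_mem _ h.hq
    rw [hrT i, hij, ← hrT j, im, mem_image] at h1
    obtain ⟨e', he', h2⟩ := h1
    induction e' using Sym2.ind with
    | _ a b =>
      rw [Sym2.map_mk, Sym2.eq_iff] at h2
      have h3 : ∃ c, φ i h.q = φ j c := by
        rcases h2 with ⟨-, h2⟩ | ⟨h2, -⟩
        · exact ⟨b, (hfi h2).symm⟩
        · exact ⟨a, (hfi h2).symm⟩
      obtain ⟨c, h3⟩ := h3
      rcases hb.dis _ _ _ _ h3 with h4 | ⟨-, h4⟩
      · exact hne h4
      · rcases h4 with h4 | h4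
        · exact h.v0q h4.symm
        · exact h.hpq h4.symm
  have hcom : ∀ i j, s(f (φ i h.v0), f (φ i h.p)) ∈ h.T (r j).1 (r j).2 := by
    intro i j
    rw [← hrT j, hb.eq_v0 i j, hb.eq_p i j]
    exact mem_image_of_mem _ h.hp
  have i0 : Fin m := ⟨0, by omega⟩
  have hz : ∃ z, s(f (φ i0 h.v0), f (φ i0 h.p)) = ch W0 z := by
    obtain ⟨i1, hi1⟩ : ∃ i1 : Fin m, i1 ≠ i0 := by
      by_cases h0 : i0 = ⟨0, by omega⟩
      · exact ⟨⟨1, by omega⟩, by rw [h0]; simp⟩
      · exact ⟨⟨0, by omega⟩, fun h => h0 h.symm⟩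
    by_contra hcon
    push Not at hcon
    have h1 : s(f (φ i0 h.v0), f (φ i0 h.p)) ∈ h.Pr (r i0).1 (r i0).2 := by
      rw [Dat.Pr, mem_sdiff]
      refine ⟨hcom i0 i0, ?_⟩
      simp only [mem_insert, mem_singleton, not_or]
      exact ⟨hcon _, hcon _⟩
    obtain ⟨h2, h3⟩ := h.Pr_uniq (hrA i0) (hrA i1) h1 (hcom i0 i1)
    exact hi1 (hri (Prod.ext h2 h3))
  obtain ⟨z, hz⟩ := hz
  refine ⟨z, univ.image r, ?_, ?_⟩
  · rw [card_image_of_injective _ hri, card_univ, Fintype.card_fin]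
  · intro t ht
    rw [mem_image] at ht
    obtain ⟨i, -, rfl⟩ := ht
    refine ⟨⟨hrA i, ?_⟩, ?_⟩
    · rw [← hrT i]
      exact hmem i
    · apply chT h
      rw [← hz]
      exact hcom i0 i

end

/-- books are bad -/
theorem book_fail {W W0 : Type} (H : SimpleGraph W) (K : SimpleGraph W0) (E : Finset (Sym2 W0))
    (hE : ∀ e, e ∈ E ↔ e ∈ K.edgeSet) (v0 p q : W0) (hpq : p ≠ q) (hp : K.Adj v0 p)
    (hq : K.Adj v0 q) (hgood : Good E v0 p q) {m : ℕ} (hm : 2 ≤ m) {φ : Fin m → W0 → W}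
    (hb : IsBook H K v0 p φ) (σ : W0 → W0) (hσi : Function.Injective σ)
    (hσ : ∀ u w, K.Adj u w → K.Adj (σ u) (σ w)) (hσ0 : σ v0 = v0) (hσp : σ p = q) : Fail H := by
  obtain ⟨A, hU, hA⟩ := exists_conflict E.card
  obtain ⟨M, rfl⟩ : ∃ M, m = M + 1 := ⟨m - 1, by omega⟩
  let h : Dat (Cx ⊕ Cx × Fin M) W0 :=
    { A := ext A M
      n := 2 * (E.card + 1)
      hn := by omega
      acyc := ext_acyc hA
      E := E
      nd := fun e he => K.not_isDiag_of_mem_edgeSet ((hE e).1 he)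
      v0 := v0
      p := p
      q := q
      hpq := hpq
      hp := (hE _).2 hp
      hq := (hE _).2 hq }
  refine ⟨HV (Cx ⊕ Cx × Fin M) W0, h.G, fun F hF hfree => ?_⟩
  obtain ⟨I, hI, hcnt, hlt⟩ := exchangeB (A := A) h (fun _ _ => Iff.rfl) (fun _ _ => Iff.rfl)
    (fun _ _ => id) hU F hF (fun z hz => hfree (contains_of_cnt h hE hb σ hσi hσ hσ0 hσp hz))
  refine ⟨I, hI, fun hH => ?_, hlt⟩
  obtain ⟨z, hz⟩ := cnt_of_contains h hE (by show E.card ≤ 2 * (E.card + 1); omega) hgood hb hm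
    hI hH
  exact hcnt z hz

end Pool.Agent.P8H52.SM
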