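import Pool.Agent.P8H52.SM.StarB

/-!
# Minimal 2-fragments
-/

open Finset SimpleGraph
open scoped Classical

namespace Pool.Agent.P8H52.SM

open Pool.Agent.Results.MP_fc2b6d_co.Forests Pool.Agent.H165R2.SM

section
variable {W : Type} [Fintype W] (H : SimpleGraph W)

/-- the outer neighbours -/
noncomputable def nb (D : Finset W) : Finset W := univ.filter (fun w => w ∉ D ∧ ∃ d ∈ D, H.Adj d w)

variable {H}

theorem mem_nb {D : Finset W} {w : W} : w ∈ nb H D ↔ w ∉ D ∧ ∃ d ∈ D, H.Adj d w := by
  rw [nb, mem_filter]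
  exact ⟨fun h => h.2, fun h => ⟨mem_univ _, h⟩⟩

theorem nb_sub (A B : Finset W) :
    (nb H (A ∩ B)).card + (nb H (A ∪ B)).card ≤ (nb H A).card + (nb H B).card := by
  rw [← card_union_add_card_inter, ← card_union_add_card_inter (nb H A)]
  refine Nat.add_le_add (card_le_card ?_) (card_le_card ?_)
  · intro w hw
    rw [mem_union, mem_nb, mem_nb] at hw ⊢
    rcases hw with ⟨h1, d, h2, h3⟩ | ⟨h1, d, h2, h3⟩
    · rw [mem_inter] at h2
      by_cases h4 : w ∈ A
      · exact .inr ⟨fun h5 => h1 (mem_inter.2 ⟨h4, h5⟩), d, h2.2, h3⟩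
      · exact .inl ⟨h4, d, h2.1, h3⟩
    · rw [mem_union, not_or] at h1
      rcases mem_union.1 h2 with h2 | h2
      · exact .inl ⟨h1.1, d, h2, h3⟩
      · exact .inr ⟨h1.2, d, h2, h3⟩
  · intro w hw
    rw [mem_inter, mem_nb, mem_nb] at hw ⊢
    obtain ⟨⟨h1, d, h2, h3⟩, h4, -⟩ := hw
    rw [mem_inter] at h2
    rw [mem_union, not_or] at h4
    exact ⟨⟨h4.1, d, h2.1, h3⟩, ⟨h4.2, d, h2.2, h3⟩⟩

theorem card_un (D : Finset W) : (D ∪ nb H D).card = D.card + (nb H D).card := by
  rw [card_union_of_disjoint]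
  rw [Finset.disjoint_left]
  exact fun x hx hx' => (mem_nb.1 hx').1 hx

/-- 2-connected graphs -/
theorem two_le_nb (hconn : H.Preconnected) (hcut : ∀ v : W, (H.induce {v}ᶜ).Preconnected)
    {D : Finset W} (hD : D.Nonempty) (hne : D ∪ nb H D ≠ univ) : 2 ≤ (nb H D).card := by
  by_contra hcon
  obtain ⟨r, hr⟩ : ∃ r, r ∉ D ∪ nb H D := by
    by_contra h
    push Not at h
    exact hne (eq_univ_iff_forall.2 h)
  rw [mem_union, not_or] at hr
  obtain ⟨d, hd⟩ := hD
  rcases (nb H D).eq_empty_or_nonempty with he | ⟨v, hv⟩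
  · -- no neighbours
    have key : ∀ x y, H.Walk x y → x ∈ D → y ∈ D := by
      intro x y p
      induction p with
      | nil => exact id
      | @cons x x' y hxy p ih =>
        intro hx
        apply ih
        by_contra hn
        have : x' ∈ nb H D := mem_nb.2 ⟨hn, x, hx, hxy⟩
        rw [he] at this
        exact notMem_empty _ this
    obtain ⟨p⟩ := hconn d r
    exact hr.1 (key d r p hd)
  · have hsing : ∀ w ∈ nb H D, w = v := by
      intro w hw
      by_contra hwv
      apply hcon
      have : ({w, v} : Finset W) ⊆ nb H D := by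
        intro x hx
        rw [mem_insert, mem_singleton] at hx
        rcases hx with rfl | rfl
        · exact hw
        · exact hv
      have h2 := card_le_card this
      rwa [card_pair hwv] at h2
    have hvD := (mem_nb.1 hv).1
    have key : ∀ x y : ({v}ᶜ : Set W), (H.induce ({v}ᶜ : Set W)).Walk x y → x.1 ∈ D → y.1 ∈ D := by
      intro x y p
      induction p with
      | nil => exact id
      | @cons x x' y hxy p ih =>
        intro hx
        apply ih
        by_contra hn
        exact x'.2 (hsing _ (mem_nb.2 ⟨hn, x, hx, hxy⟩))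
    obtain ⟨p⟩ := hcut v ⟨d, fun h => hvD (h ▸ hd)⟩ ⟨r, fun h => hr.2 (h ▸ hv)⟩
    exact hr.1 (key _ _ p hd)

/-- 2-fragments -/
structure Fr (H : SimpleGraph W) (D : Finset W) : Prop where
  ne : D.Nonempty
  le : (nb H D).card ≤ 2
  un : D ∪ nb H D ≠ univ

/-- minimal 2-fragments in a 2-connected graph -/
structure Mn (H : SimpleGraph W) (k : ℕ) : Prop where
  con : ∀ D : Finset W, D.Nonempty → D ∪ nb H D ≠ univ → 2 ≤ (nb H D).card
  two : 2 ≤ k
  min : ∀ D, Fr H D → k ≤ D.card
  ex : ∃ D, Fr H D ∧ D.card = k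

variable {k : ℕ}

theorem Mn.card (h : Mn H k) : 2 * k + 2 ≤ Fintype.card W := by
  obtain ⟨D, hD, hk⟩ := h.ex
  obtain ⟨R, hR⟩ : ∃ R : Finset W, R = univ \ (D ∪ nb H D) := ⟨_, rfl⟩
  have hRne : R.Nonempty := by
    rw [hR, nonempty_iff_ne_empty, ne_eq, sdiff_eq_empty_iff_subset, univ_subset_iff]
    exact hD.un
  have hsub : nb H R ⊆ nb H D := by
    intro w hw
    rw [mem_nb] at hw
    obtain ⟨h1, d, h2, h3⟩ := hw
    rw [hR, mem_sdiff, mem_union, not_or] at h2
    rw [hR, mem_sdiff, not_and, not_not] at h1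
    rcases mem_union.1 (h1 (mem_univ _)) with h4 | h4
    · exact (h2.2.2 (mem_nb.2 ⟨h2.2.1, w, h4, h3.symm⟩)).elim
    · exact h4
  obtain ⟨d, hd⟩ := hD.ne
  have hRF : Fr H R := by
    refine ⟨hRne, (card_le_card hsub).trans hD.le, ?_⟩
    intro hu
    have := eq_univ_iff_forall.1 hu d
    rcases mem_union.1 this with h1 | h1
    · rw [hR, mem_sdiff] at h1
      exact h1.2 (mem_union_left _ hd)
    · exact (mem_nb.1 (hsub h1)).1 hd
  have h1 := h.min R hRF
  have h2 := h.con D hD.ne hD.un
  have h3 := card_un (H := H) D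
  have h5 := h.two
  have h4 : R.card = Fintype.card W - (D ∪ nb H D).card := by
    rw [hR, card_sdiff_of_subset (subset_univ _), card_univ]
  omega

theorem Mn.ne_univ (h : Mn H k) {A : Finset W} (hA : A.card < 2 * k + 2) : A ≠ univ := by
  rintro rfl
  rw [card_univ] at hA
  have := h.card
  omega

/-- small nonempty sets have at least three neighbours -/
theorem Mn.three (h : Mn H k) {A : Finset W} (hA : A.Nonempty) (hk : A.card < k) :
    3 ≤ (nb H A).card := by
  by_contra hcon
  push Not at hcon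
  have h1 := h.two
  have h2 := h.min A ⟨hA, by omega, h.ne_univ (by rw [card_un]; omega)⟩
  omega

theorem Mn.disj (h : Mn H k) {D D' : Finset W} (hD : Fr H D) (hk : D.card = k) (hD' : Fr H D')
    (hk' : D'.card = k) (hne : D ≠ D') : Disjoint D D' := by
  by_contra hcon
  rw [not_disjoint_iff_nonempty_inter] at hcon
  have h1 : (D ∩ D').card < k := by
    rw [← hk]
    refine card_lt_card ⟨inter_subset_left, fun hh => hne ?_⟩
    have h2 : D ⊆ D' := fun x hx => (mem_inter.1 (hh hx)).2
    exact eq_of_subset_of_card_le h2 (by rw [hk, hk'])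
  have h2 := h.three hcon h1
  have h3 := nb_sub (H := H) D D'
  have h4 := hD.le
  have h5 := hD'.le
  have h6 : (D ∪ D').card < 2 * k := by
    have := card_union_add_card_inter D D'
    have := hcon.card_pos
    omega
  have h7 := h.con (D ∪ D') (hD.ne.mono subset_union_left) (h.ne_univ (by rw [card_un]; omega))
  omega

theorem Mn.nadj (h : Mn H k) {D D' : Finset W} (hD : Fr H D) (hk : D.card = k) (hD' : Fr H D')
    (hk' : D'.card = k) (hne : D ≠ D') {x y : W} (hx : x ∈ D) (hy : y ∈ D') : ¬ H.Adj x y := by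
  intro hxy
  have hd := h.disj hD hk hD' hk' hne
  have h2 := h.two
  have h4 := hD.le
  have h5 := hD'.le
  have hyD : y ∈ nb H D := mem_nb.2 ⟨fun hh => Finset.disjoint_left.1 hd hh hy, x, hx, hxy⟩
  have hxD : x ∈ nb H D' := mem_nb.2 ⟨fun hh => Finset.disjoint_left.1 hd hx hh, y, hy, hxy.symm⟩
  have hc1 : (nb H D \ D').card ≤ 1 := by
    have h6 : (nb H D \ D').card < (nb H D).card := by
      refine card_lt_card ⟨sdiff_subset, fun hh => ?_⟩
      exact (mem_sdiff.1 (hh hyD)).2 hy
    omega
  have hfin : nb H D' ⊆ D → False := by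
    intro hsub
    have h6 : nb H (D ∪ D') ⊆ nb H D \ D' := by
      intro w hw
      rw [mem_nb] at hw
      obtain ⟨h1, d, h7, h8⟩ := hw
      rw [mem_union, not_or] at h1
      rw [mem_sdiff]
      refine ⟨?_, h1.2⟩
      rcases mem_union.1 h7 with h7 | h7
      · exact mem_nb.2 ⟨h1.1, d, h7, h8⟩
      · exact (h1.1 (hsub (mem_nb.2 ⟨h1.2, d, h7, h8⟩))).elim
    have h7 := card_le_card h6
    have h8 : (D ∪ D').card ≤ 2 * k := by
      have := card_union_le D D'
      omega
    have h9 := h.con (D ∪ D') (hD.ne.mono subset_union_left) (h.ne_univ (by rw [card_un]; omega))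
    omega
  rcases (D \ nb H D').eq_empty_or_nonempty with he | hA
  · rw [sdiff_eq_empty_iff_subset] at he
    have := eq_of_subset_of_card_le he (by omega)
    exact hfin (by rw [← this])
  · have h6 : (D \ nb H D').card < k := by
      rw [← hk]
      refine card_lt_card ⟨sdiff_subset, fun hh => ?_⟩
      exact (mem_sdiff.1 (hh hx)).2 hxD
    have h7 := h.three hA h6
    have h8 : nb H (D \ nb H D') ⊆ (nb H D' ∩ D) ∪ (nb H D \ D') := by
      intro w hw
      rw [mem_nb] at hw
      obtain ⟨h1, d, h9, h10⟩ := hw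
      rw [mem_sdiff] at h9
      rw [mem_sdiff, not_and, not_not] at h1
      rw [mem_union, mem_inter, mem_sdiff]
      by_cases h11 : w ∈ D
      · exact .inl ⟨h1 h11, h11⟩
      · refine .inr ⟨mem_nb.2 ⟨h11, d, h9.1, h10⟩, fun h12 => h9.2 ?_⟩
        exact mem_nb.2 ⟨fun hh => Finset.disjoint_left.1 hd h9.1 hh, w, h12, h10.symm⟩
    have h9 := card_le_card h8
    have h10 := card_union_le (nb H D' ∩ D) (nb H D \ D')
    have h11 : (nb H D' ∩ D).card ≤ (nb H D').card := card_le_card inter_subset_left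
    have h12 : nb H D' ∩ D = nb H D' := eq_of_subset_of_card_le inter_subset_left (by omega)
    exact hfin (by rw [← h12]; exact inter_subset_right)

/-- separating pairs do not meet minimal fragments -/
theorem Mn.nsep (h : Mn H k) {D : Finset W} (hD : Fr H D) (hk : D.card = k) {c d : W}
    {C C' : Finset W} (hC : C.Nonempty) (hC' : C'.Nonempty)
    (hCC : Disjoint C C') (hun : ∀ w, w = c ∨ w = d ∨ w ∈ C ∨ w ∈ C') (hcC : c ∉ C) (hcC' : c ∉ C')
    (hdC : d ∉ C) (hdC' : d ∉ C') (hadj : ∀ x ∈ C, ∀ y ∈ C', ¬ H.Adj x y) : c ∉ D := by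
  intro hcD
  have hnbC : ∀ {C C' : Finset W}, (∀ w, w = c ∨ w = d ∨ w ∈ C ∨ w ∈ C') →
      (∀ x ∈ C, ∀ y ∈ C', ¬ H.Adj x y) → nb H C ⊆ {c, d} := by
    intro C C' hun hadj w hw
    rw [mem_nb] at hw
    obtain ⟨h1, x, h2, h3⟩ := hw
    rw [mem_insert, mem_singleton]
    rcases hun w with h4 | h4 | h4 | h4
    · exact .inl h4
    · exact .inr h4
    · exact (h1 h4).elim
    · exact (hadj x h2 w h4 h3).elim
  have hFr : ∀ {C C' : Finset W}, C.Nonempty → C'.Nonempty → Disjoint C C' →
      (∀ w, w = c ∨ w = d ∨ w ∈ C ∨ w ∈ C') → (∀ x ∈ C, ∀ y ∈ C', ¬ H.Adj x y) →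
      c ∉ C' → d ∉ C' → Fr H C := by
    intro C C' hC hC' hCC hun hadj hcC' hdC'
    refine ⟨hC, (card_le_card (hnbC hun hadj)).trans card_le_two, ?_⟩
    intro hu
    obtain ⟨y, hy⟩ := hC'
    rcases mem_union.1 (eq_univ_iff_forall.1 hu y) with h1 | h1
    · exact Finset.disjoint_left.1 hCC h1 hy
    · have := hnbC hun hadj h1
      rw [mem_insert, mem_singleton] at this
      rcases this with rfl | rfl
      · exact hcC' hy
      · exact hdC' hy
  have hun' : ∀ w, w = c ∨ w = d ∨ w ∈ C' ∨ w ∈ C := by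
    intro w
    rcases hun w with h1 | h1 | h1 | h1
    · exact .inl h1
    · exact .inr (.inl h1)
    · exact .inr (.inr (.inr h1))
    · exact .inr (.inr (.inl h1))
  have hadj' : ∀ x ∈ C', ∀ y ∈ C, ¬ H.Adj x y := fun x hx y hy hh => hadj y hy x hx hh.symm
  have F1 := hFr hC hC' hCC hun hadj hcC' hdC'
  have F2 := hFr hC' hC hCC.symm hun' hadj' hcC hdC
  have h2 := h.two
  -- a fragment side meeting `D`
  have main : ∀ {C C' : Finset W}, Fr H C → Fr H C' → Disjoint C C' → c ∉ C → c ∉ C' →
      (D ∩ C).Nonempty → False := by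
    intro C C' F1 F2 hCC hcC hcC' hne
    have h3 : (D ∩ C).card < k := by
      rw [← hk]
      exact card_lt_card ⟨inter_subset_left, fun hh => hcC (mem_inter.1 (hh hcD)).2⟩
    have h4 := h.three hne h3
    have h5 := nb_sub (H := H) D C
    have h6 := hD.le
    have h7 := F1.le
    have h8 : (D ∪ C) ∪ nb H (D ∪ C) = univ := by
      by_contra hcon
      have := h.con (D ∪ C) (hD.ne.mono subset_union_left) hcon
      omega
    have h9 : C' ⊆ (D \ (D ∩ C)).erase c ∪ nb H (D ∪ C) := by
      intro x hx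
      rw [mem_union, mem_erase, mem_sdiff, mem_inter]
      have hxC : x ∉ C := fun hh => Finset.disjoint_left.1 hCC hh hx
      rcases mem_union.1 (eq_univ_iff_forall.1 h8 x) with h10 | h10
      · rcases mem_union.1 h10 with h10 | h10
        · exact .inl ⟨fun hh => hcC' (hh ▸ hx), h10, fun hh => hxC hh.2⟩
        · exact (hxC h10).elim
      · exact .inr h10
    have h10 := card_le_card h9
    have h11 := card_union_le ((D \ (D ∩ C)).erase c) (nb H (D ∪ C))
    have h12 : ((D \ (D ∩ C)).erase c).card = D.card - (D ∩ C).card - 1 := by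
      rw [card_erase_of_mem, card_sdiff_of_subset inter_subset_left]
      rw [mem_sdiff, mem_inter]
      exact ⟨hcD, fun hh => hcC hh.2⟩
    have h13 := h.min C' F2
    have h14 := hne.card_pos
    omega
  by_cases hDC : (D ∩ C).Nonempty
  · exact main F1 F2 hCC hcC hcC' hDC
  · by_cases hDC' : (D ∩ C').Nonempty
    · exact main F2 F1 hCC.symm hcC' hcC hDC'
    · -- `D = {c, d}`
      have hDsub : D ⊆ {c, d} := by
        intro x hx
        rw [mem_insert, mem_singleton]
        rcases hun x with h3 | h3 | h3 | h3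
        · exact .inl h3
        · exact .inr h3
        · exact (hDC ⟨x, mem_inter.2 ⟨hx, h3⟩⟩).elim
        · exact (hDC' ⟨x, mem_inter.2 ⟨hx, h3⟩⟩).elim
      have hc2 : ({c, d} : Finset W).card ≤ 2 := card_le_two
      have hDeq : D = {c, d} := eq_of_subset_of_card_le hDsub (by omega)
      -- `C` has exactly one vertex in `nb D`
      have hmeet : ∀ {C : Finset W}, Fr H C → nb H C ⊆ {c, d} → c ∉ C → d ∉ C →
          (nb H D ∩ C).Nonempty := by
        intro C F hsub hcC hdC
        have h3 := h.con C F.ne F.un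
        have h4 : nb H C = {c, d} := eq_of_subset_of_card_le hsub (by omega)
        have h5 : c ∈ nb H C := by rw [h4]; exact mem_insert_self _ _
        obtain ⟨-, x, h6, h7⟩ := mem_nb.1 h5
        refine ⟨x, mem_inter.2 ⟨mem_nb.2 ⟨?_, c, hcD, h7.symm⟩, h6⟩⟩
        intro hxD
        have := hDsub hxD
        rw [mem_insert, mem_singleton] at this
        rcases this with rfl | rfl
        · exact hcC h6
        · exact hdC h6
      have m1 := hmeet F1 (hnbC hun hadj) hcC hdC
      have m2 := hmeet F2 (hnbC hun' hadj') hcC' hdC'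
      have h3 : (nb H D ∩ C).card + (nb H D ∩ C').card ≤ 2 := by
        rw [← card_union_of_disjoint]
        · refine (card_le_card ?_).trans hD.le
          exact union_subset inter_subset_left inter_subset_left
        · exact disjoint_of_subset_left inter_subset_right
            (disjoint_of_subset_right inter_subset_right hCC)
      have h4 := m1.card_pos
      have h5 := m2.card_pos
      obtain ⟨u, hu⟩ := card_eq_one.1 (show (nb H D ∩ C).card = 1 by omega)
      have huC : u ∈ C := by
        have : u ∈ nb H D ∩ C := by rw [hu]; exact mem_singleton_self _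
        exact (mem_inter.1 this).2
      by_cases hCu : (C.erase u).Nonempty
      · have h6 : nb H (C.erase u) ⊆ {u} := by
          intro w hw
          rw [mem_nb] at hw
          obtain ⟨h7, x, h8, h9⟩ := hw
          rw [mem_singleton]
          by_contra hwu
          rw [mem_erase] at h8
          have hwC : w ∉ C := fun hh => h7 (mem_erase.2 ⟨hwu, hh⟩)
          have h10 := hnbC hun hadj (mem_nb.2 ⟨hwC, x, h8.2, h9⟩)
          rw [← hDeq] at h10
          have h11 : x ∈ nb H D ∩ C := by
            refine mem_inter.2 ⟨mem_nb.2 ⟨?_, w, h10, h9.symm⟩, h8.2⟩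
            intro hxD
            exact hDC ⟨x, mem_inter.2 ⟨hxD, h8.2⟩⟩
          rw [hu, mem_singleton] at h11
          exact h8.1 h11
        have h7 := card_le_card h6
        rw [card_singleton] at h7
        have h8 := h.con (C.erase u) hCu (by
          intro hh
          rcases mem_union.1 (eq_univ_iff_forall.1 hh c) with h9 | h9
          · exact hcC (mem_of_mem_erase h9)
          · have := h6 h9
            rw [mem_singleton] at this
            exact hcC (this ▸ huC))
        omega
      · have h6 : C.card ≤ 1 := by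
          rw [not_nonempty_iff_eq_empty] at hCu
          have := card_erase_of_mem huC
          rw [hCu, card_empty] at this
          omega
        have h7 := h.min C F1
        omega

/-- the complement of the minimal fragments -/
def core (H : SimpleGraph W) (k : ℕ) : Set W := {w | ∀ D, Fr H D → D.card = k → w ∉ D}

theorem Mn.rg (h : Mn H k) : Rg H (core H k) := by
  intro D g hinj hD hN hadj d0 hd0 hd0M
  have h1 := hD d0 hd0
  rw [core, Set.mem_ofPred_eq] at h1
  push Not at h1
  obtain ⟨X, hX, hXk, hgX⟩ := h1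
  obtain ⟨D1, hD1⟩ : ∃ D1 : Finset W, ∀ w, w ∈ D1 ↔ w ∈ D ∧ g w ∈ X :=
    ⟨univ.filter (fun w => w ∈ D ∧ g w ∈ X), fun w => by rw [mem_filter]; simp⟩
  have hd01 : d0 ∈ D1 := (hD1 _).2 ⟨hd0, hgX⟩
  have hc1 : D1.card ≤ k := by
    rw [← hXk]
    refine card_le_card_of_injOn g (fun w hw => ((hD1 w).1 hw).2) ?_
    intro x hx y hy e
    exact hinj x y (.inl ((hD1 x).1 hx).1) (.inl ((hD1 y).1 hy).1) e
  have hnb : ∀ w ∈ nb H D1, w ∉ D ∧ (∃ d ∈ D, H.Adj d w) ∧ g w ∈ nb H X := by
    intro w hw
    obtain ⟨h2, x, h3, h4⟩ := mem_nb.1 hw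
    have h3' := (hD1 x).1 h3
    have h5 := hadj x h3'.1 w h4
    have hwD : w ∉ D := by
      intro hwD
      have h6 := hD w hwD
      rw [core, Set.mem_ofPred_eq] at h6
      push Not at h6
      obtain ⟨X', hX', hXk', hgX'⟩ := h6
      by_cases hXX : X = X'
      · rw [← hXX] at hgX'
        exact h2 ((hD1 w).2 ⟨hwD, hgX'⟩)
      · exact h.nadj hX hXk hX' hXk' hXX h3'.2 hgX' h5
    have h6 := hN w hwD ⟨x, h3'.1, h4⟩
    exact ⟨hwD, ⟨x, h3'.1, h4⟩, mem_nb.2 ⟨h6 X hX hXk, g x, h3'.2, h5⟩⟩
  have hc2 : (nb H D1).card ≤ 2 := by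
    refine le_trans ?_ hX.le
    refine card_le_card_of_injOn g (fun w hw => (hnb w hw).2.2) ?_
    intro x hx y hy e
    exact hinj x y (.inr (hnb x hx).2.1) (.inr (hnb y hy).2.1) e
  have hF : Fr H D1 := ⟨⟨d0, hd01⟩, hc2, h.ne_univ (by rw [card_un]; have := h.two; omega)⟩
  have := h.min D1 hF
  exact hd0M D1 hF (by omega) hd01

end

end Pool.Agent.P8H52.SM
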