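import Pool.Agent.P8H52.SM.Rk

/-!
# Profiles in the hub host
-/

open Finset
open scoped Classical symmDiff

namespace Pool.Agent.P8H52.SM

open Pool.Agent.H165R2.SM Pool.Agent.H165R2.SM.HV Pool.Agent.H165R2.SM.Dat

section
variable {Y W0 : Type} (h : Dat Y W0)

/-- a tight set in the hub host lies in a gadget or is split at a choice edge -/
theorem gadget_or_split {J : Finset (Sym2 (HV Y W0))} (hJG : ∀ e ∈ J, e ∈ h.Gs)
    (hc : J.card ≤ h.n) (hJ : CC J) (hne : J.Nonempty) :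
    (∃ x y, h.A x y ∧ J ⊆ h.T x y) ∨ ∃ u v A B, u ≠ v ∧ s(u, v) ∈ h.Gs ∧
      J.erase s(u, v) = A ∪ B ∧ Spl A B u v ∧ A.Nonempty ∧ B.Nonempty := by
  -- a private edge
  obtain ⟨x, y, hA, g, hg, hgP⟩ : ∃ x y, h.A x y ∧ ∃ g ∈ J, g ∈ h.Pr x y := by
    obtain ⟨e, he⟩ := hne
    rcases h.Gs_cases (hJG e he) with ⟨u, rfl⟩ | ⟨x, y, hA, hP⟩
    · obtain ⟨C, h1, h2, h3, -⟩ := hJ.cc _ he _ he
      obtain ⟨x, y, hA, -, g, hg, hgP⟩ := h.exists_private h2.2.1 (fun e he => hJG e (h1 he)) h3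
      exact ⟨x, y, hA, g, h1 hg, hgP⟩
    · exact ⟨x, y, hA, e, he, hP⟩
  obtain ⟨JT, JX, JY, hs⟩ := h.exists_split hJG hc hA ⟨g, hg, hgP⟩
  have hgT : g ∈ JT := (hs.T g).2 ⟨hg, h.Pr_T hgP⟩
  have hgch : ∀ z, g ≠ ch W0 z := by
    rintro z rfl
    exact h.Pr_not_ch hgP
  have hchX : ch W0 x ∉ JX := by
    intro hh
    have h1 : ch W0 x ∈ J := by
      rw [hs.un]; exact mem_union_right _ (mem_union_left _ hh)
    exact disjoint_left.1 hs.dTX ((hs.T _).2 ⟨h1, h.ch_T1 _ _⟩) hh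
  have hchY : ch W0 y ∉ JY := by
    intro hh
    have h1 : ch W0 y ∈ J := by
      rw [hs.un]; exact mem_union_right _ (mem_union_right _ hh)
    exact disjoint_left.1 hs.dTY ((hs.T _).2 ⟨h1, h.ch_T2 _ _⟩) hh
  by_cases hX : JX.Nonempty
  · right
    refine ⟨hub, vx x, JX, (JT ∪ JY).erase (ch W0 x), (by intro e; cases e), .inl ⟨x, rfl⟩, ?_, ?_,
      hX, ⟨g, mem_erase.2 ⟨hgch x, mem_union_left _ hgT⟩⟩⟩
    · change J.erase (ch W0 x) = _
      rw [hs.un]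
      ext e
      simp only [mem_erase, mem_union]
      have : e ∈ JX → e ≠ ch W0 x := fun h1 h2 => hchX (h2 ▸ h1)
      tauto
    · refine ⟨?_, ?_⟩
      · refine disjoint_of_subset_right (erase_subset _ _) ?_
        rw [disjoint_union_right]
        exact ⟨hs.dTX.symm, hs.dXY⟩
      · rintro v h1 ⟨e2, h3, h4⟩
        rcases mem_union.1 (mem_of_mem_erase h3) with h3 | h3
        · exact hs.vTX v ⟨e2, h3, h4⟩ h1
        · exact .inl (hs.vXY v h1 ⟨e2, h3, h4⟩)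
  · by_cases hY : JY.Nonempty
    · right
      refine ⟨hub, vx y, JY, (JT ∪ JX).erase (ch W0 y), (by intro e; cases e), .inl ⟨y, rfl⟩, ?_,
        ?_, hY, ⟨g, mem_erase.2 ⟨hgch y, mem_union_left _ hgT⟩⟩⟩
      · change J.erase (ch W0 y) = _
        rw [hs.un]
        ext e
        simp only [mem_erase, mem_union]
        have : e ∈ JY → e ≠ ch W0 y := fun h1 h2 => hchY (h2 ▸ h1)
        tauto
      · refine ⟨?_, ?_⟩
        · refine disjoint_of_subset_right (erase_subset _ _) ?_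
          rw [disjoint_union_right]
          exact ⟨hs.dTY.symm, hs.dXY.symm⟩
        · rintro v h1 ⟨e2, h3, h4⟩
          rcases mem_union.1 (mem_of_mem_erase h3) with h3 | h3
          · exact hs.vTY v ⟨e2, h3, h4⟩ h1
          · exact .inl (hs.vXY v ⟨e2, h3, h4⟩ h1)
    · left
      rw [not_nonempty_iff_eq_empty] at hX hY
      refine ⟨x, y, hA, fun e he => ?_⟩
      rw [hs.un, hX, hY, union_empty, union_empty] at he
      exact ((hs.T e).1 he).2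

theorem bd_gz {N : ℕ} (hN : N ≤ h.n) {π : Lex (ℕ → ℕ)}
    (hπ : ∀ e ∈ h.E, pf h.E e ≤ π) : Bd N π h.Gs := by
  refine Bd.of fun J hJG hc hJ e he => ?_
  rcases gadget_or_split h hJG (hc.trans hN) hJ.toCC ⟨e, he⟩ with ⟨x, y, hA, hT⟩ | hh
  · left
    have h1 := hT he
    rw [h.mem_T] at h1
    obtain ⟨e', he', rfl⟩ := h1
    refine (pf_mono hT _).trans ?_
    rw [Dat.T, pf_im (h.io_inj (h.ne_of hA))]
    exact hπ e' he'
  · exact .inr hh

theorem copy_gz {π : Lex (ℕ → ℕ)} (hn : h.E.card ≤ h.n) (hπ : ∀ e ∈ h.E, pf h.E e ≤ π)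
    {J : Finset (Sym2 (HV Y W0))} (hJG : ∀ e ∈ J, e ∈ h.Gs) (hJ : Tt J)
    (hc : J.card = h.E.card) (hmax : ∃ e ∈ J, pf J e = π) : ∃ x y, h.A x y ∧ J = h.T x y := by
  rcases gadget_or_split h hJG (hc.le.trans hn) hJ.toCC
      (by obtain ⟨e, he, -⟩ := hmax; exact ⟨e, he⟩) with
    ⟨x, y, hA, hT⟩ | ⟨u, v, A, B, huv, huvG, hun, hsp, hA, hB⟩
  · refine ⟨x, y, hA, eq_of_subset_of_card_le hT ?_⟩
    rw [Dat.T, card_im (h.io_inj (h.ne_of hA)), hc]
  · rcases (bd_gz h hn hπ).unsep hJG hc.le hJ hmax huv huvG hun hsp with hh | hh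
    · rw [hh] at hA; exact (not_nonempty_empty hA).elim
    · rw [hh] at hB; exact (not_nonempty_empty hB).elim

end

end Pool.Agent.P8H52.SM
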