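import Pool.Agent.P8H52.SM.Rk

/-!
# Pages at the only separating edge
-/

open Finset
open scoped Classical symmDiff

namespace Pool.Agent.P8H52.SM

open Pool.Agent.H165R2.SM

section
variable {W : Type}

/-- `A` is a union of pages at `ab`, the edge `ab` omitted -/
def Cl (E : Finset (Sym2 W)) (a b : W) (A : Finset (Sym2 W)) : Prop :=
  A ⊆ E.erase s(a, b) ∧ Spl A ((E.erase s(a, b)) \ A) a b

theorem Cl.inter {E A B : Finset (Sym2 W)} {a b : W} (hA : Cl E a b A) (hB : Cl E a b B) :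
    Cl E a b (A ∩ B) := by
  refine ⟨inter_subset_left.trans hA.1, ?_, ?_⟩
  · rw [disjoint_left]
    intro e he he'
    exact (mem_sdiff.1 he').2 he
  · rintro w ⟨e1, h1, h2⟩ ⟨e2, h3, h4⟩
    rw [mem_inter] at h1
    rw [mem_sdiff, mem_inter, not_and_or] at h3
    rcases h3.2 with h5 | h5
    · exact hA.2.com w ⟨e1, h1.1, h2⟩ ⟨e2, mem_sdiff.2 ⟨h3.1, h5⟩, h4⟩
    · exact hB.2.com w ⟨e1, h1.2, h2⟩ ⟨e2, mem_sdiff.2 ⟨h3.1, h5⟩, h4⟩

theorem Cl.compl {E A : Finset (Sym2 W)} {a b : W} (hA : Cl E a b A) :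
    Cl E a b ((E.erase s(a, b)) \ A) := by
  refine ⟨sdiff_subset, disjoint_sdiff, ?_⟩
  rintro w ⟨e1, h1, h2⟩ ⟨e2, h3, h4⟩
  refine hA.2.com w ⟨e2, ?_, h4⟩ ⟨e1, h1, h2⟩
  rw [mem_sdiff, mem_sdiff, not_and, not_not] at h3
  exact h3.2 h3.1

/-- the page through `e` -/
theorem exists_page {E : Finset (Sym2 W)} {a b : W} (hE : CC E) (hab : s(a, b) ∈ E)
    (hsep : ∀ c d, s(c, d) ∈ E → s(c, d) ≠ s(a, b) → ¬ Sep E c d) {e : Sym2 W}
    (he : e ∈ E) (hne : e ≠ s(a, b)) :
    ∃ P ⊆ E, s(a, b) ∈ P ∧ e ∈ P ∧ Tt P ∧ Cl E a b (P.erase s(a, b)) ∧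
      ∀ A, Cl E a b A → e ∈ A → P.erase s(a, b) ⊆ A := by
  have hab' : a ≠ b := by
    rintro rfl
    exact hE.nd _ hab (by simp)
  obtain ⟨A, hA, hmin⟩ : ∃ A ∈ ((E.erase s(a, b)).powerset.filter (fun A => e ∈ A ∧ Cl E a b A)),
      ∀ A2 ∈ ((E.erase s(a, b)).powerset.filter (fun A => e ∈ A ∧ Cl E a b A)),
        A.card ≤ A2.card := by
    refine exists_min_image _ _ ⟨E.erase s(a, b), ?_⟩
    rw [mem_filter, mem_powerset]
    refine ⟨Subset.refl _, mem_erase.2 ⟨hne, he⟩, Subset.refl _, ?_, ?_⟩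
    · rw [sdiff_self]; exact disjoint_empty_right _
    · rintro w - ⟨e2, h3, -⟩
      rw [sdiff_self] at h3
      exact (notMem_empty _ h3).elim
  rw [mem_filter, mem_powerset] at hA
  obtain ⟨hAE, heA, hAc⟩ := hA
  have hmin' : ∀ B, Cl E a b B → e ∈ B → A ⊆ B := by
    intro B hB heB
    have h1 := hmin (A ∩ B) (by
      rw [mem_filter, mem_powerset]
      exact ⟨inter_subset_left.trans hAE, mem_inter.2 ⟨heA, heB⟩, hAc.inter hB⟩)
    have h2 := eq_of_subset_of_card_le inter_subset_left h1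
    rw [← h2]
    exact inter_subset_right
  have hnA : s(a, b) ∉ A := fun h => notMem_erase _ _ (hAE h)
  have hers : (insert s(a, b) A).erase s(a, b) = A := erase_insert hnA
  have hPE : insert s(a, b) A ⊆ E := by
    intro g hg
    rcases mem_insert.1 hg with rfl | hg
    · exact hab
    · exact mem_of_mem_erase (hAE hg)
  refine ⟨insert s(a, b) A, hPE, mem_insert_self _ _, mem_insert_of_mem heA, ?_, by rwa [hers],
    by rwa [hers]⟩
  refine ⟨?_, ?_⟩
  · -- 2-connected
    by_cases hemp : ((E.erase s(a, b)) \ A).Nonempty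
    · refine hE.side (B := (E.erase s(a, b)) \ A) hab' ?_ hAc.2 ⟨e, heA⟩ hemp
      rw [union_sdiff_of_subset hAE]
    · rw [not_nonempty_iff_eq_empty, sdiff_eq_empty_iff_subset] at hemp
      have : insert s(a, b) A = E := by
        rw [hAE.antisymm hemp, insert_erase hab]
      rwa [this]
  · intro c d hcd hS
    obtain ⟨A1, A2, hn1, hn2, hd, hun, hcom⟩ := hS
    by_cases heq : s(c, d) = s(a, b)
    · -- the page would be smaller
      have hcd' : ∀ v, v = c ∨ v = d → v = a ∨ v = b := by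
        intro v hv
        rw [← Sym2.mem_iff] at hv ⊢
        rwa [heq] at hv
      rw [heq, hers] at hun
      have main : ∀ A1 A2 : Finset (Sym2 W), A2.Nonempty → Disjoint A1 A2 → A1 ∪ A2 = A →
          (∀ v, (∃ e ∈ A1, v ∈ e) → (∃ e ∈ A2, v ∈ e) → v = a ∨ v = b) → e ∉ A1 := by
        intro A1 A2 hn2 hd hun hcom he1
        have h1 : Cl E a b A1 := by
          refine ⟨fun g hg => hAE (by rw [← hun]; exact mem_union_left _ hg), disjoint_sdiff, ?_⟩
          rintro w ⟨e1, h1, h2⟩ ⟨e2, h3, h4⟩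
          rw [mem_sdiff] at h3
          by_cases h5 : e2 ∈ A
          · rw [← hun, mem_union] at h5
            exact hcom w ⟨e1, h1, h2⟩ ⟨e2, h5.resolve_left h3.2, h4⟩
          · exact hAc.2.com w ⟨e1, by rw [← hun]; exact mem_union_left _ h1, h2⟩
              ⟨e2, mem_sdiff.2 ⟨h3.1, h5⟩, h4⟩
        obtain ⟨g, hg⟩ := hn2
        have := hmin' A1 h1 he1 (by rw [← hun]; exact mem_union_right _ hg)
        exact disjoint_left.1 hd this hg
      have he' := heA
      rw [← hun, mem_union] at he'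
      rcases he' with he' | he'
      · exact main A1 A2 hn2 hd hun (fun v h1 h2 => hcd' v (hcom v h1 h2)) he'
      · exact main A2 A1 hn1 hd.symm (by rw [union_comm]; exact hun)
          (fun v h1 h2 => hcd' v (hcom v h2 h1)) he'
    · -- another separating edge
      have main : ∀ A1 A2 : Finset (Sym2 W), A1.Nonempty → A2.Nonempty → Disjoint A1 A2 →
          A1 ∪ A2 = (insert s(a, b) A).erase s(c, d) →
          (∀ v, (∃ e ∈ A1, v ∈ e) → (∃ e ∈ A2, v ∈ e) → v = c ∨ v = d) → s(a, b) ∉ A1 := by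
        intro A1 A2 hn1 hn2 hd hun hcom he1
        have hA2 : A2 ⊆ A := by
          intro g hg
          have : g ∈ (insert s(a, b) A).erase s(c, d) := by
            rw [← hun]; exact mem_union_right _ hg
          rcases mem_insert.1 (mem_of_mem_erase this) with rfl | h
          · exact absurd hg (disjoint_left.1 hd he1)
          · exact h
        have hA1 : ∀ g ∈ A1, g ∈ insert s(a, b) A ∧ g ≠ s(c, d) := by
          intro g hg
          have : g ∈ (insert s(a, b) A).erase s(c, d) := by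
            rw [← hun]; exact mem_union_left _ hg
          exact ⟨mem_of_mem_erase this, ne_of_mem_erase this⟩
        refine hsep c d (hPE hcd) heq ⟨A1 ∪ ((E.erase s(a, b)) \ A), A2, ?_, hn2, ?_, ?_, ?_⟩
        · exact hn1.mono subset_union_left
        · rw [disjoint_union_left]
          exact ⟨hd, (disjoint_of_subset_left hA2 disjoint_sdiff).symm⟩
        · ext g
          simp only [mem_union, mem_sdiff, mem_erase]
          constructor
          · rintro ((h1 | ⟨⟨h1, h2⟩, h3⟩) | h1)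
            · exact ⟨(hA1 g h1).2, hPE (hA1 g h1).1⟩
            · refine ⟨?_, h2⟩
              rintro rfl
              rcases mem_insert.1 hcd with h4 | h4
              · exact h1 h4
              · exact h3 h4
            · refine ⟨?_, mem_of_mem_erase (hAE (hA2 h1))⟩
              have : g ∈ (insert s(a, b) A).erase s(c, d) := by
                rw [← hun]; exact mem_union_right _ h1
              exact ne_of_mem_erase this
          · rintro ⟨h1, h2⟩
            by_cases h3 : g ∈ insert s(a, b) A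
            · have : g ∈ A1 ∪ A2 := by rw [hun]; exact mem_erase.2 ⟨h1, h3⟩
              rcases mem_union.1 this with h | h
              · exact .inl (.inl h)
              · exact .inr h
            · rw [mem_insert, not_or] at h3
              exact .inl (.inr ⟨⟨h3.1, h2⟩, h3.2⟩)
        · rintro v ⟨e1, h1, h2⟩ ⟨e2, h3, h4⟩
          rcases mem_union.1 h1 with h1 | h1
          · exact hcom v ⟨e1, h1, h2⟩ ⟨e2, h3, h4⟩
          · have h5 := hAc.2.com v ⟨e2, hA2 h3, h4⟩ ⟨e1, h1, h2⟩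
            refine hcom v ⟨_, he1, ?_⟩ ⟨e2, h3, h4⟩
            rwa [Sym2.mem_iff]
      have he' : s(a, b) ∈ A1 ∪ A2 := by
        rw [hun]
        exact mem_erase.2 ⟨fun h => heq h.symm, mem_insert_self _ _⟩
      rcases mem_union.1 he' with he' | he'
      · exact main A1 A2 hn1 hn2 hd hun hcom he'
      · exact main A2 A1 hn2 hn1 hd.symm (by rw [union_comm]; exact hun)
          (fun v h1 h2 => hcom v h2 h1) he'

theorem CC.exists_ne {J : Finset (Sym2 W)} (hJ : CC J) {e : Sym2 W} (he : e ∈ J) (g : Sym2 W) :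
    ∃ e' ∈ J, e' ≠ g := by
  by_cases hg : e = g
  · subst hg
    obtain ⟨C, h1, h2, h3, -⟩ := hJ.cc e he e he
    induction e using Sym2.ind with
    | _ u v =>
      obtain ⟨e', h4, h5, -⟩ := Dat.Ev_other h2.2.1 h3 (v := u) (Sym2.mem_mk_left _ _)
      exact ⟨e', h1 h4, h5⟩
  · exact ⟨e, he, hg⟩

/-- tight subsets of maximal profile are pages -/
theorem page_of_max {E : Finset (Sym2 W)} {a b : W} (hE : CC E) (hab : s(a, b) ∈ E)
    (hsep : ∀ c d, s(c, d) ∈ E → s(c, d) ≠ s(a, b) → ¬ Sep E c d)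
    {π : Lex (ℕ → ℕ)} (hB : ∀ N, Bd N π (E : Set (Sym2 W))) {J : Finset (Sym2 W)} (hJE : J ⊆ E)
    (hJ : Tt J) (hmax : ∃ e ∈ J, pf J e = π) :
    s(a, b) ∈ J ∧ Cl E a b (J.erase s(a, b)) ∧
      ∃ e ∈ J, e ≠ s(a, b) ∧ ∀ A, Cl E a b A → e ∈ A → J.erase s(a, b) ⊆ A := by
  have hab' : a ≠ b := by
    rintro rfl
    exact hE.nd _ hab (by simp)
  obtain ⟨e0, he0, hpe⟩ := hmax
  obtain ⟨e, he, hne⟩ := hJ.toCC.exists_ne he0 s(a, b)
  obtain ⟨P, hPE, hPab, heP, hPt, hPc, hPm⟩ := exists_page hE hab hsep (hJE he) hne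
  have hside := (hB J.card).oneSide (J := J) (A := (E.erase s(a, b)) \ (P.erase s(a, b)))
    (B := P.erase s(a, b)) (u := a) (v := b)
    (fun g hg => hJE hg) le_rfl hJ ⟨e0, he0, hpe⟩ hab' hab (by
      intro g hg hgne
      by_cases h : g ∈ P.erase s(a, b)
      · exact .inr h
      · exact .inl (mem_sdiff.2 ⟨mem_erase.2 ⟨hgne, hJE hg⟩, h⟩)) hPc.2.symm he
      (mem_erase.2 ⟨hne, heP⟩) hne
  have hJP : J ⊆ P := by
    intro g hg
    rcases hside g hg with rfl | h
    · exact hPab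
    · exact mem_of_mem_erase h
  have hJeq : J = P := by
    by_contra hcon
    obtain ⟨g, hgP, hgJ⟩ : ∃ g ∈ P, g ∉ J := by
      by_contra h
      push Not at h
      exact hcon (hJP.antisymm h)
    obtain ⟨C, h1, h2, h3, h4⟩ := hPt.cc e0 (hJP he0) g hgP
    have h5 := pf_lt hJP h2 h1 h3 (fun h => hgJ (h h4))
    have h6 := hB P.card P (fun g hg => hPE hg) le_rfl hPt e0 (hJP he0)
    rw [hpe] at h5
    exact absurd h5 (not_lt.2 h6)
  rw [hJeq]
  exact ⟨hPab, hPc, e, heP, hne, hPm⟩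

end

end Pool.Agent.P8H52.SM
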