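import Pool.Agent.P8H52.SM.Tt

/-!
# Bounded profiles, copies and ranks
-/

open Finset
open scoped Classical symmDiff

namespace Pool.Agent.P8H52.SM

open Pool.Agent.H165R2.SM

section
variable {V V' : Type}

/-- all tight subsets of `G` with at most `N` edges have profiles `≤ π` -/
def Bd (N : ℕ) (π : Lex (ℕ → ℕ)) (G : Set (Sym2 V)) : Prop :=
  ∀ J : Finset (Sym2 V), (∀ e ∈ J, e ∈ G) → J.card ≤ N → Tt J → ∀ e ∈ J, pf J e ≤ π

theorem Bd.unsep {N : ℕ} {π : Lex (ℕ → ℕ)} {G : Set (Sym2 V)} (hG : Bd N π G)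
    {J A B : Finset (Sym2 V)} {u v : V} (hJG : ∀ e ∈ J, e ∈ G) (hc : J.card ≤ N) (hJ : Tt J)
    (hmax : ∃ e ∈ J, pf J e = π) (huv : u ≠ v) (huvG : s(u, v) ∈ G)
    (hun : J.erase s(u, v) = A ∪ B) (hsp : Spl A B u v) : A = ∅ ∨ B = ∅ := by
  by_contra hcon
  push Not at hcon
  obtain ⟨hA, hB⟩ := hcon
  by_cases h : s(u, v) ∈ J
  · exact hJ.ns u v h ⟨A, B, hA, hB, hsp.dis, hun.symm, hsp.com⟩
  · rw [erase_eq_of_notMem h] at hun
    obtain ⟨e, he, hpe⟩ := hmax
    have main : ∀ A B : Finset (Sym2 V), J = A ∪ B → Spl A B u v → B.Nonempty → e ∈ A → False := by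
      intro A B hun hsp hB heA
      obtain ⟨A1, h1, h2, h3, h4, h5⟩ := hJ.cut huv h hun hsp hB heA
      have h6 := hG (insert s(u, v) A1) (by
        intro g hg
        rcases mem_insert.1 hg with rfl | hg
        · exact huvG
        · exact hJG g (by rw [hun]; exact mem_union_left _ (h1 hg))) (by omega) h3 e
          (mem_insert_of_mem h2)
      rw [hpe] at h5
      exact absurd h5 (not_lt.2 h6)
    have he' := he
    rw [hun] at he'
    rcases mem_union.1 he' with h7 | h7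
    · exact main A B hun hsp hB h7
    · exact main B A (by rw [hun, union_comm]) hsp.symm hA h7

/-- a maximal tight set lies on one side -/
theorem Bd.oneSide {N : ℕ} {π : Lex (ℕ → ℕ)} {G : Set (Sym2 V)} (hG : Bd N π G)
    {J A B : Finset (Sym2 V)} {u v : V} (hJG : ∀ e ∈ J, e ∈ G) (hc : J.card ≤ N) (hJ : Tt J)
    (hmax : ∃ e ∈ J, pf J e = π) (huv : u ≠ v) (huvG : s(u, v) ∈ G)
    (hun : ∀ e ∈ J, e ≠ s(u, v) → e ∈ A ∨ e ∈ B) (hsp : Spl A B u v) {e : Sym2 V} (he : e ∈ J)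
    (heB : e ∈ B) (hne : e ≠ s(u, v)) : ∀ g ∈ J, g = s(u, v) ∨ g ∈ B := by
  intro g hg
  by_cases hgu : g = s(u, v)
  · exact .inl hgu
  · right
    by_contra hgB
    have hgA := (hun g hg hgu).resolve_right hgB
    rcases hG.unsep (A := (J.erase s(u, v)) ∩ A) (B := (J.erase s(u, v)) ∩ B) hJG hc hJ hmax huv
      huvG (by
        rw [← inter_union_distrib_left]
        symm
        rw [inter_eq_left]
        intro x hx
        rw [mem_union]
        exact hun x (mem_of_mem_erase hx) (ne_of_mem_erase hx)) ⟨disjoint_of_subset_left inter_subset_right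
          (disjoint_of_subset_right inter_subset_right hsp.dis), by
          rintro w ⟨e1, h1, h2⟩ ⟨e2, h3, h4⟩
          exact hsp.com w ⟨e1, (mem_inter.1 h1).2, h2⟩ ⟨e2, (mem_inter.1 h3).2, h4⟩⟩ with h | h
    · have : g ∈ (J.erase s(u, v)) ∩ A := mem_inter.2 ⟨mem_erase.2 ⟨hgu, hg⟩, hgA⟩
      rw [h] at this
      exact notMem_empty _ this
    · have : e ∈ (J.erase s(u, v)) ∩ B := mem_inter.2 ⟨mem_erase.2 ⟨hne, he⟩, heB⟩
      rw [h] at this
      exact notMem_empty _ this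

theorem Bd.of {N : ℕ} {π : Lex (ℕ → ℕ)} {G : Set (Sym2 V)}
    (h : ∀ J : Finset (Sym2 V), (∀ e ∈ J, e ∈ G) → J.card ≤ N → Tt J → ∀ e ∈ J, pf J e ≤ π ∨
      ∃ u v A B, u ≠ v ∧ s(u, v) ∈ G ∧ J.erase s(u, v) = A ∪ B ∧ Spl A B u v ∧ A.Nonempty ∧
        B.Nonempty) : Bd N π G := by
  intro J
  induction hn : J.card using Nat.strong_induction_on generalizing J with
  | _ n ih =>
    intro hJG hc hJ e he
    rcases h J hJG (by omega) hJ e he with h1 | ⟨u, v, A, B, huv, huvG, hun, hsp, hA, hB⟩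
    · exact h1
    · by_cases huJ : s(u, v) ∈ J
      · exact (hJ.ns u v huJ ⟨A, B, hA, hB, hsp.dis, hun.symm, hsp.com⟩).elim
      · rw [erase_eq_of_notMem huJ] at hun
        have main : ∀ A B : Finset (Sym2 V), J = A ∪ B → Spl A B u v → B.Nonempty → e ∈ A →
            pf J e ≤ π := by
          intro A B hun hsp hB heA
          obtain ⟨A1, h1, h2, h3, h4, h5⟩ := hJ.cut huv huJ hun hsp hB heA
          refine h5.le.trans (ih _ (by omega) (insert s(u, v) A1) rfl ?_ (by omega) h3 e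
            (mem_insert_of_mem h2))
          intro g hg
          rcases mem_insert.1 hg with rfl | hg
          · exact huvG
          · exact hJG g (by rw [hun]; exact mem_union_left _ (h1 hg))
        have he' := he
        rw [hun] at he'
        rcases mem_union.1 he' with h7 | h7
        · exact main A B hun hsp hB h7
        · exact main B A (by rw [hun, union_comm]) hsp.symm hA h7

/-! ### images -/

theorem mem_im {f : V → V'} {J : Finset (Sym2 V)} {e : Sym2 V'} :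
    e ∈ im f J ↔ ∃ e' ∈ J, Sym2.map f e' = e := mem_image

theorem Rl_im {f : V → V'} (hf : Function.Injective f) {J : Finset (Sym2 V)} {e g : Sym2 V}
    (h : Rl J e g) : Rl (im f J) (Sym2.map f e) (Sym2.map f g) := by
  obtain ⟨C, h1, h2, h3, h4⟩ := h
  exact ⟨im f C, image_subset_image h1, (Circ_im hf).2 h2, mem_image_of_mem _ h3,
    mem_image_of_mem _ h4⟩

theorem Rl_of_im {f : V → V'} (hf : Function.Injective f) {J : Finset (Sym2 V)} {e g : Sym2 V}
    (h : Rl (im f J) (Sym2.map f e) (Sym2.map f g)) : Rl J e g := by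
  obtain ⟨C, h1, h2, h3, h4⟩ := h
  obtain ⟨C', hC', rfl⟩ := subset_image_iff.1 h1
  have h2' : Circ C' := (Circ_im hf).1 h2
  rw [mem_image] at h3 h4
  obtain ⟨e', he', h3⟩ := h3
  obtain ⟨g', hg', h4⟩ := h4
  rw [Sym2.map.injective hf h3] at he'
  rw [Sym2.map.injective hf h4] at hg'
  exact ⟨C', hC', h2', he', hg'⟩

theorem im_erase {f : V → V'} (hf : Function.Injective f) (J : Finset (Sym2 V)) (e : Sym2 V) :
    im f (J.erase e) = (im f J).erase (Sym2.map f e) := image_erase (Sym2.map.injective hf) _ _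

theorem isDiag_map' {f : V → V'} (hf : Function.Injective f) {e : Sym2 V} :
    (Sym2.map f e).IsDiag ↔ e.IsDiag := by
  induction e using Sym2.ind with
  | _ a b => rw [Sym2.map_mk, Sym2.mk_isDiag_iff, Sym2.mk_isDiag_iff, hf.eq_iff]

theorem CC_im {f : V → V'} (hf : Function.Injective f) {J : Finset (Sym2 V)} :
    CC (im f J) ↔ CC J := by
  constructor
  · intro h
    refine ⟨fun e he => ?_, fun e he g hg => ?_⟩
    · rw [← isDiag_map' hf]
      exact h.nd _ (mem_image_of_mem _ he)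
    · exact Rl_of_im hf (h.cc _ (mem_image_of_mem _ he) _ (mem_image_of_mem _ hg))
  · intro h
    refine ⟨fun e he => ?_, fun e he g hg => ?_⟩
    · obtain ⟨e', he', rfl⟩ := mem_im.1 he
      rw [isDiag_map' hf]
      exact h.nd _ he'
    · obtain ⟨e', he', rfl⟩ := mem_im.1 he
      obtain ⟨g', hg', rfl⟩ := mem_im.1 hg
      exact Rl_im hf (h.cc _ he' _ hg')

theorem Sep_im {f : V → V'} (hf : Function.Injective f) {J : Finset (Sym2 V)} {a b : V} :
    Sep (im f J) (f a) (f b) ↔ Sep J a b := by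
  constructor
  · rintro ⟨A, B, hA, hB, hd, hun, hcom⟩
    have hA' : A ⊆ im f J := fun e he => by
      have : e ∈ (im f J).erase s(f a, f b) := by rw [← hun]; exact mem_union_left _ he
      exact mem_of_mem_erase this
    have hB' : B ⊆ im f J := fun e he => by
      have : e ∈ (im f J).erase s(f a, f b) := by rw [← hun]; exact mem_union_right _ he
      exact mem_of_mem_erase this
    obtain ⟨A', hA1, rfl⟩ := subset_image_iff.1 hA'
    obtain ⟨B', hB1, rfl⟩ := subset_image_iff.1 hB'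
    refine ⟨A', B', image_nonempty.1 hA, image_nonempty.1 hB, ?_, ?_, ?_⟩
    · rw [disjoint_left] at hd ⊢
      intro x hx hx'
      exact hd (mem_image_of_mem _ hx) (mem_image_of_mem _ hx')
    · apply im_injective hf
      change (A' ∪ B').image _ = _
      rw [image_union, im_erase hf]
      exact hun
    · rintro v ⟨e1, h1, h2⟩ ⟨e2, h3, h4⟩
      have := hcom (f v) ⟨_, mem_image_of_mem _ h1, Sym2.mem_map.2 ⟨v, h2, rfl⟩⟩
        ⟨_, mem_image_of_mem _ h3, Sym2.mem_map.2 ⟨v, h4, rfl⟩⟩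
      rwa [hf.eq_iff, hf.eq_iff] at this
  · rintro ⟨A, B, hA, hB, hd, hun, hcom⟩
    refine ⟨im f A, im f B, hA.image _, hB.image _, ?_, ?_, ?_⟩
    · exact (disjoint_image (Sym2.map.injective hf)).2 hd
    · change A.image _ ∪ B.image _ = _
      rw [← image_union, hun]
      exact im_erase hf _ _
    · rintro v ⟨e1, h1, h2⟩ ⟨e2, h3, h4⟩
      obtain ⟨e1', h1', rfl⟩ := mem_im.1 h1
      obtain ⟨e2', h3', rfl⟩ := mem_im.1 h3
      obtain ⟨v1, hv1, rfl⟩ := Sym2.mem_map.1 h2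
      obtain ⟨v2, hv2, hv⟩ := Sym2.mem_map.1 h4
      rw [hf hv] at hv2
      rw [hf.eq_iff, hf.eq_iff]
      exact hcom v1 ⟨_, h1', hv1⟩ ⟨_, h3', hv2⟩

theorem Tt_im {f : V → V'} (hf : Function.Injective f) {J : Finset (Sym2 V)} :
    Tt (im f J) ↔ Tt J := by
  constructor
  · intro h
    refine ⟨(CC_im hf).1 h.toCC, fun a b hab hs => ?_⟩
    refine h.ns (f a) (f b) ?_ ((Sep_im hf).2 hs)
    exact mem_im.2 ⟨_, hab, rfl⟩
  · intro h
    refine ⟨(CC_im hf).2 h.toCC, fun a b hab hs => ?_⟩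
    obtain ⟨e', he', h1⟩ := mem_im.1 hab
    induction e' using Sym2.ind with
    | _ c d =>
      rw [Sym2.map_mk, Sym2.eq_iff] at h1
      rcases h1 with ⟨rfl, rfl⟩ | ⟨rfl, rfl⟩
      · exact h.ns c d he' ((Sep_im hf).1 hs)
      · refine h.ns d c (by rw [Sym2.eq_swap]; exact he') ((Sep_im hf).1 hs)

theorem im_comp {V'' : Type} (g : V' → V'') (f : V → V') (J : Finset (Sym2 V)) :
    im g (im f J) = im (g ∘ f) J := by
  rw [im, im, im, image_image]
  congr 1
  funext e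
  simp [Sym2.map_map]

/-! ### copies and ranks -/

variable {W0 : Type} (E0 : Finset (Sym2 W0))

/-- `J` is a copy of `E0` in `G` -/
def Cp (G : Set (Sym2 V)) (J : Finset (Sym2 V)) : Prop :=
  (∃ f : W0 → V, Function.Injective f ∧ im f E0 = J) ∧ ∀ e ∈ J, e ∈ G

/-- `e` is an edge of `J` and of another member of `𝒜` -/
def Sh (𝒜 : Set (Finset (Sym2 V))) (J : Finset (Sym2 V)) (e : Sym2 V) : Prop :=
  e ∈ J ∧ ∃ J' ∈ 𝒜, J' ≠ J ∧ e ∈ J'

/-- the copies surviving `i` rounds of removing the copies with at most one shared edge -/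
def Ak (G : Set (Sym2 V)) : ℕ → Set (Finset (Sym2 V))
  | 0 => {J | Cp E0 G J}
  | i + 1 => {J | J ∈ Ak G i ∧ ∃ e1 e2, e1 ≠ e2 ∧ Sh (Ak G i) J e1 ∧ Sh (Ak G i) J e2}

variable {E0}

theorem Ak_succ_sub {G : Set (Sym2 V)} {i : ℕ} : Ak E0 G (i + 1) ⊆ Ak E0 G i := fun _ h => h.1

theorem Ak_anti {G : Set (Sym2 V)} {i j : ℕ} (h : i ≤ j) : Ak E0 G j ⊆ Ak E0 G i := by
  induction j with
  | zero => rw [Nat.le_zero.1 h]
  | succ j ih =>
    rcases Nat.lt_or_ge i (j + 1) with h1 | h1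
    · exact Ak_succ_sub.trans (ih (by omega))
    · rw [show i = j + 1 by omega]

theorem Ak_cp {G : Set (Sym2 V)} {i : ℕ} {J : Finset (Sym2 V)} (h : J ∈ Ak E0 G i) : Cp E0 G J :=
  Ak_anti (Nat.zero_le i) h

theorem Cp_im {G : Set (Sym2 V)} {G' : Set (Sym2 V')} {g : V → V'} (hg : Function.Injective g)
    (hGG : ∀ e ∈ G, Sym2.map g e ∈ G') {J : Finset (Sym2 V)} (h : Cp E0 G J) :
    Cp E0 G' (im g J) := by
  obtain ⟨⟨f, hf, rfl⟩, h2⟩ := h
  refine ⟨⟨g ∘ f, hg.comp hf, (im_comp _ _ _).symm⟩, ?_⟩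
  intro e he
  obtain ⟨e', he', rfl⟩ := mem_im.1 he
  exact hGG _ (h2 _ he')

theorem Ak_im {G : Set (Sym2 V)} {G' : Set (Sym2 V')} {g : V → V'} (hg : Function.Injective g)
    (hGG : ∀ e ∈ G, Sym2.map g e ∈ G') {i : ℕ} {J : Finset (Sym2 V)} (h : J ∈ Ak E0 G i) :
    im g J ∈ Ak E0 G' i := by
  induction i generalizing J with
  | zero => exact Cp_im hg hGG h
  | succ i ih =>
    obtain ⟨h1, e1, e2, hne, ⟨h2, J2, h3, h4, h5⟩, ⟨h6, J6, h7, h8, h9⟩⟩ := h
    refine ⟨ih h1, Sym2.map g e1, Sym2.map g e2, fun h => hne (Sym2.map.injective hg h), ?_, ?_⟩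
    · exact ⟨mem_image_of_mem _ h2, im g J2, ih h3, fun h => h4 (im_injective hg h),
        mem_image_of_mem _ h5⟩
    · exact ⟨mem_image_of_mem _ h6, im g J6, ih h7, fun h => h8 (im_injective hg h),
        mem_image_of_mem _ h9⟩

theorem Cp.card {G : Set (Sym2 V)} {J : Finset (Sym2 V)} (h : Cp E0 G J) : J.card = E0.card := by
  obtain ⟨⟨f, hf, rfl⟩, -⟩ := h
  exact card_im hf _

theorem Cp.tt {G : Set (Sym2 V)} {J : Finset (Sym2 V)} (h : Cp E0 G J) (hE : Tt E0) : Tt J := by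
  obtain ⟨⟨f, hf, rfl⟩, -⟩ := h
  exact (Tt_im hf).2 hE

theorem Cp.max {G : Set (Sym2 V)} {J : Finset (Sym2 V)} (h : Cp E0 G J) {π : Lex (ℕ → ℕ)}
    (hE : ∃ e ∈ E0, pf E0 e = π) : ∃ e ∈ J, pf J e = π := by
  obtain ⟨⟨f, hf, rfl⟩, -⟩ := h
  obtain ⟨e, he, hp⟩ := hE
  exact ⟨_, mem_image_of_mem _ he, by rw [pf_im hf, hp]⟩

end

end Pool.Agent.P8H52.SM
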