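import Pool.Agent.H165R2.SM9

/-!
# Rigid vertex sets and the star host
-/

open SimpleGraph
open scoped Classical

namespace Pool.Agent.P8H52.SM

open Pool.Agent.Results.MP_fc2b6d_co.Forests Pool.Agent.H165R2.SM

/-- `M` is rigid: no part of `H` meeting `M` can be mapped to the outside of `M` -/
def Rg {W : Type} (H : SimpleGraph W) (M : Set W) : Prop :=
  ∀ (D : Set W) (g : W → W), (∀ x y, (x ∈ D ∨ ∃ d ∈ D, H.Adj d x) → (y ∈ D ∨ ∃ d ∈ D, H.Adj d y) →
      g x = g y → x = y) →
    (∀ d ∈ D, g d ∉ M) → (∀ w, w ∉ D → (∃ d ∈ D, H.Adj d w) → g w ∈ M) →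
    (∀ d ∈ D, ∀ w, H.Adj d w → H.Adj (g d) (g w)) → ∀ d ∈ D, d ∉ M

theorem Rg.mtype {W V : Type} {H : SimpleGraph W} {M : Set W} (hM : Rg H M) {G : SimpleGraph V}
    {φ : W → V} (hφ : Function.Injective φ) (hφa : ∀ a b, H.Adj a b → G.Adj (φ a) (φ b))
    {ψ : W → V} (hψ : Function.Injective ψ)
    (hpr : ∀ w ∉ M, ∀ v, G.Adj (ψ w) v → ∃ w', v = ψ w' ∧ H.Adj w w') :
    ∀ w ∈ M, ∀ w' ∉ M, φ w ≠ ψ w' := by
  intro w hw w' hw' e
  have hg : ∀ x, ∃ y, (∃ z, φ x = ψ z) → φ x = ψ y := by
    intro x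
    by_cases hx : ∃ z, φ x = ψ z
    · obtain ⟨z, hz⟩ := hx
      exact ⟨z, fun _ => hz⟩
    · exact ⟨x, fun h => absurd h hx⟩
  choose g hg using hg
  have hD : ∀ x, x ∈ {x | ∃ z, z ∉ M ∧ φ x = ψ z} → φ x = ψ (g x) ∧ g x ∉ M := by
    rintro x ⟨z, hz, h1⟩
    have h2 := hg x ⟨z, h1⟩
    refine ⟨h2, ?_⟩
    rw [h1] at h2
    rwa [← hψ h2]
  have hN : ∀ x, (∃ d ∈ {x | ∃ z, z ∉ M ∧ φ x = ψ z}, H.Adj d x) → φ x = ψ (g x) := by
    rintro x ⟨d, hd, hdx⟩
    obtain ⟨h1, h2⟩ := hD d hd
    have h3 := hφa d x hdx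
    rw [h1] at h3
    obtain ⟨z, hz, -⟩ := hpr _ h2 _ h3
    exact hg x ⟨z, hz⟩
  refine hM {x | ∃ z, z ∉ M ∧ φ x = ψ z} g ?_ (fun d hd => (hD d hd).2) ?_ ?_ w ⟨w', hw', e⟩ hw
  · intro x y hx hy h1
    have e1 : φ x = ψ (g x) := hx.elim (fun h => (hD x h).1) (hN x)
    have e2 : φ y = ψ (g y) := hy.elim (fun h => (hD y h).1) (hN y)
    exact hφ (by rw [e1, e2, h1])
  · intro x hx hx'
    by_contra hcon
    exact hx ⟨g x, hcon, hN x hx'⟩
  · intro d hd x hdx
    obtain ⟨h1, h2⟩ := hD d hd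
    have h3 := hφa d x hdx
    rw [h1] at h3
    obtain ⟨z, hz, h4⟩ := hpr _ h2 _ h3
    have h5 := hN x ⟨d, hd, hdx⟩
    rw [hz] at h5
    rwa [← hψ h5]

/-- if the failure holds for `H[M]`, `M` rigid, then it holds for `H` -/
theorem Rg.step {W : Type} {H : SimpleGraph W} {M : Set W} (hM : Rg H M)
    (hedge : ∃ a b : M, H.Adj a b) (hfail : Fail (H.induce M)) : Fail H := by
  refine robust M hedge hfail ?_
  rintro V0 K I0 ⟨f⟩
  have hin : ∀ w ∈ M, ∃ v, f w = .inl v := by
    intro w hw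
    rcases hfw : f w with v | ⟨θ, κ, z⟩
    · exact ⟨v, rfl⟩
    · exfalso
      have hψ : ∀ x, ∃ v : V0 ⊕ ((M ↪ V0) × K × ↥(Mᶜ)), (∀ hx : x ∈ M, v = .inl (θ ⟨x, hx⟩)) ∧
          ∀ hx : x ∉ M, v = .inr (θ, κ, ⟨x, hx⟩) := by
        intro x
        by_cases hx : x ∈ M
        · exact ⟨.inl (θ ⟨x, hx⟩), fun _ => rfl, fun h => absurd hx h⟩
        · exact ⟨.inr (θ, κ, ⟨x, hx⟩), fun h => absurd h hx, fun _ => rfl⟩
      choose ψ hψ1 hψ2 using hψ
      refine hM.mtype (φ := f) (ψ := ψ) f.injective (fun a b hab => f.toHom.map_adj hab)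
        ?_ ?_ w hw z.1 z.2 (by rw [hψ2 z.1 z.2]; exact hfw)
      · intro x y e
        by_cases hx : x ∈ M <;> by_cases hy : y ∈ M
        · rw [hψ1 x hx, hψ1 y hy] at e
          exact congrArg Subtype.val (θ.injective (Sum.inl_injective e))
        · rw [hψ1 x hx, hψ2 y hy] at e; cases e
        · rw [hψ2 x hx, hψ1 y hy] at e; cases e
        · rw [hψ2 x hx, hψ2 y hy] at e
          exact congrArg Subtype.val (Prod.mk.inj (Prod.mk.inj (Sum.inr_injective e)).2).2
      · intro x hx v hv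
        rw [hψ2 x hx] at hv
        rcases v with v | ⟨θ', κ', y⟩
        · obtain ⟨u, rfl, hadj⟩ := hv
          exact ⟨u.1, (hψ1 u.1 u.2).symm, hadj.symm⟩
        · obtain ⟨rfl, rfl, hadj⟩ := hv
          exact ⟨y.1, (hψ2 y.1 y.2).symm, hadj⟩
  choose g hg using fun u : M => hin u.1 u.2
  refine contained_of g ?_ ?_
  · intro a b hab
    apply Subtype.ext
    apply f.injective
    change f a.1 = f b.1
    rw [hg a, hg b, hab]
  · intro a b hab
    have h1 := f.toHom.map_adj (show H.Adj a.1 b.1 from hab)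
    change (rob H M V0 K I0).Adj (f a.1) (f b.1) at h1
    rw [hg a, hg b] at h1
    exact h1

/-! ### the star host -/

/-- slots: the class `n` has `n` members -/
abbrev Slot := Σ n : ℕ, Fin n

section
variable {W : Type} (H : SimpleGraph W) (z : W) (L : Set W)

/-- the leaves are mapped to slots of distinct classes -/
structure Att where
  f : L → Slot
  cls : ∀ u v, u ≠ v → (f u).1 ≠ (f v).1

/-- the rest -/
def Rst : Set W := {w | w ≠ z ∧ w ∉ L}

/-- `B` is the set of the present slots -/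
def sh (K : Type) (B : Set Slot) :
    SimpleGraph (Option Slot ⊕ (Att L × K × Rst z L)) where
  Adj a b := match a, b with
    | .inl none, .inl (some x) => x ∈ B
    | .inl (some x), .inl none => x ∈ B
    | .inl none, .inr (_, _, w) => H.Adj z w
    | .inr (_, _, w), .inl none => H.Adj z w
    | .inl (some x), .inr (θ, _, w) => ∃ u : L, θ.f u = x ∧ H.Adj u w
    | .inr (θ, _, w), .inl (some x) => ∃ u : L, θ.f u = x ∧ H.Adj u w
    | .inr (θ, κ, w), .inr (θ', κ', w') => θ = θ' ∧ κ = κ' ∧ H.Adj w w'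
    | .inl none, .inl none => False
    | .inl (some _), .inl (some _) => False
  symm := ⟨by
    rintro ((_ | x) | ⟨θ, κ, w⟩) ((_ | y) | ⟨θ', κ', w'⟩) h
    · exact h
    · exact h
    · exact h
    · exact h
    · exact h
    · exact h
    · exact h
    · exact h
    · exact ⟨h.1.symm, h.2.1.symm, h.2.2.symm⟩⟩
  loopless := ⟨by
    rintro ((_ | x) | ⟨θ, κ, w⟩) h
    · exact h
    · exact h
    · exact H.loopless.irrefl _ h.2.2⟩

theorem sh_mono {K : Type} {B B' : Set Slot} (h : B ⊆ B') : sh H z L K B ≤ sh H z L K B' := by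
  rintro ((_ | x) | ⟨θ, κ, w⟩) ((_ | y) | ⟨θ', κ', w'⟩) hab
  · exact hab
  · exact h hab
  · exact hab
  · exact h hab
  · exact hab
  · exact hab
  · exact hab
  · exact hab
  · exact hab

end

/-- the star host theorem -/
theorem star_fail {W : Type} [Finite W] {H : SimpleGraph W} {z : W} {L : Set W} (hz : z ∉ L)
    (hLL : ∀ l ∈ L, ∀ l' ∈ L, ¬ H.Adj l l')
    (hfree : ∀ (K : Type) (n : ℕ), H.Free (sh H z L K {x | x.1 = n})) : Fail H := by
  let K := Set (Sym2 (Option Slot))
  refine ⟨_, sh H z L K Set.univ, fun F hF hFf => ?_⟩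
  obtain ⟨S, hS⟩ : ∃ S : Set Slot, ∀ x, x ∈ S ↔ F.Adj (.inl none) (.inl (some x)) :=
    ⟨{x | F.Adj (.inl none) (.inl (some x))}, fun _ => Iff.rfl⟩
  -- the edges of `F` outside lie in the core
  have hout : ∀ B : Set Slot, ∀ e ∈ F.edgeSet \ (sh H z L K B).edgeSet,
      ∃ x ∈ S, e = s(.inl none, .inl (some x)) := by
    intro B e he
    induction e using Sym2.ind with
    | _ a b =>
      obtain ⟨h1, h2⟩ := he
      rw [mem_edgeSet] at h1 h2
      have h3 := hF h1
      rcases a with (_ | x) | ⟨θ, κ, w⟩ <;> rcases b with (_ | y) | ⟨θ', κ', w'⟩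
      · exact h3.elim
      · exact ⟨y, (hS y).2 h1, rfl⟩
      · exact absurd h3 h2
      · exact ⟨x, (hS x).2 h1.symm, Sym2.eq_swap⟩
      · exact h3.elim
      · exact absurd h3 h2
      · exact absurd h3 h2
      · exact absurd h3 h2
      · exact absurd h3 h2
  by_cases hθ : ∃ θ : Att L, ∀ u, θ.f u ∈ S
  · obtain ⟨θ, hθ⟩ := hθ
    -- a missing edge for every `κ`
    have hmiss : ∀ κ : K, ∃ e : Sym2 (Option Slot ⊕ (Att L × K × Rst z L)),
        e ∈ (sh H z L K {x | x.1 = 0}).edgeSet ∧ e ∉ F.edgeSet ∧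
          ∃ w, (Sum.inr (θ, κ, w)) ∈ e := by
      intro κ
      by_contra hcon
      push Not at hcon
      apply hFf
      have hf : ∀ w, ∃ v : Option Slot ⊕ (Att L × K × Rst z L), (w = z → v = .inl none) ∧
          (∀ hw : w ∈ L, v = .inl (some (θ.f ⟨w, hw⟩))) ∧
          ∀ hw : w ∈ Rst z L, v = .inr (θ, κ, ⟨w, hw⟩) := by
        intro w
        by_cases h1 : w = z
        · exact ⟨.inl none, fun _ => rfl, fun h => absurd (h1 ▸ h) hz, fun h => absurd h1 h.1⟩
        · by_cases h2 : w ∈ L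
          · exact ⟨.inl (some (θ.f ⟨w, h2⟩)), fun h => absurd h h1, fun _ => rfl,
              fun h => absurd h2 h.2⟩
          · exact ⟨.inr (θ, κ, ⟨w, h1, h2⟩), fun h => absurd h h1, fun h => absurd h h2,
              fun _ => rfl⟩
      choose f f1 f2 f3 using hf
      have hcase : ∀ w, w = z ∨ w ∈ L ∨ w ∈ Rst z L := by
        intro w
        by_cases h1 : w = z
        · exact .inl h1
        · by_cases h2 : w ∈ L
          · exact .inr (.inl h2)
          · exact .inr (.inr ⟨h1, h2⟩)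
      refine contained_of f ?_ ?_
      · intro a b hab
        rcases hcase a with ha | ha | ha <;> rcases hcase b with hb | hb | hb
        · rw [ha, hb]
        · rw [f1 a ha, f2 b hb] at hab; cases hab
        · rw [f1 a ha, f3 b hb] at hab; cases hab
        · rw [f2 a ha, f1 b hb] at hab; cases hab
        · rw [f2 a ha, f2 b hb] at hab
          by_contra hne
          have := θ.cls ⟨a, ha⟩ ⟨b, hb⟩ (fun h => hne (congrArg Subtype.val h))
          rw [Option.some.inj (Sum.inl_injective hab)] at this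
          exact this rfl
        · rw [f2 a ha, f3 b hb] at hab; cases hab
        · rw [f3 a ha, f1 b hb] at hab; cases hab
        · rw [f3 a ha, f2 b hb] at hab; cases hab
        · rw [f3 a ha, f3 b hb] at hab
          exact congrArg Subtype.val (Prod.mk.inj (Prod.mk.inj (Sum.inr_injective hab)).2).2
      · -- edges
        have key : ∀ a b, H.Adj a b → b ∈ Rst z L → F.Adj (f a) (f b) := by
          intro a b hab hb
          rw [f3 b hb]
          by_contra hn
          rcases hcase a with ha | ha | ha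
          · rw [f1 a ha] at hn
            exact hcon s(.inl none, .inr (θ, κ, ⟨b, hb⟩)) (by
              rw [mem_edgeSet]; change H.Adj z b; rwa [← ha]) hn ⟨b, hb⟩ (Sym2.mem_mk_right _ _)
          · rw [f2 a ha] at hn
            exact hcon s(.inl (some (θ.f ⟨a, ha⟩)), .inr (θ, κ, ⟨b, hb⟩))
              ⟨⟨a, ha⟩, rfl, hab⟩ hn ⟨b, hb⟩ (Sym2.mem_mk_right _ _)
          · rw [f3 a ha] at hn
            exact hcon s(.inr (θ, κ, ⟨a, ha⟩), .inr (θ, κ, ⟨b, hb⟩)) ⟨rfl, rfl, hab⟩ hn ⟨b, hb⟩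
              (Sym2.mem_mk_right _ _)
        intro a b hab
        rcases hcase a with ha | ha | ha
        · rcases hcase b with hb | hb | hb
          · rw [ha, hb] at hab; exact (H.loopless.irrefl _ hab).elim
          · rw [f1 a ha, f2 b hb, ← hS]; exact hθ _
          · exact key a b hab hb
        · rcases hcase b with hb | hb | hb
          · rw [f1 b hb, f2 a ha]; apply SimpleGraph.Adj.symm; rw [← hS]; exact hθ _
          · exact (hLL a ha b hb hab).elim
          · exact key a b hab hb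
        · exact (key b a hab.symm ha).symm
    choose m hm1 hm2 hm3 using hmiss
    refine ⟨sh H z L K {x | x.1 = 0}, sh_mono H z L (Set.subset_univ _), hfree _ _, ?_⟩
    have h1 : Cardinal.mk ↥(F.edgeSet \ (sh H z L K {x | x.1 = 0}).edgeSet) ≤
        Cardinal.mk (Sym2 (Option Slot)) := by
      choose g hg hg' using hout {x | x.1 = 0}
      refine Cardinal.mk_le_of_injective
        (f := fun e : ↥(F.edgeSet \ (sh H z L K {x | x.1 = 0}).edgeSet) =>
          s(none, some (g e.1 e.2))) ?_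
      intro e e' h
      apply Subtype.ext
      dsimp only at h
      rw [hg' e.1 e.2, hg' e'.1 e'.2]
      rw [Sym2.eq_iff] at h
      rcases h with ⟨-, h⟩ | ⟨h, -⟩
      · rw [Option.some.inj h]
      · cases h
    have h2 : Cardinal.mk K ≤
        Cardinal.mk ↥((sh H z L K {x | x.1 = 0}).edgeSet \ F.edgeSet) := by
      refine Cardinal.mk_le_of_injective
        (f := fun κ : K =>
          (⟨m κ, hm1 κ, hm2 κ⟩ : ↥((sh H z L K {x | x.1 = 0}).edgeSet \ F.edgeSet))) ?_
      intro κ κ' h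
      have h3 : m κ = m κ' := congrArg Subtype.val h
      obtain ⟨w, hw⟩ := hm3 κ
      obtain ⟨w', hw'⟩ := hm3 κ'
      have h4 := hm1 κ
      rw [h3] at hw h4
      generalize m κ' = e at hw hw' h4
      induction e using Sym2.ind with
      | _ a b =>
        rw [Sym2.mem_iff] at hw hw'
        rw [mem_edgeSet] at h4
        rcases hw with rfl | rfl
        · rcases hw' with hw' | rfl
          · exact (Prod.mk.inj (Prod.mk.inj (Sum.inr_injective hw')).2).1.symm
          · exact h4.2.1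
        · rcases hw' with rfl | hw'
          · exact h4.2.1.symm
          · exact (Prod.mk.inj (Prod.mk.inj (Sum.inr_injective hw')).2).1.symm
    refine lt_of_le_of_lt h1 (lt_of_lt_of_le ?_ h2)
    rw [Cardinal.mk_set]
    exact Cardinal.cantor _
  · -- finitely many slots
    have hfinc : {n | ∃ x ∈ S, x.1 = n}.Finite := by
      by_contra hinf
      have hinf' : {n | ∃ x ∈ S, x.1 = n}.Infinite := hinf
      apply hθ
      have : Infinite {n | ∃ x ∈ S, x.1 = n} := hinf'.to_subtype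
      obtain ⟨e⟩ : Nonempty (L ↪ {n | ∃ x ∈ S, x.1 = n}) := by
        obtain ⟨m, ⟨e⟩⟩ := Finite.exists_equiv_fin L
        exact ⟨e.toEmbedding.trans (Fin.valEmbedding.trans (Infinite.natEmbedding _))⟩
      choose x hx1 hx2 using fun u : L => (e u).2
      exact ⟨⟨x, fun u v huv h => huv (e.injective (Subtype.ext (by
        rw [← hx2 u, ← hx2 v, h])))⟩, hx1⟩
    have hSf : S.Finite := by
      refine (hfinc.biUnion (t := fun n => Set.range (fun i : Fin n => (⟨n, i⟩ : Slot)))
        (fun n _ => Set.finite_range _)).subset ?_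
      intro x hx
      rw [Set.mem_iUnion₂]
      exact ⟨x.1, ⟨x, hx, rfl⟩, x.2, rfl⟩
    obtain ⟨n, hn⟩ := ((hfinc.union (Set.finite_Iic S.ncard)).exists_notMem)
    rw [Set.mem_union, not_or] at hn
    obtain ⟨hn1, hn2⟩ := hn
    rw [Set.mem_Iic, not_le] at hn2
    refine ⟨sh H z L K {x | x.1 = n}, sh_mono H z L (Set.subset_univ _), hfree _ _, ?_⟩
    have h1 : Cardinal.mk ↥(F.edgeSet \ (sh H z L K {x | x.1 = n}).edgeSet) ≤
        (S.ncard : Cardinal) := by
      choose g hg hg' using hout {x | x.1 = n}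
      have h2 : Cardinal.mk ↥(F.edgeSet \ (sh H z L K {x | x.1 = n}).edgeSet) ≤
          Cardinal.mk S := by
        refine Cardinal.mk_le_of_injective
          (f := fun e : ↥(F.edgeSet \ (sh H z L K {x | x.1 = n}).edgeSet) =>
            (⟨g e.1 e.2, hg e.1 e.2⟩ : S)) ?_
        intro e e' h
        apply Subtype.ext
        rw [hg' e.1 e.2, hg' e'.1 e'.2, show g e.1 e.2 = g e'.1 e'.2 from congrArg Subtype.val h]
      refine h2.trans (le_of_eq ?_)
      rw [← Set.cast_ncard hSf]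
    have h2 : (n : Cardinal) ≤
        Cardinal.mk ↥((sh H z L K {x | x.1 = n}).edgeSet \ F.edgeSet) := by
      rw [← Cardinal.mk_fin n]
      refine Cardinal.mk_le_of_injective (f := fun i : Fin n =>
        (⟨s(.inl none, .inl (some ⟨n, i⟩)), ?_, ?_⟩ :
          ↥((sh H z L K {x | x.1 = n}).edgeSet \ F.edgeSet))) ?_
      · rw [mem_edgeSet]; exact rfl
      · rw [mem_edgeSet, ← hS]
        intro h
        exact hn1 ⟨_, h, rfl⟩
      · intro i j h
        have h3 := congrArg Subtype.val h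
        simp only at h3
        rw [Sym2.eq_iff] at h3
        rcases h3 with ⟨-, h3⟩ | ⟨h3, -⟩
        · have h4 := Option.some.inj (Sum.inl_injective h3)
          simpa using h4
        · cases h3
    refine lt_of_le_of_lt h1 (lt_of_lt_of_le ?_ h2)
    exact_mod_cast hn2

end Pool.Agent.P8H52.SM
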