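import Pool.Agent.P8H52.SM.Star

/-!
# Rigid sets inducing a star
-/

open SimpleGraph
open scoped Classical

namespace Pool.Agent.P8H52.SM

open Pool.Agent.Results.MP_fc2b6d_co.Forests Pool.Agent.H165R2.SM

theorem Rg.star {W : Type} [Finite W] {H : SimpleGraph W} {M : Set W} (hM : Rg H M) {z : W}
    (hzM : z ∈ M) (hst : ∀ u ∈ M, ∀ v ∈ M, H.Adj u v → u = z ∨ v = z) {l1 l2 : W} (hl : l1 ≠ l2)
    (hl1 : l1 ∈ M) (hl2 : l2 ∈ M) (hz1 : H.Adj z l1) (hz2 : H.Adj z l2)
    (hcut : (H.induce {z}ᶜ).Preconnected) : Fail H := by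
  obtain ⟨L, hL⟩ : ∃ L : Set W, ∀ l, l ∈ L ↔ l ∈ M ∧ H.Adj z l :=
    ⟨{l | l ∈ M ∧ H.Adj z l}, fun _ => Iff.rfl⟩
  have hzL : z ∉ L := fun h => H.loopless.irrefl _ ((hL z).1 h).2
  refine star_fail (z := z) (L := L) hzL ?_ ?_
  · intro l hl l' hl' hadj
    have h1 := (hL l).1 hl
    have h2 := (hL l').1 hl'
    rcases hst l h1.1 l' h2.1 hadj with h | h
    · exact hzL (h ▸ hl)
    · exact hzL (h ▸ hl')
  · rintro K n ⟨f⟩
    have hfi : Function.Injective f := f.injective
    have hfa : ∀ a b, H.Adj a b → (sh H z L K {x | x.1 = n}).Adj (f a) (f b) :=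
      fun a b hab => f.toHom.map_adj hab
    -- vertices of `M`
    have hin : ∀ w ∈ M, ∀ (θ : Att L) (κ : K) (w' : Rst z L), f w = .inr (θ, κ, w') →
        w'.1 ∈ M := by
      intro w hw θ κ w' hfw
      by_contra hcon
      have hψ : ∀ w, ∃ v : Option Slot ⊕ (Att L × K × Rst z L), (w = z → v = .inl none) ∧
          (∀ hw : w ∈ L, v = .inl (some (θ.f ⟨w, hw⟩))) ∧
          ∀ hw : w ∈ Rst z L, v = .inr (θ, κ, ⟨w, hw⟩) := by
        intro w
        by_cases h1 : w = z
        · exact ⟨.inl none, fun _ => rfl, fun h => absurd (h1 ▸ h) hzL, fun h => absurd h1 h.1⟩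
        · by_cases h2 : w ∈ L
          · exact ⟨.inl (some (θ.f ⟨w, h2⟩)), fun h => absurd h h1, fun _ => rfl,
              fun h => absurd h2 h.2⟩
          · exact ⟨.inr (θ, κ, ⟨w, h1, h2⟩), fun h => absurd h h1, fun h => absurd h h2,
              fun _ => rfl⟩
      choose ψ f1 f2 f3 using hψ
      have hcase : ∀ w, w = z ∨ w ∈ L ∨ w ∈ Rst z L := by
        intro w
        by_cases h1 : w = z
        · exact .inl h1
        · by_cases h2 : w ∈ L
          · exact .inr (.inl h2)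
          · exact .inr (.inr ⟨h1, h2⟩)
      refine hM.mtype (φ := f) (ψ := ψ) hfi hfa ?_ ?_ w hw w'.1 hcon
        (by rw [f3 w'.1 w'.2]; exact hfw)
      · intro a b hab
        rcases hcase a with ha | ha | ha <;> rcases hcase b with hb | hb | hb
        · rw [ha, hb]
        · rw [f1 a ha, f2 b hb] at hab; cases hab
        · rw [f1 a ha, f3 b hb] at hab; cases hab
        · rw [f2 a ha, f1 b hb] at hab; cases hab
        · rw [f2 a ha, f2 b hb] at hab
          by_contra hne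
          have := θ.cls ⟨a, ha⟩ ⟨b, hb⟩ (fun h => hne (congrArg Subtype.val h))
          rw [Option.some.inj (Sum.inl_injective hab)] at this
          exact this rfl
        · rw [f2 a ha, f3 b hb] at hab; cases hab
        · rw [f3 a ha, f1 b hb] at hab; cases hab
        · rw [f3 a ha, f2 b hb] at hab; cases hab
        · rw [f3 a ha, f3 b hb] at hab
          exact congrArg Subtype.val (Prod.mk.inj (Prod.mk.inj (Sum.inr_injective hab)).2).2
      · intro x hx v hv
        have hxR : x ∈ Rst z L := ⟨fun h => hx (h ▸ hzM), fun h => hx ((hL x).1 h).1⟩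
        rw [f3 x hxR] at hv
        rcases v with (_ | y) | ⟨θ', κ', y⟩
        · exact ⟨z, (f1 z rfl).symm, SimpleGraph.Adj.symm hv⟩
        · obtain ⟨u, rfl, hadj⟩ := hv
          exact ⟨u.1, (f2 u.1 u.2).symm, hadj.symm⟩
        · obtain ⟨rfl, rfl, hadj⟩ := hv
          exact ⟨y.1, (f3 y.1 y.2).symm, hadj⟩
    -- the edges at `z`
    have hze : ∀ l ∈ L, (f z = .inl none ∧ ∃ x : Slot, f l = .inl (some x) ∧ x.1 = n) ∨
        (f l = .inl none ∧ ∃ x : Slot, f z = .inl (some x) ∧ x.1 = n) := by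
      intro l hl
      have h1 := (hL l).1 hl
      have h2 := hfa z l h1.2
      have hno : ∀ w ∈ M, ∀ (θ : Att L) (κ : K) (w' : Rst z L), f w = .inr (θ, κ, w') →
          ∀ u ∈ M, ¬ H.Adj w'.1 u := by
        intro w hw θ κ w' hfw u hu hadj
        have h3 := hin w hw θ κ w' hfw
        rcases hst w'.1 h3 u hu hadj with h | h
        · exact w'.2.1 h
        · rw [h] at hadj
          exact w'.2.2 ((hL _).2 ⟨h3, hadj.symm⟩)
      rcases hfz : f z with (_ | x) | ⟨θ, κ, w⟩
      · rcases hfl : f l with (_ | y) | ⟨θ', κ', w'⟩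
        · exact absurd (hfi (hfz.trans hfl.symm)) (fun h => hzL (h ▸ hl))
        · rw [hfz, hfl] at h2
          exact .inl ⟨rfl, y, rfl, h2⟩
        · rw [hfz, hfl] at h2
          exact (hno l h1.1 θ' κ' w' hfl z hzM (SimpleGraph.Adj.symm h2)).elim
      · rcases hfl : f l with (_ | y) | ⟨θ', κ', w'⟩
        · rw [hfz, hfl] at h2
          exact .inr ⟨rfl, x, rfl, h2⟩
        · rw [hfz, hfl] at h2
          exact h2.elim
        · rw [hfz, hfl] at h2
          obtain ⟨u, -, hadj⟩ := h2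
          exact (hno l h1.1 θ' κ' w' hfl u.1 ((hL _).1 u.2).1 hadj.symm).elim
      · rcases hfl : f l with (_ | y) | ⟨θ', κ', w'⟩
        · rw [hfz, hfl] at h2
          exact (hno z hzM θ κ w hfz z hzM (SimpleGraph.Adj.symm h2)).elim
        · rw [hfz, hfl] at h2
          obtain ⟨u, -, hadj⟩ := h2
          exact (hno z hzM θ κ w hfz u.1 ((hL _).1 u.2).1 hadj.symm).elim
        · rw [hfz, hfl] at h2
          obtain ⟨-, -, hadj⟩ := h2
          exact (hno z hzM θ κ w hfz w'.1 (hin l h1.1 θ' κ' w' hfl) hadj).elim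
    have hl1L : l1 ∈ L := (hL _).2 ⟨hl1, hz1⟩
    have hl2L : l2 ∈ L := (hL _).2 ⟨hl2, hz2⟩
    have hfz : f z = .inl none := by
      rcases hze l1 hl1L with h | ⟨h3, h4⟩
      · exact h.1
      · rcases hze l2 hl2L with h | ⟨h5, h6⟩
        · exact h.1
        · exact absurd (hfi (h3.trans h5.symm)) hl
    have hfl : ∀ l ∈ L, ∃ x : Slot, f l = .inl (some x) ∧ x.1 = n := by
      intro l hl
      rcases hze l hl with h | ⟨h3, h4⟩
      · exact h.2
      · exact absurd (hfi (h3.trans hfz.symm)) (fun h => hzL (h ▸ hl))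
    -- walks avoiding `z`
    obtain ⟨Hz, hHz⟩ : ∃ Hz : SimpleGraph W, ∀ a b, Hz.Adj a b ↔ H.Adj a b ∧ a ≠ z ∧ b ≠ z :=
      ⟨{ Adj := fun a b => H.Adj a b ∧ a ≠ z ∧ b ≠ z
         symm := ⟨fun a b h => ⟨h.1.symm, h.2.2, h.2.1⟩⟩
         loopless := ⟨fun a h => H.loopless.irrefl a h.1⟩ }, fun _ _ => Iff.rfl⟩
    have hreach : ∀ a b : ({z}ᶜ : Set W), Nonempty (Hz.Walk a.1 b.1) := by
      intro a b
      obtain ⟨p⟩ := hcut a b
      exact ⟨p.map (⟨Subtype.val, fun {u v} huv => (hHz _ _).2 ⟨huv, u.2, v.2⟩⟩ :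
        H.induce {z}ᶜ →g Hz)⟩
    have hex : ∃ d, ∃ a ∈ L, ∃ b ∈ L, a ≠ b ∧ ∃ p : Hz.Walk a b, p.length = d := by
      obtain ⟨p⟩ := hreach ⟨l1, fun h => hzL (h ▸ hl1L)⟩ ⟨l2, fun h => hzL (h ▸ hl2L)⟩
      exact ⟨_, l1, hl1L, l2, hl2L, hl, p, rfl⟩
    obtain ⟨d, ⟨a, ha, b, hb, hab, p, hpd⟩, hmin⟩ : ∃ d, (∃ a ∈ L, ∃ b ∈ L, a ≠ b ∧
        ∃ p : Hz.Walk a b, p.length = d) ∧ ∀ a ∈ L, ∀ b ∈ L, a ≠ b → ∀ p : Hz.Walk a b,
          d ≤ p.length :=
      ⟨Nat.find hex, Nat.find_spec hex, fun a ha b hb hab p =>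
        Nat.find_min' hex ⟨a, ha, b, hb, hab, p, rfl⟩⟩
    obtain ⟨x, hx, hxn⟩ := hfl b hb
    obtain ⟨y, hy, hyn⟩ := hfl a ha
    have hxy : y ≠ x := by
      rintro rfl
      exact hab (hfi (hy.trans hx.symm))
    -- the potential
    have key : ∀ w b' (p : Hz.Walk w b'), b' = b → w ≠ z →
        (∀ y, f w = .inl (some y) → y ≠ x → (d ≤ p.length ∧ y.1 ≠ x.1) ∨ d < p.length) ∧
        (∀ (θ : Att L) (κ : K) (w' : Rst z L), f w = .inr (θ, κ, w') →
          d < p.length ∨ ∃ u : L, θ.f u = x ∧ ∃ q : Hz.Walk w'.1 u.1, q.length ≤ p.length) := by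
      intro w b' p
      induction p with
      | nil =>
        rintro rfl _
        refine ⟨fun y hy hne => ?_, fun θ κ w' hw' => ?_⟩
        · rw [hx] at hy
          exact absurd (Option.some.inj (Sum.inl_injective hy)).symm hne
        · rw [hx] at hw'; cases hw'
      | @cons w v _ hwv p ih =>
        intro hbb hwz
        obtain ⟨hwv', -, hvz⟩ := (hHz _ _).1 hwv
        obtain ⟨ih1, ih2⟩ := ih hbb hvz
        have hadj := hfa w v hwv'
        rw [Walk.length_cons]
        refine ⟨fun y hy hne => ?_, fun θ κ w' hw' => ?_⟩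
        · rw [hy] at hadj
          rcases hfv : f v with (_ | y') | ⟨θ, κ, w'⟩
          · exact absurd (hfi (hfv.trans hfz.symm)) hvz
          · rw [hfv] at hadj; exact hadj.elim
          · rw [hfv] at hadj
            obtain ⟨u, hu, huw⟩ := hadj
            rcases ih2 θ κ w' hfv with h | ⟨u', hu', q, hq⟩
            · exact .inr (by omega)
            · have hne' : u ≠ u' := by
                rintro rfl
                exact hne (hu.symm.trans hu')
              have h5 : Hz.Adj u.1 w'.1 := (hHz _ _).2 ⟨huw, fun h => hzL (h ▸ u.2), w'.2.1⟩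
              have h6 := hmin u.1 u.2 u'.1 u'.2 (fun h => hne' (Subtype.ext h)) (Walk.cons h5 q)
              rw [Walk.length_cons] at h6
              refine .inl ⟨by omega, ?_⟩
              rw [← hu, ← hu']
              exact θ.cls u u' hne'
        · rw [hw'] at hadj
          rcases hfv : f v with (_ | y') | ⟨θ', κ', w''⟩
          · exact absurd (hfi (hfv.trans hfz.symm)) hvz
          · rw [hfv] at hadj
            obtain ⟨u, hu, huw⟩ := hadj
            have h5 : Hz.Adj w'.1 u.1 := (hHz _ _).2 ⟨huw.symm, w'.2.1, fun h => hzL (h ▸ u.2)⟩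
            by_cases hyx : y' = x
            · right
              exact ⟨u, hu.trans hyx, Walk.cons h5 Walk.nil, by simp⟩
            · left
              rcases ih1 y' hfv hyx with h | h <;> omega
          · rw [hfv] at hadj
            obtain ⟨rfl, rfl, hadj⟩ := hadj
            have h5 : Hz.Adj w'.1 w''.1 := (hHz _ _).2 ⟨hadj, w'.2.1, w''.2.1⟩
            rcases ih2 θ κ w'' hfv with h | ⟨u, hu, q, hq⟩
            · left; omega
            · right
              exact ⟨u, hu, Walk.cons h5 q, by rw [Walk.length_cons]; omega⟩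
    rcases (key a b p rfl (fun h => hzL (h ▸ ha))).1 y hy hxy with h | h
    · exact h.2 (hyn.trans hxn.symm)
    · omega

end Pool.Agent.P8H52.SM
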