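import Pool.Agent.P8H52.SM.Ex
import Pool.Agent.P8H52.SM.Gz
import Pool.Agent.P8H52.SM.Pages

/-!
# The host for graphs with one separating edge
-/

open Finset SimpleGraph
open scoped Classical symmDiff

namespace Pool.Agent.P8H52.SM

open Pool.Agent.H165R2.SM Pool.Agent.H165R2.SM.HV Pool.Agent.H165R2.SM.Dat
  Pool.Agent.Results.MP_fc2b6d_co.Forests

/-- host vertices -/
inductive TV (Y W0 Kp W : Type) : Type
  | inl (x : HV Y W0)
  | inr (x : Y × Bool × Kp × W)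

theorem TV.inl_injective {Y W0 Kp W : Type} :
    Function.Injective (TV.inl : HV Y W0 → TV Y W0 Kp W) := fun _ _ h => TV.inl.inj h

theorem TV.inr_injective {Y W0 Kp W : Type} :
    Function.Injective (TV.inr : Y × Bool × Kp × W → TV Y W0 Kp W) := fun _ _ h => TV.inr.inj h

/-- the ends of the choice edges, oriented -/
def en {Y W0 : Type} (z : Y) (o : Bool) : HV Y W0 := if o then hub else vx z

theorem en_ne {Y W0 : Type} (z : Y) (o : Bool) : (en z o : HV Y W0) ≠ en z (!o) := by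
  cases o <;> simp [en]

theorem en_ch {Y W0 : Type} (z : Y) (o : Bool) : s((en z o : HV Y W0), en z (!o)) = ch W0 z := by
  cases o
  · simp [en, ch, Sym2.eq_swap]
  · simp [en, ch]

section
variable {Y W0 W Kp : Type} {a b : W}

/-- the embedding of the private part -/
noncomputable def ph (a b : W) (z : Y) (o : Bool) (κ : Kp) (w : W) : TV Y W0 Kp W :=
  if w = a then .inl (en z o) else if w = b then .inl (en z (!o)) else .inr (z, o, κ, w)

theorem ph_a (a b : W) (z : Y) (o : Bool) (κ : Kp) :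
    (ph a b z o κ a : TV Y W0 Kp W) = .inl (en z o) := by simp [ph]

theorem ph_b (hab : a ≠ b) (z : Y) (o : Bool) (κ : Kp) :
    (ph a b z o κ b : TV Y W0 Kp W) = .inl (en z (!o)) := by simp [ph, hab.symm]

theorem ph_ne (z : Y) (o : Bool) (κ : Kp) {w : W} (h1 : w ≠ a) (h2 : w ≠ b) :
    (ph a b z o κ w : TV Y W0 Kp W) = .inr (z, o, κ, w) := by simp [ph, h1, h2]

theorem ph_inj (hab : a ≠ b) (z : Y) (o : Bool) (κ : Kp) :
    Function.Injective (ph a b z o κ : W → TV Y W0 Kp W) := by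
  intro w w' e
  by_cases h1 : w = a
  · rw [h1, ph_a] at e
    by_cases h2 : w' = a
    · rw [h1, h2]
    · by_cases h3 : w' = b
      · rw [h3, ph_b hab] at e
        exact absurd (TV.inl_injective e) (en_ne z o)
      · rw [ph_ne z o κ h2 h3] at e
        cases e
  · by_cases h1b : w = b
    · rw [h1b, ph_b hab] at e
      by_cases h2 : w' = a
      · rw [h2, ph_a] at e
        exact absurd (TV.inl_injective e).symm (en_ne z o)
      · by_cases h3 : w' = b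
        · rw [h1b, h3]
        · rw [ph_ne z o κ h2 h3] at e
          cases e
    · rw [ph_ne z o κ h1 h1b] at e
      by_cases h2 : w' = a
      · rw [h2, ph_a] at e
        cases e
      · by_cases h3 : w' = b
        · rw [h3, ph_b hab] at e
          cases e
        · rw [ph_ne z o κ h2 h3] at e
          have := TV.inr_injective e
          simp only [Prod.mk.injEq] at this
          exact this.2.2.2

theorem ph_ab (hab : a ≠ b) (z : Y) (o : Bool) (κ : Kp) :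
    Sym2.map (ph a b z o κ : W → TV Y W0 Kp W) s(a, b) = Sym2.map TV.inl (ch W0 z) := by
  rw [Sym2.map_mk, ph_a, ph_b hab, ← en_ch z o, Sym2.map_mk]

theorem ph_vert {z : Y} {o : Bool} {κ : Kp} {e : Sym2 W} {v : TV Y W0 Kp W}
    (hv : v ∈ Sym2.map (ph a b z o κ) e) :
    v = .inl hub ∨ v = .inl (vx z) ∨ ∃ w, v = .inr (z, o, κ, w) := by
  rw [Sym2.mem_map] at hv
  obtain ⟨w, -, rfl⟩ := hv
  have hen : ∀ o', (TV.inl (en z o') : TV Y W0 Kp W) = .inl hub ∨
      (TV.inl (en z o') : TV Y W0 Kp W) = .inl (vx z) := by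
    intro o'
    cases o'
    · right; simp [en]
    · left; simp [en]
  unfold ph
  split_ifs
  · rcases hen o with h | h
    · exact .inl h
    · exact .inr (.inl h)
  · rcases hen (!o) with h | h
    · exact .inl h
    · exact .inr (.inl h)
  · exact .inr (.inr ⟨w, rfl⟩)

theorem exists_inner {e : Sym2 W} (hd : ¬ e.IsDiag) (hne : e ≠ s(a, b)) :
    ∃ w ∈ e, w ≠ a ∧ w ≠ b := by
  induction e using Sym2.ind with
  | _ u v =>
    rw [Sym2.mk_isDiag_iff] at hd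
    by_contra hcon
    push Not at hcon
    have h1 := hcon u (Sym2.mem_mk_left _ _)
    have h2 := hcon v (Sym2.mem_mk_right _ _)
    apply hne
    rw [Sym2.eq_iff]
    by_cases h3 : u = a
    · left
      refine ⟨h3, h2 ?_⟩
      rintro rfl; exact hd h3
    · right
      refine ⟨h1 h3, ?_⟩
      by_contra h4
      exact hd ((h1 h3).trans (h2 h4).symm)

theorem ph_inner {e : Sym2 W} (hd : ¬ e.IsDiag) (hne : e ≠ s(a, b)) (z : Y) (o : Bool) (κ : Kp) :
    ∃ w, (TV.inr (z, o, κ, w) : TV Y W0 Kp W) ∈ Sym2.map (ph a b z o κ) e := by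
  obtain ⟨w, hw, h1, h2⟩ := exists_inner hd hne
  exact ⟨w, Sym2.mem_map.2 ⟨w, hw, ph_ne z o κ h1 h2⟩⟩

theorem ph_not_inl {e : Sym2 W} (hd : ¬ e.IsDiag) (hne : e ≠ s(a, b)) (z : Y) (o : Bool) (κ : Kp)
    (e' : Sym2 (HV Y W0)) :
    (Sym2.map (ph a b z o κ) e : Sym2 (TV Y W0 Kp W)) ≠ Sym2.map TV.inl e' := by
  intro hh
  obtain ⟨w, hw⟩ := ph_inner (W0 := W0) hd hne z o κ
  rw [hh, Sym2.mem_map] at hw
  obtain ⟨_, -, h⟩ := hw
  cases h

/-- the edges of the host -/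
def HG (a b : W) (P : Finset (Sym2 W)) (oo : Prop) (I0 : Set (Sym2 (HV Y W0))) :
    Set (Sym2 (TV Y W0 Kp W)) :=
  {e | (∃ e' ∈ I0, Sym2.map TV.inl e' = e) ∨
    ∃ (z : Y) (o : Bool) (κ : Kp), (o = true ∨ oo) ∧ ∃ e' ∈ P, Sym2.map (ph a b z o κ) e' = e}

theorem HG_mono {P : Finset (Sym2 W)} {oo : Prop} {I0 I1 : Set (Sym2 (HV Y W0))} (h : I0 ⊆ I1) :
    (HG a b P oo I0 : Set (Sym2 (TV Y W0 Kp W))) ⊆ HG a b P oo I1 := by
  rintro e (⟨e', he', rfl⟩ | he)
  · exact .inl ⟨e', h he', rfl⟩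
  · exact .inr he

theorem cls (hab : a ≠ b) {P : Finset (Sym2 W)} (hPd : ∀ e ∈ P, ¬ e.IsDiag ∧ e ≠ s(a, b))
    {oo : Prop} {I0 : Set (Sym2 (HV Y W0))} {J : Finset (Sym2 (TV Y W0 Kp W))}
    (hJ : ∀ e ∈ J, e ∈ (HG a b P oo I0 : Set (Sym2 (TV Y W0 Kp W)))) :
    (∃ (z : Y) (o : Bool) (κ : Kp) (J' : Finset (Sym2 W)), (o = true ∨ oo) ∧
      J' ⊆ insert s(a, b) P ∧ J = im (ph a b z o κ) J') ∨
    (∃ J' : Finset (Sym2 (HV Y W0)), (∀ e ∈ J', e ∈ I0) ∧ J = im TV.inl J') ∨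
    ∃ z A B, J.erase s(.inl hub, .inl (vx z)) = A ∪ B ∧ Spl A B (.inl hub) (.inl (vx z)) ∧
      A.Nonempty ∧ B.Nonempty := by
  by_cases hex : ∃ (z : Y) (o : Bool) (κ : Kp), (o = true ∨ oo) ∧
      ∃ e ∈ J, e ∈ im (ph a b z o κ) P
  · obtain ⟨z, o, κ, ho, e, he, heP⟩ := hex
    obtain ⟨c, hc⟩ : ∃ c : Sym2 (TV Y W0 Kp W), c = s(.inl hub, .inl (vx z)) := ⟨_, rfl⟩
    have hcab : c = Sym2.map (ph a b z o κ) s(a, b) := by
      rw [ph_ab hab, hc, ch, Sym2.map_mk]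
    have hcP : c ∉ im (ph a b z o κ) P := by
      intro hh
      rw [mem_im] at hh
      obtain ⟨e', he', h1⟩ := hh
      rw [hcab] at h1
      exact (hPd e' he').2 (Sym2.map.injective (ph_inj hab z o κ) h1)
    by_cases hB : ((J.erase c) \ im (ph a b z o κ) P).Nonempty
    · refine .inr (.inr ⟨z, J ∩ im (ph a b z o κ) P, (J.erase c) \ im (ph a b z o κ) P, ?_,
        ⟨?_, ?_⟩, ⟨e, mem_inter.2 ⟨he, heP⟩⟩, hB⟩)
      · rw [← hc]
        ext g
        simp only [mem_erase, mem_union, mem_inter, mem_sdiff]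
        constructor
        · rintro ⟨h1, h2⟩
          by_cases h3 : g ∈ im (ph a b z o κ) P
          · exact .inl ⟨h2, h3⟩
          · exact .inr ⟨⟨h1, h2⟩, h3⟩
        · rintro (⟨h1, h2⟩ | ⟨h1, -⟩)
          · exact ⟨fun h => hcP (h ▸ h2), h1⟩
          · exact h1
      · exact disjoint_of_subset_left inter_subset_right disjoint_sdiff
      · rintro v ⟨e1, h1, h2⟩ ⟨e2, h3, h4⟩
        rw [mem_inter, mem_im] at h1
        obtain ⟨-, e1', h1', rfl⟩ := h1
        rw [mem_sdiff, mem_erase] at h3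
        obtain ⟨⟨h3a, h3b⟩, h3c⟩ := h3
        rcases ph_vert h2 with rfl | rfl | ⟨w, rfl⟩
        · exact .inl rfl
        · exact .inr rfl
        · exfalso
          rcases hJ e2 h3b with ⟨e', -, rfl⟩ | ⟨z2, o2, κ2, -, e', he', rfl⟩
          · rw [Sym2.mem_map] at h4
            obtain ⟨_, -, h⟩ := h4
            cases h
          · rcases ph_vert h4 with h | h | ⟨w', h⟩
            · cases h
            · cases h
            · have := TV.inr_injective h
              simp only [Prod.mk.injEq] at this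
              obtain ⟨rfl, rfl, rfl, -⟩ := this
              exact h3c (mem_im.2 ⟨e', he', rfl⟩)
    · left
      rw [not_nonempty_iff_eq_empty, sdiff_eq_empty_iff_subset] at hB
      have hsub : J ⊆ (insert s(a, b) P).image (Sym2.map (ph a b z o κ)) := by
        intro g hg
        rw [mem_image]
        by_cases hgc : g = c
        · exact ⟨_, mem_insert_self _ _, by rw [hgc, hcab]⟩
        · obtain ⟨g', h1, h2⟩ := mem_im.1 (hB (mem_erase.2 ⟨hgc, hg⟩))
          exact ⟨g', mem_insert_of_mem h1, h2⟩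
      obtain ⟨J', h1, h2⟩ := subset_image_iff.1 hsub
      exact ⟨z, o, κ, J', ho, h1, h2.symm⟩
  · right; left
    have hsub : (J : Set (Sym2 (TV Y W0 Kp W))) ⊆ (Sym2.map TV.inl) '' I0 := by
      intro e he
      rcases hJ e he with ⟨e', h1, h2⟩ | ⟨z, o, κ, ho, e', he', h2⟩
      · exact ⟨e', h1, h2⟩
      · exact (hex ⟨z, o, κ, ho, e, he, mem_im.2 ⟨e', he', h2⟩⟩).elim
    obtain ⟨J', h1, h2⟩ := Finset.subset_set_image_iff.1 hsub
    exact ⟨J', fun e he => h1 he, h2.symm⟩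

variable (h : Dat Y W0) {E P : Finset (Sym2 W)} {oo : Prop} {π : Lex (ℕ → ℕ)}

theorem bd_host (hab : a ≠ b) (habE : s(a, b) ∈ E) (hPE : P ⊆ E)
    (hPd : ∀ e ∈ P, ¬ e.IsDiag ∧ e ≠ s(a, b)) {N : ℕ} (hN : N ≤ h.n)
    (hπ : ∀ e ∈ h.E, pf h.E e ≤ π) (hB : Bd N π (E : Set (Sym2 W))) :
    Bd N π (HG a b P oo h.Gs : Set (Sym2 (TV Y W0 Kp W))) := by
  refine Bd.of fun J hJG hc hJ e he => ?_
  rcases cls hab hPd hJG with ⟨z, o, κ, J', ho, h1, rfl⟩ | ⟨J', h1, rfl⟩ | ⟨z, A, B, h1, h2, h3, h4⟩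
  · left
    obtain ⟨e', he', rfl⟩ := mem_im.1 he
    rw [pf_im (ph_inj hab z o κ)]
    refine hB J' ?_ ?_ ((Tt_im (ph_inj hab z o κ)).1 hJ) e' he'
    · intro g hg
      rcases mem_insert.1 (h1 hg) with rfl | hg
      · exact habE
      · exact hPE hg
    · rwa [card_im (ph_inj hab z o κ)] at hc
  · left
    obtain ⟨e', he', rfl⟩ := mem_im.1 he
    rw [pf_im TV.inl_injective]
    refine bd_gz h hN hπ J' h1 ?_ ((Tt_im TV.inl_injective).1 hJ) e' he'
    rwa [card_im TV.inl_injective] at hc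
  · right
    refine ⟨_, _, A, B, ?_, ?_, h1, h2, h3, h4⟩
    · intro h; cases h
    · exact .inl ⟨ch W0 z, .inl ⟨z, rfl⟩, by rw [ch, Sym2.map_mk]⟩

theorem copy_host (hab : a ≠ b) (habE : s(a, b) ∈ E) (hPE : P ⊆ E)
    (hPd : ∀ e ∈ P, ¬ e.IsDiag ∧ e ≠ s(a, b)) (hn : h.E.card ≤ h.n)
    (hπ : ∀ e ∈ h.E, pf h.E e ≤ π) (hB : Bd h.E.card π (E : Set (Sym2 W)))
    {J : Finset (Sym2 (TV Y W0 Kp W))}
    (hJG : ∀ e ∈ J, e ∈ (HG a b P oo h.Gs : Set (Sym2 (TV Y W0 Kp W)))) (hJ : Tt J)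
    (hc : J.card = h.E.card) (hmax : ∃ e ∈ J, pf J e = π) :
    (∃ x y, h.A x y ∧ J = im TV.inl (h.T x y)) ∨
    ∃ (z : Y) (o : Bool) (κ : Kp) (J' : Finset (Sym2 W)), (o = true ∨ oo) ∧
      J' ⊆ insert s(a, b) P ∧ J = im (ph a b z o κ) J' := by
  rcases cls hab hPd hJG with hh | ⟨J', h1, rfl⟩ | ⟨z, A, B, h1, h2, h3, h4⟩
  · exact .inr hh
  · left
    obtain ⟨x, y, hA, rfl⟩ := copy_gz h hn hπ h1 ((Tt_im TV.inl_injective).1 hJ)
      (by rwa [card_im TV.inl_injective] at hc) (by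
        obtain ⟨e, he, hp⟩ := hmax
        obtain ⟨e', he', rfl⟩ := mem_im.1 he
        rw [pf_im TV.inl_injective] at hp
        exact ⟨e', he', hp⟩)
    exact ⟨x, y, hA, rfl⟩
  · exfalso
    rcases (bd_host (Kp := Kp) (oo := oo) h hab habE hPE hPd hn hπ hB).unsep hJG hc.le hJ hmax
      (by intro h; cases h) (.inl ⟨ch W0 z, .inl ⟨z, rfl⟩, by rw [ch, Sym2.map_mk]⟩) h1 h2
      with hh | hh
    · rw [hh] at h3; exact not_nonempty_empty h3
    · rw [hh] at h4; exact not_nonempty_empty h4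

end

end Pool.Agent.P8H52.SM
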