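import Pool.Agent.P8H52.SM.T3a

/-!
# Roles, and freeness of the host
-/

open Finset SimpleGraph
open scoped Classical symmDiff

namespace Pool.Agent.P8H52.SM

open Pool.Agent.H165R2.SM Pool.Agent.H165R2.SM.HV Pool.Agent.H165R2.SM.Dat
  Pool.Agent.Results.MP_fc2b6d_co.Forests

section
variable {V V' W0 : Type}

/-- `J` is a copy of `E0` with `x`, `y` in the roles of `v0`, `p` -/
def Ro (E0 : Finset (Sym2 W0)) (v0 p : W0) (J : Finset (Sym2 V)) (x y : V) : Prop :=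
  ∃ f : W0 → V, Function.Injective f ∧ im f E0 = J ∧ f v0 = x ∧ f p = y

variable {E0 : Finset (Sym2 W0)} {v0 p : W0} {J : Finset (Sym2 V)} {x y : V}

theorem Ro.map {g : V → V'} (hg : Function.Injective g) (h : Ro E0 v0 p J x y) :
    Ro E0 v0 p (im g J) (g x) (g y) := by
  obtain ⟨f, h1, rfl, rfl, rfl⟩ := h
  exact ⟨g ∘ f, hg.comp h1, (im_comp _ _ _).symm, rfl, rfl⟩

theorem Ro.of_im (hv : ∀ u : W0, ∃ e ∈ E0, u ∈ e) {g : V → V'} (hg : Function.Injective g)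
    {X Z : V'} (h : Ro E0 v0 p (im g J) X Z) : ∃ x y, g x = X ∧ g y = Z ∧ Ro E0 v0 p J x y := by
  obtain ⟨f, h1, h2, rfl, rfl⟩ := h
  have hk : ∀ u, ∃ k, g k = f u := by
    intro u
    obtain ⟨e, he, hu⟩ := hv u
    have h3 : Sym2.map f e ∈ im g J := by rw [← h2]; exact mem_im.2 ⟨e, he, rfl⟩
    obtain ⟨e', -, h4⟩ := mem_im.1 h3
    have h5 : f u ∈ Sym2.map g e' := by rw [h4]; exact Sym2.mem_map.2 ⟨u, hu, rfl⟩
    obtain ⟨k, -, h6⟩ := Sym2.mem_map.1 h5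
    exact ⟨k, h6⟩
  choose k hk using hk
  refine ⟨k v0, k p, hk _, hk _, k, ?_, ?_, rfl, rfl⟩
  · intro u w e
    apply h1
    rw [← hk, ← hk, e]
  · apply im_injective hg
    rw [im_comp, ← h2]
    congr 1
    funext u
    exact hk u

theorem Ro.cp {G : Set (Sym2 V)} (h : Ro E0 v0 p J x y) (hJ : ∀ e ∈ J, e ∈ G) : Cp E0 G J := by
  obtain ⟨f, h1, h2, -, -⟩ := h
  exact ⟨⟨f, h1, h2⟩, hJ⟩

theorem Ro.mem (hp : s(v0, p) ∈ E0) (h : Ro E0 v0 p J x y) : s(x, y) ∈ J := by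
  obtain ⟨f, -, rfl, rfl, rfl⟩ := h
  exact mem_im.2 ⟨_, hp, rfl⟩

end

section
variable {Y W0 : Type} (h : Dat Y W0)

/-- the gadgets starting at `z` have the role -/
def po (o : Bool) : Prop :=
  if o then Ro h.E h.v0 h.p h.E h.v0 h.p else Ro h.E h.v0 h.p h.E h.p h.v0

/-- the gadgets ending at `z` have the role -/
def pi (o : Bool) : Prop :=
  if o then Ro h.E h.v0 h.p h.E h.v0 h.q else Ro h.E h.v0 h.p h.E h.q h.v0

theorem po_true : po h true := by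
  rw [po, if_pos rfl]
  refine ⟨id, Function.injective_id, ?_, rfl, rfl⟩
  ext e
  rw [mem_im]
  simp

theorem role_T (hv : ∀ u : W0, ∃ e ∈ h.E, u ∈ e) {x y z : Y} (hA : h.A x y) {o : Bool}
    (hr : Ro h.E h.v0 h.p (h.T x y) (en z o) (en z (!o))) :
    (po h o ∧ z = x) ∨ (pi h o ∧ z = y) := by
  obtain ⟨u, w, h1, h2, h3⟩ := hr.of_im hv (h.io_inj (h.ne_of hA))
  have key : ∀ u w, h.io x y u = hub → h.io x y w = vx z →
      u = h.v0 ∧ ((w = h.p ∧ z = x) ∨ (w = h.q ∧ z = y)) := by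
    intro u w h1 h2
    refine ⟨h.io_inj (h.ne_of hA) (h1.trans (h.io_v0 x y).symm), ?_⟩
    rcases h.io_cases x y w with ⟨_, e⟩ | ⟨h4, e⟩ | ⟨h4, e⟩ | ⟨_, _, _, e⟩
    · rw [e] at h2; cases h2
    · rw [e] at h2; exact .inl ⟨h4, (HV.vx.inj h2).symm⟩
    · rw [e] at h2; exact .inr ⟨h4, (HV.vx.inj h2).symm⟩
    · rw [e] at h2; cases h2
  cases o
  · simp only [en, Bool.false_eq_true, if_false, Bool.not_false, if_true] at h1 h2
    obtain ⟨rfl, ⟨rfl, h5⟩ | ⟨rfl, h5⟩⟩ := key _ _ h2 h1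
    · left; exact ⟨by rw [po, if_neg (by simp)]; exact h3, h5⟩
    · right; exact ⟨by rw [pi, if_neg (by simp)]; exact h3, h5⟩
  · simp only [en, Bool.not_true, Bool.false_eq_true, if_false, if_true] at h1 h2
    obtain ⟨rfl, ⟨rfl, h5⟩ | ⟨rfl, h5⟩⟩ := key _ _ h1 h2
    · left; exact ⟨by rw [po, if_pos rfl]; exact h3, h5⟩
    · right; exact ⟨by rw [pi, if_pos rfl]; exact h3, h5⟩

theorem role_T_conv {x y z : Y} (hA : h.A x y) {o : Bool}
    (hr : (po h o ∧ z = x) ∨ (pi h o ∧ z = y)) :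
    Ro h.E h.v0 h.p (h.T x y) (en z o) (en z (!o)) := by
  have hi := h.io_inj (h.ne_of hA)
  rcases hr with ⟨h1, rfl⟩ | ⟨h1, rfl⟩
  · cases o
    · rw [po, if_neg (by simp)] at h1
      have := h1.map hi
      rwa [h.io_v0, h.io_p] at this
    · rw [po, if_pos rfl] at h1
      have := h1.map hi
      rwa [h.io_v0, h.io_p] at this
  · cases o
    · rw [pi, if_neg (by simp)] at h1
      have := h1.map hi
      rwa [h.io_v0, h.io_q] at this
    · rw [pi, if_pos rfl] at h1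
      have := h1.map hi
      rwa [h.io_v0, h.io_q] at this

end

/-- the standing assumptions -/
structure Ass {Y W0 W : Type} (h : Dat Y W0) (E P : Finset (Sym2 W)) (a b : W) (oo : Prop)
    (π : Lex (ℕ → ℕ)) : Prop where
  hab : a ≠ b
  habE : s(a, b) ∈ E
  hPE : P ⊆ E
  hPd : ∀ e ∈ P, ¬ e.IsDiag ∧ e ≠ s(a, b)
  hn : h.E.card ≤ h.n
  hπ : ∀ e ∈ h.E, pf h.E e ≤ π
  hmax : ∃ e ∈ h.E, pf h.E e = π
  hT : Tt h.E
  hv : ∀ u : W0, ∃ e ∈ h.E, u ∈ e
  hB : Bd h.E.card π (E : Set (Sym2 W))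
  hS1 : ∀ J ⊆ insert s(a, b) P, ¬ Ro h.E h.v0 h.p J a b
  hS2 : oo → ∀ J ⊆ insert s(a, b) P, ¬ Ro h.E h.v0 h.p J b a
  pab : ∀ J, Cp h.E (E : Set (Sym2 W)) J → s(a, b) ∈ J
  pg : ∀ J1 J2, Cp h.E (E : Set (Sym2 W)) J1 → Cp h.E (E : Set (Sym2 W)) J2 → J1 ≠ J2 →
    ∀ e ∈ J1, e ∈ J2 → e = s(a, b)

section
variable {Y W0 W Kp : Type} {h : Dat Y W0} {E P : Finset (Sym2 W)} {a b : W} {oo : Prop}
  {π : Lex (ℕ → ℕ)}

theorem Ass.insub (hh : Ass h E P a b oo π) : insert s(a, b) P ⊆ E := by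
  intro g hg
  rcases mem_insert.1 hg with rfl | hg
  · exact hh.habE
  · exact hh.hPE hg

theorem Ass.copies (hh : Ass h E P a b oo π) {C : Finset (Sym2 (TV Y W0 Kp W))}
    (hC : Cp h.E (HG a b P oo h.Gs : Set (Sym2 (TV Y W0 Kp W))) C) :
    (∃ x y, h.A x y ∧ C = im TV.inl (h.T x y)) ∨
    ∃ (z : Y) (o : Bool) (κ : Kp) (J' : Finset (Sym2 W)), (o = true ∨ oo) ∧
      J' ⊆ insert s(a, b) P ∧ C = im (ph a b z o κ) J' :=
  copy_host h hh.hab hh.habE hh.hPE hh.hPd hh.hn hh.hπ hh.hB hC.2 (hC.tt hh.hT) hC.card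
    (hC.max hh.hmax)

theorem Ass.mem_inl (hh : Ass h E P a b oo π) {I0 : Set (Sym2 (HV Y W0))} {e : Sym2 (HV Y W0)}
    (he : Sym2.map TV.inl e ∈ (HG a b P oo I0 : Set (Sym2 (TV Y W0 Kp W)))) : e ∈ I0 := by
  rcases he with ⟨e', h1, h2⟩ | ⟨z, o, κ, -, e', h1, h2⟩
  · rwa [← Sym2.map.injective TV.inl_injective h2]
  · exact (ph_not_inl (hh.hPd e' h1).1 (hh.hPd e' h1).2 z o κ e h2).elim

/-- a copy with the role at a choice edge is a gadget -/
theorem Ass.gad (hh : Ass h E P a b oo π) {I0 : Set (Sym2 (HV Y W0))} (hI0 : I0 ⊆ h.Gs)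
    {C : Finset (Sym2 (TV Y W0 Kp W))}
    (hC : ∀ e ∈ C, e ∈ (HG a b P oo I0 : Set (Sym2 (TV Y W0 Kp W)))) {z : Y} {o : Bool}
    (ho : o = true ∨ oo) (hr : Ro h.E h.v0 h.p C (.inl (en z o)) (.inl (en z (!o)))) :
    ∃ r : Y × Y, h.A r.1 r.2 ∧ C = im TV.inl (h.T r.1 r.2) ∧ (∀ e ∈ h.T r.1 r.2, e ∈ I0) ∧
      ((po h o ∧ z = r.1) ∨ (pi h o ∧ z = r.2)) := by
  have hC' : ∀ e ∈ C, e ∈ (HG a b P oo h.Gs : Set (Sym2 (TV Y W0 Kp W))) :=
    fun e he => HG_mono hI0 (hC e he)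
  rcases hh.copies (hr.cp hC') with ⟨x, y, hA, rfl⟩ | ⟨z', o', κ, J', ho', hJ', rfl⟩
  · refine ⟨(x, y), hA, rfl, fun e he => hh.mem_inl (Kp := Kp) (hC _ (mem_im.2 ⟨e, he, rfl⟩)), ?_⟩
    obtain ⟨u, w, h1, h2, h3⟩ := hr.of_im hh.hv TV.inl_injective
    rw [TV.inl.injEq] at h1 h2
    subst h1 h2
    exact role_T h hh.hv hA h3
  · exfalso
    have h1 := hr.mem h.hp
    obtain ⟨e', he', h2⟩ := mem_im.1 h1
    have h3 : e' = s(a, b) := by
      by_contra hne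
      have h4 : e' ∈ P := (mem_insert.1 (hJ' he')).resolve_left hne
      refine ph_not_inl (W0 := W0) (hh.hPd e' h4).1 (hh.hPd e' h4).2 z' o' κ
        s(en z o, en z (!o)) ?_
      rw [h2, Sym2.map_mk]
    subst h3
    have hz : z' = z := by
      rw [ph_ab hh.hab] at h2
      have h5 : (Sym2.map TV.inl (ch W0 z') : Sym2 (TV Y W0 Kp W)) =
          Sym2.map TV.inl (ch W0 z) := by
        rw [h2, ← en_ch z o, Sym2.map_mk]
      exact ch_inj (Sym2.map.injective (TV.inl_injective (Kp := Kp) (W := W)) h5)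
    subst hz
    obtain ⟨u, w, h5, h6, h7⟩ := hr.of_im hh.hv (ph_inj hh.hab z' o' κ)
    by_cases hoo : o' = o
    · subst hoo
      have hu : u = a := ph_inj hh.hab z' o' κ (h5.trans (ph_a a b z' o' κ).symm)
      have hw : w = b := ph_inj hh.hab z' o' κ (h6.trans (ph_b hh.hab z' o' κ).symm)
      rw [hu, hw] at h7
      exact hh.hS1 J' hJ' h7
    · have ho2 : o = !o' := by cases o <;> cases o' <;> simp at hoo ⊢
      have hoo' : oo := by
        rcases ho with k | k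
        · rcases ho' with k' | k'
          · exact (hoo (k'.trans k.symm)).elim
          · exact k'
        · exact k
      rw [ho2] at h5 h6
      rw [Bool.not_not] at h6
      have hu : u = b := ph_inj hh.hab z' o' κ (h5.trans (ph_b hh.hab z' o' κ).symm)
      have hw : w = a := ph_inj hh.hab z' o' κ (h6.trans (ph_a a b z' o' κ).symm)
      rw [hu, hw] at h7
      exact hh.hS2 hoo' J' hJ' h7

theorem Ass.cnt_of (hh : Ass h E P a b oo π) {I0 : SimpleGraph (HV Y W0)} (hI0 : I0 ≤ h.G)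
    {f : W → TV Y W0 Kp W} (hf : Function.Injective f) {S : Finset (Finset (Sym2 W))} {z : Y}
    {o : Bool} (ho : o = true ∨ oo)
    (hS : ∀ J ∈ S, (∀ e ∈ im f J, e ∈ (HG a b P oo I0.edgeSet : Set (Sym2 (TV Y W0 Kp W)))) ∧
      Ro h.E h.v0 h.p (im f J) (.inl (en z o)) (.inl (en z (!o)))) :
    CntP h (po h o) (pi h o) I0 z S.card := by
  have hI : I0.edgeSet ⊆ h.Gs := by
    rw [← h.G_edge]; exact SimpleGraph.edgeSet_subset_edgeSet.2 hI0
  have key : ∀ J : S, ∃ r : Y × Y, h.A r.1 r.2 ∧ im f J.1 = im TV.inl (h.T r.1 r.2) ∧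
      (∀ e ∈ h.T r.1 r.2, e ∈ I0.edgeSet) ∧ ((po h o ∧ z = r.1) ∨ (pi h o ∧ z = r.2)) := by
    rintro ⟨J, hJ⟩
    exact hh.gad hI (hS J hJ).1 ho (hS J hJ).2
  choose r h1 h2 h3 h4 using key
  refine ⟨S.attach.image r, ?_, ?_⟩
  · rw [card_image_of_injective, card_attach]
    intro J J' e
    apply Subtype.ext
    apply im_injective hf
    rw [h2, h2, e]
  · intro t ht
    rw [mem_image] at ht
    obtain ⟨J, -, rfl⟩ := ht
    exact ⟨⟨h1 J, h3 J⟩, h4 J⟩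

/-- a common edge of two copies in the host is a choice edge -/
theorem Ass.two (hh : Ass h E P a b oo π) {C1 C2 : Finset (Sym2 (TV Y W0 Kp W))}
    (hC1 : Cp h.E (HG a b P oo h.Gs : Set (Sym2 (TV Y W0 Kp W))) C1)
    (hC2 : Cp h.E (HG a b P oo h.Gs : Set (Sym2 (TV Y W0 Kp W))) C2) (hne : C1 ≠ C2)
    {e : Sym2 (TV Y W0 Kp W)} (he1 : e ∈ C1) (he2 : e ∈ C2) :
    ∃ z, e = Sym2.map TV.inl (ch W0 z) := by
  have mixed : ∀ {x y : Y} {z : Y} {o : Bool} {κ : Kp} {J' : Finset (Sym2 W)},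
      J' ⊆ insert s(a, b) P → e ∈ im TV.inl (h.T x y) → e ∈ im (ph a b z o κ) J' →
      ∃ z, e = Sym2.map TV.inl (ch W0 z) := by
    intro x y z o κ J' hJ' h1 h2
    obtain ⟨e1, -, rfl⟩ := mem_im.1 h1
    obtain ⟨e2, h3, h4⟩ := mem_im.1 h2
    rcases mem_insert.1 (hJ' h3) with rfl | h5
    · exact ⟨z, by rw [← h4, ph_ab hh.hab]⟩
    · exact (ph_not_inl (hh.hPd e2 h5).1 (hh.hPd e2 h5).2 z o κ e1 h4).elim
  rcases hh.copies hC1 with ⟨x, y, hA, rfl⟩ | ⟨z, o, κ, J', ho, hJ', rfl⟩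
  · rcases hh.copies hC2 with ⟨x', y', hA', rfl⟩ | ⟨z', o', κ', J2, ho', hJ2, rfl⟩
    · obtain ⟨e1, h1, rfl⟩ := mem_im.1 he1
      obtain ⟨e2, h2, h3⟩ := mem_im.1 he2
      rw [Sym2.map.injective TV.inl_injective h3] at h2
      by_contra hcon
      push Not at hcon
      have h4 : e1 ∈ h.Pr x y := by
        rw [Dat.Pr, mem_sdiff]
        refine ⟨h1, ?_⟩
        simp only [mem_insert, mem_singleton, not_or]
        exact ⟨fun h => hcon x (by rw [h]), fun h => hcon y (by rw [h])⟩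
      obtain ⟨rfl, rfl⟩ := h.Pr_uniq hA hA' h4 h2
      exact hne rfl
    · exact mixed hJ2 he1 he2
  · rcases hh.copies hC2 with ⟨x', y', hA', rfl⟩ | ⟨z', o', κ', J2, ho', hJ2, rfl⟩
    · exact mixed hJ' he2 he1
    · obtain ⟨e1, h1, rfl⟩ := mem_im.1 he1
      obtain ⟨e2, h2, h3⟩ := mem_im.1 he2
      rcases mem_insert.1 (hJ' h1) with rfl | h5
      · exact ⟨z, by rw [ph_ab hh.hab]⟩
      · rcases mem_insert.1 (hJ2 h2) with rfl | h6
        · exact ⟨z', by rw [← h3, ph_ab hh.hab]⟩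
        · exfalso
          obtain ⟨w, hw⟩ := ph_inner (W0 := W0) (hh.hPd e1 h5).1 (hh.hPd e1 h5).2 z o κ
          rw [← h3] at hw
          rcases ph_vert hw with k | k | ⟨w', k⟩
          · cases k
          · cases k
          · have := TV.inr_injective k
            simp only [Prod.mk.injEq] at this
            obtain ⟨rfl, rfl, rfl, -⟩ := this
            have h7 := Sym2.map.injective (ph_inj (W0 := W0) hh.hab z o κ) h3
            subst h7
            have hcp : ∀ J' : Finset (Sym2 W), J' ⊆ insert s(a, b) P →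
                Cp h.E (HG a b P oo h.Gs : Set (Sym2 (TV Y W0 Kp W))) (im (ph a b z o κ) J') →
                Cp h.E (E : Set (Sym2 W)) J' := by
              intro J' hJ' hC
              obtain ⟨⟨f, hf, h8⟩, -⟩ := hC
              have hro : Ro h.E h.v0 h.p (im (ph a b z o κ : W → TV Y W0 Kp W) J')
                (f h.v0) (f h.p) := ⟨f, hf, h8, rfl, rfl⟩
              obtain ⟨_, _, -, -, h9⟩ := hro.of_im hh.hv (ph_inj hh.hab z o κ)
              exact h9.cp (fun e he => hh.insub (hJ' he))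
            have h8 := hh.pg J' J2 (hcp J' hJ' hC1) (hcp J2 hJ2 hC2)
              (fun h => hne (by rw [h])) e2 h1 h2
            exact (hh.hPd e2 h6).2 h8

/-- freeness of the host -/
theorem Ass.free (hh : Ass h E P a b oo π) {H : SimpleGraph W}
    (hE : ∀ e, e ∈ E ↔ e ∈ H.edgeSet) {I0 : SimpleGraph (HV Y W0)} (hI0 : I0 ≤ h.G)
    {S S' : Finset (Finset (Sym2 W))} (hS : ∀ J, J ∈ S ↔ J ⊆ E ∧ Ro h.E h.v0 h.p J a b)
    (hS' : ∀ J, J ∈ S' ↔ J ⊆ E ∧ Ro h.E h.v0 h.p J b a) (hoo : oo ∨ S.card ≤ S'.card)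
    (hne : S.Nonempty) (hb1 : ∀ z, ¬ CntP h (po h true) (pi h true) I0 z S.card)
    (hb2 : oo → ∀ z, ¬ CntP h (po h false) (pi h false) I0 z S.card)
    {I : SimpleGraph (TV Y W0 Kp W)} (hI : I.edgeSet ⊆ HG a b P oo I0.edgeSet) : H.Free I := by
  intro hH
  obtain ⟨f⟩ := hH
  have hfi : Function.Injective f := f.injective
  have hIG : I0.edgeSet ⊆ h.Gs := by
    rw [← h.G_edge]; exact SimpleGraph.edgeSet_subset_edgeSet.2 hI0
  have hfe : ∀ e ∈ E, Sym2.map f e ∈ (HG a b P oo I0.edgeSet : Set (Sym2 (TV Y W0 Kp W))) := by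
    intro e he
    apply hI
    rw [hE] at he
    induction e using Sym2.ind with
    | _ u v => exact f.toHom.map_adj he
  have hfJ : ∀ J ⊆ E, ∀ e ∈ im f J,
      e ∈ (HG a b P oo I0.edgeSet : Set (Sym2 (TV Y W0 Kp W))) := by
    intro J hJ e he
    obtain ⟨e', he', rfl⟩ := mem_im.1 he
    exact hfe e' (hJ he')
  have hcpf : ∀ J, Cp h.E (E : Set (Sym2 W)) J →
      Cp h.E (HG a b P oo h.Gs : Set (Sym2 (TV Y W0 Kp W))) (im f J) := fun J hJ =>
    Cp_im hfi (fun e he => HG_mono hIG (hfe e he)) hJ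
  obtain ⟨J0, hJ0⟩ := hne
  have hJ0' := (hS J0).1 hJ0
  have hJ0c : Cp h.E (E : Set (Sym2 W)) J0 := hJ0'.2.cp (fun e he => hJ0'.1 he)
  by_cases htwo : ∃ J1 J2, Cp h.E (E : Set (Sym2 W)) J1 ∧ Cp h.E (E : Set (Sym2 W)) J2 ∧ J1 ≠ J2
  · obtain ⟨J1, J2, hc1, hc2, hne⟩ := htwo
    have m1 := hh.pab J1 hc1
    have m2 := hh.pab J2 hc2
    obtain ⟨z, hz⟩ := hh.two (hcpf J1 hc1) (hcpf J2 hc2) (fun h => hne (im_injective hfi h))
      (e := Sym2.map f s(a, b)) (mem_im.2 ⟨_, m1, rfl⟩) (mem_im.2 ⟨_, m2, rfl⟩)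
    obtain ⟨o, ho1, ho2⟩ : ∃ o : Bool, f a = .inl (en z o) ∧ f b = .inl (en z (!o)) := by
      rw [Sym2.map_mk, ch, Sym2.map_mk, Sym2.eq_iff] at hz
      rcases hz with ⟨h1, h2⟩ | ⟨h1, h2⟩
      · exact ⟨true, by simpa [en] using h1, by simpa [en] using h2⟩
      · exact ⟨false, by simpa [en] using h1, by simpa [en] using h2⟩
    by_cases hoc : o = true ∨ oo
    · have hcnt := hh.cnt_of hI0 hfi (S := S) (z := z) hoc (by
        intro J hJ
        have := (hS J).1 hJ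
        refine ⟨hfJ J this.1, ?_⟩
        rw [← ho1, ← ho2]
        exact this.2.map hfi)
      cases o
      · exact hb2 (by simpa using hoc) z hcnt
      · exact hb1 z hcnt
    · rw [not_or] at hoc
      have ho3 : o = false := by simpa using hoc.1
      subst ho3
      have hcnt := hh.cnt_of hI0 hfi (S := S') (z := z) (o := true) (.inl rfl) (by
        intro J hJ
        have := (hS' J).1 hJ
        refine ⟨hfJ J this.1, ?_⟩
        have h5 := this.2.map hfi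
        rw [ho1, ho2] at h5
        exact h5)
      obtain ⟨s, hs1, hs2⟩ := hcnt
      exact hb1 z (CntP.mono hs2 (by rw [hs1]; exact hoo.resolve_left hoc.2))
  · have hall : ∀ J, Cp h.E (E : Set (Sym2 W)) J → J = J0 := by
      intro J hJ
      by_contra hcon
      exact htwo ⟨J, J0, hJ, hJ0c, hcon⟩
    have hS1 : S.card ≤ 1 := by
      rw [card_le_one]
      intro J hJ J' hJ'
      have k1 := (hS J).1 hJ
      have k2 := (hS J').1 hJ'
      rw [hall J (k1.2.cp (fun e he => k1.1 he)), hall J' (k2.2.cp (fun e he => k2.1 he))]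
    rcases hh.copies (hcpf J0 hJ0c) with ⟨x, y, hA, hxy⟩ | ⟨z, o, κ, J', ho, hJ', hxy⟩
    · refine hb1 x (CntP.mono (s := {(x, y)}) ?_ (by rw [card_singleton]; exact hS1))
      intro r hr
      rw [mem_singleton] at hr
      subst hr
      refine ⟨⟨hA, fun e he => ?_⟩, .inl ⟨po_true h, rfl⟩⟩
      apply hh.mem_inl (Kp := Kp)
      apply hfJ J0 hJ0'.1
      rw [hxy]
      exact mem_im.2 ⟨e, he, rfl⟩
    · have h1 := hJ0'.2.map hfi
      rw [hxy] at h1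
      obtain ⟨u, w, -, -, h2⟩ := h1.of_im hh.hv (ph_inj hh.hab z o κ)
      have h3 := hall J' (h2.cp (fun e he => hh.insub (hJ' he)))
      rw [h3] at hJ'
      exact hh.hS1 J0 hJ' hJ0'.2

end

end Pool.Agent.P8H52.SM
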