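import Pool.Agent.P8H52.SM.T3b

/-!
# Embedding when the bounds fail; the failure theorem
-/

open Finset SimpleGraph
open scoped Classical symmDiff

namespace Pool.Agent.P8H52.SM

open Pool.Agent.H165R2.SM Pool.Agent.H165R2.SM.HV Pool.Agent.H165R2.SM.Dat
  Pool.Agent.Results.MP_fc2b6d_co.Forests

section
variable {Y W0 : Type} (h : Dat Y W0)

theorem common_T {r r' : Y × Y} {z : Y} (hA : h.A r.1 r.2) (hA' : h.A r'.1 r'.2)
    (hz : z = r.1 ∨ z = r.2) (hz' : z = r'.1 ∨ z = r'.2) (hne : r ≠ r') {v : HV Y W0}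
    (hv : ∃ e ∈ h.T r.1 r.2, v ∈ e) (hv' : ∃ e ∈ h.T r'.1 r'.2, v ∈ e) :
    v = hub ∨ v = vx z := by
  obtain ⟨e, he, hve⟩ := hv
  obtain ⟨e', he', hve'⟩ := hv'
  by_contra hcon
  push Not at hcon
  have key : ∀ t, v = vx t → False := by
    intro t ht
    have htz : t ≠ z := by rintro rfl; exact hcon.2 ht
    have a1 : t = r.1 ∨ t = r.2 := by
      rcases h.vert_T he hve with k | k | k | ⟨_, k⟩ <;> rw [ht] at k
      · cases k
      · exact .inl (HV.vx.inj k)
      · exact .inr (HV.vx.inj k)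
      · cases k
    have a2 : t = r'.1 ∨ t = r'.2 := by
      rcases h.vert_T he' hve' with k | k | k | ⟨_, k⟩ <;> rw [ht] at k
      · cases k
      · exact .inl (HV.vx.inj k)
      · exact .inr (HV.vx.inj k)
      · cases k
    have b1 : r = (t, z) ∨ r = (z, t) := by
      rcases a1 with a | a <;> rcases hz with b | b
      · exact absurd (a.trans b.symm) htz
      · exact .inl (Prod.ext a.symm b.symm)
      · exact .inr (Prod.ext b.symm a.symm)
      · exact absurd (a.trans b.symm) htz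
    have b2 : r' = (t, z) ∨ r' = (z, t) := by
      rcases a2 with a | a <;> rcases hz' with b | b
      · exact absurd (a.trans b.symm) htz
      · exact .inl (Prod.ext a.symm b.symm)
      · exact .inr (Prod.ext b.symm a.symm)
      · exact absurd (a.trans b.symm) htz
    rcases b1 with b1 | b1 <;> rcases b2 with b2 | b2 <;> rw [b1] at hA hne <;>
      rw [b2] at hA' hne
    · exact hne rfl
    · exact h.asy _ _ hA hA'
    · exact h.asy _ _ hA hA'
    · exact hne rfl
  rcases h.vert_T he hve with k | k | k | ⟨w', k⟩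
  · exact hcon.1 k
  · exact key _ k
  · exact key _ k
  · rcases h.vert_T he' hve' with l | l | l | ⟨w'', l⟩
    · exact hcon.1 l
    · exact key _ l
    · exact key _ l
    · rw [k] at l
      obtain ⟨l1, l2, -⟩ := HV.prv.inj l
      exact hne (Prod.ext l1 l2)

end

section
variable {Y W0 W Kp : Type} {h : Dat Y W0} {E P : Finset (Sym2 W)} {a b : W} {oo : Prop}
  {π : Lex (ℕ → ℕ)}

theorem Ass.emb (hh : Ass h E P a b oo π) {H : SimpleGraph W}
    (hE : ∀ e, e ∈ E ↔ e ∈ H.edgeSet) {S : Finset (Finset (Sym2 W))}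
    (hS : ∀ J, J ∈ S ↔ J ⊆ E ∧ Ro h.E h.v0 h.p J a b) (hne : S.Nonempty)
    (hcov : ∀ e ∈ E, (e ∈ P ∧ ∀ J ∈ S, e ∉ J) ∨ ∃ J ∈ S, e ∈ J)
    (hcl : ∀ J ∈ S, ∀ e1 ∈ J, e1 ≠ s(a, b) → ∀ e2 ∈ E, e2 ∉ J → ∀ w, w ∈ e1 → w ∈ e2 →
      w = a ∨ w = b)
    {F : SimpleGraph (TV Y W0 Kp W)} {F0 : SimpleGraph (HV Y W0)}
    (hF0 : ∀ e ∈ F0.edgeSet, Sym2.map TV.inl e ∈ F.edgeSet) {z : Y} {o : Bool} {κ : Kp}
    (hcnt : CntP h (po h o) (pi h o) F0 z S.card)
    (hP : ∀ e ∈ P, Sym2.map (ph a b z o κ) e ∈ F.edgeSet) : H ⊑ F := by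
  obtain ⟨s, hsc, hs⟩ := hcnt
  have : Nonempty (Y × Y) := ⟨(z, z)⟩
  obtain ⟨r, hrs, hri⟩ := exists_injOn S s hsc.ge
  -- the isomorphisms
  have hg : ∀ J : S, ∃ g : W0 → W, Function.Injective g ∧ im g h.E = J.1 ∧ g h.v0 = a ∧
      g h.p = b := fun J => ((hS J.1).1 J.2).2
  choose g hgi hgim hg0 hgp using hg
  have hk : ∀ J : S, ∃ k : W0 → HV Y W0, Function.Injective k ∧ im k h.E = h.T (r J).1 (r J).2 ∧
      k h.v0 = en z o ∧ k h.p = en z (!o) := by
    intro J
    have h1 := hs _ (hrs J.1 J.2)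
    exact role_T_conv h h1.1.1 h1.2
  choose k hki hkim hk0 hkp using hk
  have hkF : ∀ J : S, ∀ e ∈ im (k J) h.E, e ∈ F0.edgeSet := by
    intro J e he
    rw [hkim] at he
    exact (hs _ (hrs J.1 J.2)).1.2 e he
  have hz : ∀ J : S, z = (r J).1 ∨ z = (r J).2 := by
    intro J
    exact (hs _ (hrs J.1 J.2)).2.imp And.right And.right
  have hkv : ∀ (J : S) u, ∃ e ∈ h.T (r J).1 (r J).2, k J u ∈ e := by
    intro J u
    obtain ⟨e, he, hu⟩ := hh.hv u
    refine ⟨Sym2.map (k J) e, ?_, Sym2.mem_map.2 ⟨u, hu, rfl⟩⟩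
    rw [← hkim]
    exact mem_im.2 ⟨e, he, rfl⟩
  have hend : ∀ (J : S) u, (k J u = hub ∨ k J u = vx z) → u = h.v0 ∨ u = h.p := by
    intro J u hu
    have h1 := hk0 J
    have h2 := hkp J
    cases o
    · simp only [en, Bool.false_eq_true, if_false, Bool.not_false, if_true] at h1 h2
      rcases hu with hu | hu
      · exact .inr (hki J (hu.trans h2.symm))
      · exact .inl (hki J (hu.trans h1.symm))
    · simp only [en, Bool.not_true, Bool.false_eq_true, if_false, if_true] at h1 h2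
      rcases hu with hu | hu
      · exact .inl (hki J (hu.trans h1.symm))
      · exact .inr (hki J (hu.trans h2.symm))
  -- two gadgets meet in the ends
  have hkd : ∀ (J J' : S) u u', k J u = k J' u' → J ≠ J' → u = u' ∧ (u = h.v0 ∨ u = h.p) := by
    intro J J' u u' e hJJ
    have hrr : r J ≠ r J' := fun hh' => hJJ (Subtype.ext (hri _ J.2 _ J'.2 hh'))
    have h1 := common_T h (hs _ (hrs J.1 J.2)).1.1 (hs _ (hrs J'.1 J'.2)).1.1 (hz J) (hz J') hrr
      (hkv J u) (by rw [e]; exact hkv J' u')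
    have h2 := hend J u h1
    rw [e] at h1
    have h3 := hend J' u' h1
    refine ⟨?_, h2⟩
    have hen := en_ne (W0 := W0) z o
    rcases h2 with rfl | rfl <;> rcases h3 with rfl | rfl
    · rfl
    · rw [hk0, hkp] at e; exact absurd e hen
    · rw [hk0, hkp] at e; exact absurd e.symm hen
    · rfl
  -- two pages meet in the ends
  have hgd : ∀ (J J' : S) u u', g J u = g J' u' → J ≠ J' → u = u' ∧ (u = h.v0 ∨ u = h.p) := by
    intro J J' u u' e hJJ
    have hJ := (hS J.1).1 J.2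
    have hJ' := (hS J'.1).1 J'.2
    have hab : g J u = a ∨ g J u = b := by
      by_contra hcon
      push Not at hcon
      obtain ⟨e1, he1, hu1⟩ := hh.hv u
      obtain ⟨e2, he2, hu2⟩ := hh.hv u'
      have m1 : Sym2.map (g J) e1 ∈ J.1 := by rw [← hgim J]; exact mem_im.2 ⟨e1, he1, rfl⟩
      have m2 : Sym2.map (g J') e2 ∈ J'.1 := by rw [← hgim J']; exact mem_im.2 ⟨e2, he2, rfl⟩
      have v1 : g J u ∈ Sym2.map (g J) e1 := Sym2.mem_map.2 ⟨u, hu1, rfl⟩
      have v2 : g J u ∈ Sym2.map (g J') e2 := by rw [e]; exact Sym2.mem_map.2 ⟨u', hu2, rfl⟩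
      have n1 : Sym2.map (g J) e1 ≠ s(a, b) := by
        intro hh'
        rw [hh', Sym2.mem_iff] at v1
        exact v1.elim hcon.1 hcon.2
      have n2 : Sym2.map (g J') e2 ≠ s(a, b) := by
        intro hh'
        rw [hh', Sym2.mem_iff] at v2
        exact v2.elim hcon.1 hcon.2
      have n3 : Sym2.map (g J') e2 ∉ J.1 := by
        intro hm
        exact n2 (hh.pg J.1 J'.1 (hJ.2.cp fun e he => hJ.1 he) (hJ'.2.cp fun e he => hJ'.1 he)
          (fun hh' => hJJ (Subtype.ext hh')) _ hm m2)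
      exact (hcl J.1 J.2 _ m1 n1 _ (hJ'.1 m2) n3 _ v1 v2).elim hcon.1 hcon.2
    rcases hab with h1 | h1
    · have h2 : u = h.v0 := hgi J (h1.trans (hg0 J).symm)
      have h3 : u' = h.v0 := hgi J' (e.symm.trans (h1.trans (hg0 J').symm))
      exact ⟨h2.trans h3.symm, .inl h2⟩
    · have h2 : u = h.p := hgi J (h1.trans (hgp J).symm)
      have h3 : u' = h.p := hgi J' (e.symm.trans (h1.trans (hgp J').symm))
      exact ⟨h2.trans h3.symm, .inr h2⟩
  -- the embedding
  have hθ : ∀ w, ∃ t : TV Y W0 Kp W, (∀ (J : S) u, g J u = w → t = .inl (k J u)) ∧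
      ((∀ (J : S) u, g J u ≠ w) → t = ph a b z o κ w) := by
    intro w
    by_cases hw : ∃ (J : S) (u : W0), g J u = w
    · obtain ⟨J, u, rfl⟩ := hw
      refine ⟨.inl (k J u), ?_, fun hc => (hc J u rfl).elim⟩
      intro J' u' e
      by_cases hJJ : J' = J
      · subst hJJ
        rw [hgi J' e]
      · obtain ⟨rfl, h2⟩ := hgd J' J u' u e hJJ
        rcases h2 with rfl | rfl
        · rw [hk0, hk0]
        · rw [hkp, hkp]
    · push Not at hw
      exact ⟨_, fun J u e => (hw J u e).elim, fun _ => rfl⟩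
  choose θ hθ1 hθ2 using hθ
  have hθg : ∀ (J : S) u, θ (g J u) = .inl (k J u) := fun J u => hθ1 _ J u rfl
  obtain ⟨J0, hJ0⟩ := hne
  have hθa : θ a = .inl (en z o) := by
    have := hθg ⟨J0, hJ0⟩ h.v0
    rwa [hg0, hk0] at this
  have hθb : θ b = .inl (en z (!o)) := by
    have := hθg ⟨J0, hJ0⟩ h.p
    rwa [hgp, hkp] at this
  have hθn : ∀ w, (w = a ∨ w = b ∨ ∀ (J : S) u, g J u ≠ w) → θ w = ph a b z o κ w := by
    rintro w (rfl | rfl | hw)
    · rw [hθa, ph_a]
    · rw [hθb, ph_b hh.hab]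
    · exact hθ2 w hw
  refine contained_of θ ?_ ?_
  · intro w w' e
    by_cases hw : ∃ (J : S) (u : W0), g J u = w
    · by_cases hw' : ∃ (J : S) (u : W0), g J u = w'
      · obtain ⟨J, u, rfl⟩ := hw
        obtain ⟨J', u', rfl⟩ := hw'
        rw [hθg, hθg] at e
        have e' := TV.inl_injective e
        by_cases hJJ : J = J'
        · subst hJJ
          rw [hki J e']
        · obtain ⟨rfl, h2⟩ := hkd J J' u u' e' hJJ
          rcases h2 with rfl | rfl
          · rw [hg0, hg0]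
          · rw [hgp, hgp]
      · push Not at hw'
        exfalso
        obtain ⟨J, u, rfl⟩ := hw
        have hwa : w' ≠ a := by rintro rfl; exact hw' ⟨J0, hJ0⟩ h.v0 (hg0 _)
        have hwb : w' ≠ b := by rintro rfl; exact hw' ⟨J0, hJ0⟩ h.p (hgp _)
        rw [hθg, hθ2 w' hw', ph_ne z o κ hwa hwb] at e
        cases e
    · push Not at hw
      by_cases hw' : ∃ (J : S) (u : W0), g J u = w'
      · exfalso
        obtain ⟨J, u, rfl⟩ := hw'
        have hwa : w ≠ a := by rintro rfl; exact hw ⟨J0, hJ0⟩ h.v0 (hg0 _)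
        have hwb : w ≠ b := by rintro rfl; exact hw ⟨J0, hJ0⟩ h.p (hgp _)
        rw [hθg, hθ2 w hw, ph_ne z o κ hwa hwb] at e
        cases e
      · push Not at hw'
        rw [hθ2 w hw, hθ2 w' hw'] at e
        exact ph_inj hh.hab z o κ e
  · intro w w' hww
    have he : s(w, w') ∈ E := (hE _).2 hww
    change s(θ w, θ w') ∈ F.edgeSet
    rw [← Sym2.map_mk]
    rcases hcov _ he with ⟨h1, h2⟩ | ⟨J, hJ, h1⟩
    · have key : ∀ v ∈ s(w, w'), θ v = ph a b z o κ v := by
        intro v hv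
        apply hθn
        by_contra hcon
        push Not at hcon
        obtain ⟨c1, c2, J, u, rfl⟩ := hcon
        obtain ⟨e1, he1, hu1⟩ := hh.hv u
        have m1 : Sym2.map (g J) e1 ∈ J.1 := by rw [← hgim J]; exact mem_im.2 ⟨e1, he1, rfl⟩
        have v1 : g J u ∈ Sym2.map (g J) e1 := Sym2.mem_map.2 ⟨u, hu1, rfl⟩
        have n1 : Sym2.map (g J) e1 ≠ s(a, b) := by
          intro hh'
          rw [hh', Sym2.mem_iff] at v1
          exact v1.elim c1 c2
        exact (hcl J.1 J.2 _ m1 n1 _ he (h2 J.1 J.2) _ v1 hv).elim c1 c2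
      rw [Sym2.map_mk, key w (Sym2.mem_mk_left _ _), key w' (Sym2.mem_mk_right _ _), ← Sym2.map_mk]
      exact hP _ h1
    · have h1' : s(w, w') ∈ im (g ⟨J, hJ⟩) h.E := by rw [hgim]; exact h1
      obtain ⟨e', he', h3⟩ := mem_im.1 h1'
      have h4 : Sym2.map θ s(w, w') = Sym2.map TV.inl (Sym2.map (k ⟨J, hJ⟩) e') := by
        rw [← h3, Sym2.map_map, Sym2.map_map]
        congr 1
        funext u
        exact hθg _ u
      rw [h4]
      exact hF0 _ (hkF ⟨J, hJ⟩ _ (mem_im.2 ⟨e', he', rfl⟩))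

end

end Pool.Agent.P8H52.SM
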