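import Pool.Agent.P8H52.SM.T3c

/-!
# The failure theorem for graphs with one separating edge
-/

open Finset SimpleGraph
open scoped Classical symmDiff

namespace Pool.Agent.P8H52.SM

open Pool.Agent.H165R2.SM Pool.Agent.H165R2.SM.HV Pool.Agent.H165R2.SM.Dat
  Pool.Agent.Results.MP_fc2b6d_co.Forests

theorem HG_nd {Y W0 W Kp : Type} {h : Dat Y W0} {E P : Finset (Sym2 W)} {a b : W} {oo : Prop}
    {π : Lex (ℕ → ℕ)} (hh : Ass h E P a b oo π) {e : Sym2 (TV Y W0 Kp W)}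
    (he : e ∈ (HG a b P oo h.Gs : Set (Sym2 (TV Y W0 Kp W)))) : ¬ e.IsDiag := by
  rcases he with ⟨e', h1, rfl⟩ | ⟨z, o, κ, -, e', h1, rfl⟩
  · rw [isDiag_map' TV.inl_injective]; exact h.Gs_nd h1
  · rw [isDiag_map' (ph_inj hh.hab z o κ)]; exact (hh.hPd e' h1).1

theorem main_fail {W W0 : Type} {H : SimpleGraph W} {E : Finset (Sym2 W)}
    (hE : ∀ e, e ∈ E ↔ e ∈ H.edgeSet) (hCC : CC E) {a b : W} (hab : s(a, b) ∈ E)
    (hsep : ∀ c d, s(c, d) ∈ E → s(c, d) ≠ s(a, b) → ¬ Sep E c d)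
    {π : Lex (ℕ → ℕ)} (hB : ∀ N, Bd N π (E : Set (Sym2 W))) {E0 : Finset (Sym2 W0)}
    (hT : Tt E0) (hmax : ∃ e ∈ E0, pf E0 e = π) (hv : ∀ u : W0, ∃ e ∈ E0, u ∈ e)
    (hE0 : ∀ e ∈ E0, pf E0 e ≤ π) {v0 p : W0} (hp : s(v0, p) ∈ E0)
    {S S' : Finset (Finset (Sym2 W))} (hS : ∀ J, J ∈ S ↔ J ⊆ E ∧ Ro E0 v0 p J a b)
    (hS' : ∀ J, J ∈ S' ↔ J ⊆ E ∧ Ro E0 v0 p J b a) (hne : S.Nonempty)
    (hoo : S' = ∅ ∨ S.card ≤ S'.card) : Fail H := by
  have hab' : a ≠ b := by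
    rintro rfl
    exact hCC.nd _ hab (by simp)
  -- another neighbour of `v0`
  obtain ⟨q, hpq, hq⟩ : ∃ q, p ≠ q ∧ s(v0, q) ∈ E0 := by
    obtain ⟨C, h1, h2, h3, -⟩ := hT.cc _ hp _ hp
    obtain ⟨g, h4, h5, h6⟩ := Ev_other h2.2.1 h3 (v := v0) (Sym2.mem_mk_left _ _)
    obtain ⟨q, rfl⟩ := Sym2.mem_iff_exists.1 h6
    refine ⟨q, ?_, h1 h4⟩
    rintro rfl
    exact h5 rfl
  obtain ⟨A, hU, hA⟩ := exists_conflict E0.card
  obtain ⟨M, hM⟩ : ∃ M, S.card = M + 1 := ⟨S.card - 1, by have := hne.card_pos; omega⟩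
  let h : Dat (Cx ⊕ Cx × Fin M) W0 :=
    { A := ext A M
      n := 2 * (E0.card + 1)
      hn := by omega
      acyc := ext_acyc hA
      E := E0
      nd := hT.nd
      v0 := v0
      p := p
      q := q
      hpq := hpq
      hp := hp
      hq := hq }
  obtain ⟨P, hP⟩ : ∃ P : Finset (Sym2 W), ∀ e, e ∈ P ↔ e ∈ E ∧ ∀ J ∈ S, e ∉ J :=
    ⟨E.filter (fun e => ∀ J ∈ S, e ∉ J), fun e => mem_filter⟩
  have hmaxJ : ∀ J, Cp E0 (E : Set (Sym2 W)) J → s(a, b) ∈ J ∧ Cl E a b (J.erase s(a, b)) ∧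
      ∃ e ∈ J, e ≠ s(a, b) ∧ ∀ A, Cl E a b A → e ∈ A → J.erase s(a, b) ⊆ A := by
    intro J hJ
    exact page_of_max hCC hab hsep hB (fun e he => hJ.2 e he) (hJ.tt hT) (hJ.max hmax)
  have hSc : ∀ J ∈ S, Cp E0 (E : Set (Sym2 W)) J := by
    intro J hJ
    have := (hS J).1 hJ
    exact this.2.cp (fun e he => this.1 he)
  obtain ⟨J0, hJ0⟩ := hne
  have hh : Ass h E P a b (S' = ∅) π := by
    refine ⟨hab', hab, fun e he => ((hP e).1 he).1, ?_, ?_, hE0, hmax, hT, hv, hB _, ?_, ?_, ?_, ?_⟩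
    · intro e he
      have := (hP e).1 he
      refine ⟨hCC.nd e this.1, ?_⟩
      rintro rfl
      exact this.2 J0 hJ0 (hmaxJ J0 (hSc J0 hJ0)).1
    · change E0.card ≤ 2 * (E0.card + 1)
      omega
    · intro J hJ hr
      have hJE : J ⊆ E := by
        intro g hg
        rcases mem_insert.1 (hJ hg) with rfl | hg
        · exact hab
        · exact ((hP g).1 hg).1
      have hJS : J ∈ S := (hS J).2 ⟨hJE, hr⟩
      obtain ⟨e, he, hne⟩ := ((hSc J hJS).tt hT).toCC.exists_ne (hr.mem hp) s(a, b)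
      have := (hP e).1 ((mem_insert.1 (hJ he)).resolve_left hne)
      exact this.2 J hJS he
    · intro ho J hJ hr
      have hJE : J ⊆ E := by
        intro g hg
        rcases mem_insert.1 (hJ hg) with rfl | hg
        · exact hab
        · exact ((hP g).1 hg).1
      have hJS : J ∈ S' := (hS' J).2 ⟨hJE, hr⟩
      rw [ho] at hJS
      exact notMem_empty _ hJS
    · exact fun J hJ => (hmaxJ J hJ).1
    · intro J1 J2 h1 h2 hne e he1 he2
      by_contra hcon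
      obtain ⟨c1, c2, e1, c3, c4, c5⟩ := hmaxJ J1 h1
      obtain ⟨d1, d2, e2, d3, d4, d5⟩ := hmaxJ J2 h2
      have key : ∀ J1 J2 : Finset (Sym2 W), e ∈ J1 → e ∈ J2 → Cl E a b (J2.erase s(a, b)) →
          (∃ e1 ∈ J1, e1 ≠ s(a, b) ∧ ∀ A, Cl E a b A → e1 ∈ A → J1.erase s(a, b) ⊆ A) →
          J1 ⊆ E → J1.erase s(a, b) ⊆ J2.erase s(a, b) := by
        intro J1 J2 he1 he2 hc2 hx hJE
        obtain ⟨e1, c3, c4, c5⟩ := hx
        by_cases h3 : e1 ∈ J2.erase s(a, b)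
        · exact c5 _ hc2 h3
        · exfalso
          have h4 := c5 _ hc2.compl (mem_sdiff.2 ⟨mem_erase.2 ⟨c4, hJE c3⟩, h3⟩)
            (mem_erase.2 ⟨hcon, he1⟩)
          exact (mem_sdiff.1 h4).2 (mem_erase.2 ⟨hcon, he2⟩)
      have k1 := key J1 J2 he1 he2 d2 ⟨e1, c3, c4, c5⟩ (fun e he => h1.2 e he)
      have k2 := key J2 J1 he2 he1 c2 ⟨e2, d3, d4, d5⟩ (fun e he => h2.2 e he)
      apply hne
      rw [← insert_erase c1, ← insert_erase d1, k1.antisymm k2]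
  have hcov : ∀ e ∈ E, (e ∈ P ∧ ∀ J ∈ S, e ∉ J) ∨ ∃ J ∈ S, e ∈ J := by
    intro e he
    by_cases h1 : ∃ J ∈ S, e ∈ J
    · exact .inr h1
    · push Not at h1
      exact .inl ⟨(hP e).2 ⟨he, h1⟩, h1⟩
  have hcl : ∀ J ∈ S, ∀ e1 ∈ J, e1 ≠ s(a, b) → ∀ e2 ∈ E, e2 ∉ J → ∀ w, w ∈ e1 → w ∈ e2 →
      w = a ∨ w = b := by
    intro J hJ e1 h1 h2 e2 h3 h4 w h5 h6
    obtain ⟨c1, c2, -⟩ := hmaxJ J (hSc J hJ)
    refine c2.2.com w ⟨e1, mem_erase.2 ⟨h2, h1⟩, h5⟩ ⟨e2, ?_, h6⟩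
    rw [mem_sdiff, mem_erase, mem_erase]
    refine ⟨⟨?_, h3⟩, fun h => h4 h.2⟩
    rintro rfl
    exact h4 c1
  -- the host
  let Kp := Set (Sym2 (HV (Cx ⊕ Cx × Fin M) W0))
  obtain ⟨G, hG⟩ : ∃ G : SimpleGraph (TV (Cx ⊕ Cx × Fin M) W0 Kp W),
      G.edgeSet = HG a b P (S' = ∅) h.Gs := by
    refine ⟨SimpleGraph.fromEdgeSet (HG a b P (S' = ∅) h.Gs), ?_⟩
    rw [SimpleGraph.edgeSet_fromEdgeSet]
    ext e
    exact ⟨fun he => he.1, fun he => ⟨he, HG_nd hh he⟩⟩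
  have hIe : ∀ I0 : SimpleGraph (HV (Cx ⊕ Cx × Fin M) W0), I0 ≤ h.G →
      ∃ I ≤ G, I.edgeSet = HG a b P (S' = ∅) I0.edgeSet := by
    intro I0 hI0
    have hsub : I0.edgeSet ⊆ h.Gs := by
      rw [← h.G_edge]; exact SimpleGraph.edgeSet_subset_edgeSet.2 hI0
    have he : (SimpleGraph.fromEdgeSet (HG a b P (S' = ∅) I0.edgeSet) :
        SimpleGraph (TV (Cx ⊕ Cx × Fin M) W0 Kp W)).edgeSet = HG a b P (S' = ∅) I0.edgeSet := by
      rw [SimpleGraph.edgeSet_fromEdgeSet]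
      ext e
      exact ⟨fun he => he.1, fun he => ⟨he, HG_nd hh (HG_mono hsub he)⟩⟩
    refine ⟨_, ?_, he⟩
    rw [← SimpleGraph.edgeSet_subset_edgeSet, he, hG]
    exact HG_mono hsub
  refine ⟨_, G, fun F hF hfree => ?_⟩
  have hFG : ∀ e ∈ F.edgeSet, e ∈ HG a b P (S' = ∅) h.Gs := by
    intro e he
    rw [← hG]
    exact SimpleGraph.edgeSet_subset_edgeSet.2 hF he
  obtain ⟨F0, hF0⟩ : ∃ F0 : SimpleGraph (HV (Cx ⊕ Cx × Fin M) W0), ∀ e, e ∈ F0.edgeSet ↔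
      Sym2.map TV.inl e ∈ F.edgeSet := by
    refine ⟨F.comap TV.inl, fun e => ?_⟩
    induction e using Sym2.ind with
    | _ u v => rfl
  have hF0G : F0 ≤ h.G := by
    rw [← SimpleGraph.edgeSet_subset_edgeSet, h.G_edge]
    intro e he
    exact hh.mem_inl (hFG _ ((hF0 e).1 he))
  by_cases hbd : (∀ z, ¬ CntP h (po h true) (pi h true) F0 z S.card) ∧
      (S' = ∅ → ∀ z, ¬ CntP h (po h false) (pi h false) F0 z S.card)
  · obtain ⟨I0, hI0, hpres, hlt⟩ := exchangeC (A := A) h (fun _ _ => Iff.rfl) (fun _ _ => Iff.rfl)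
      (fun _ _ => id) hU F0 hF0G (by
        rintro z ⟨s, hs1, hs2⟩
        refine hbd.1 z ⟨s, by rw [hs1, hM], fun r hr => ?_⟩
        obtain ⟨k1, k2⟩ := hs2 r hr
        refine ⟨k1, ?_⟩
        rcases k2 with ⟨-, k2⟩ | ⟨k2, -⟩
        · exact .inl ⟨po_true h, k2⟩
        · exact k2.elim)
    obtain ⟨I, hIG, hI⟩ := hIe I0 hI0
    refine ⟨I, hIG, hh.free hE hI0 hS hS' hoo ⟨J0, hJ0⟩ ?_ ?_ hI.subset, ?_⟩
    · rw [hM] at hbd ⊢
      exact hpres _ _ hbd.1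
    · intro ho
      rw [hM] at hbd ⊢
      exact hpres _ _ (hbd.2 ho)
    · have c1 : F.edgeSet \ I.edgeSet ⊆ Sym2.map TV.inl '' (F0.edgeSet \ I0.edgeSet) := by
        rintro e ⟨he, heI⟩
        rcases hFG e he with ⟨e', h1, rfl⟩ | h1
        · refine ⟨e', ⟨(hF0 e').2 he, fun h2 => heI ?_⟩, rfl⟩
          rw [hI]
          exact .inl ⟨e', h2, rfl⟩
        · exfalso
          apply heI
          rw [hI]
          exact .inr h1
      have c2 : Sym2.map TV.inl '' (I0.edgeSet \ F0.edgeSet) ⊆ I.edgeSet \ F.edgeSet := by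
        rintro _ ⟨e, ⟨h1, h2⟩, rfl⟩
        refine ⟨?_, fun h3 => h2 ((hF0 e).2 h3)⟩
        rw [hI]
        exact .inl ⟨e, h1, rfl⟩
      refine lt_of_le_of_lt (Cardinal.mk_le_mk_of_subset c1)
        (lt_of_lt_of_le ?_ (Cardinal.mk_le_mk_of_subset c2))
      rw [Cardinal.mk_image_eq (Sym2.map.injective TV.inl_injective),
        Cardinal.mk_image_eq (Sym2.map.injective TV.inl_injective)]
      exact hlt
  · obtain ⟨z, o, ho, hcnt⟩ : ∃ z o, (o = true ∨ S' = ∅) ∧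
        CntP h (po h o) (pi h o) F0 z S.card := by
      rw [not_and_or] at hbd
      rcases hbd with hb | hb
      · push Not at hb
        obtain ⟨z, hz⟩ := hb
        exact ⟨z, true, .inl rfl, hz⟩
      · push Not at hb
        obtain ⟨ho, z, hz⟩ := hb
        exact ⟨z, false, .inr ho, hz⟩
    have hmiss : ∀ κ : Kp, ∃ e ∈ P, Sym2.map (ph a b z o κ) e ∉ F.edgeSet := by
      intro κ
      by_contra hcon
      push Not at hcon
      exact hfree (hh.emb hE hS ⟨J0, hJ0⟩ hcov hcl (fun e he => (hF0 e).1 he) hcnt hcon)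
    choose ee hee1 hee2 using hmiss
    obtain ⟨I, hIG, hI⟩ := hIe ⊥ bot_le
    have hbot : ∀ po pi z, ¬ CntP h po pi (⊥ : SimpleGraph (HV (Cx ⊕ Cx × Fin M) W0)) z S.card := by
      rintro po pi z ⟨s, hs1, hs2⟩
      obtain ⟨r, hr⟩ : s.Nonempty := by
        rw [← card_pos, hs1, hM]; omega
      have := (hs2 r hr).1.2 _ (h.ch_T1 _ _)
      rw [SimpleGraph.edgeSet_bot] at this
      exact this
    refine ⟨I, hIG, hh.free hE bot_le hS hS' hoo ⟨J0, hJ0⟩ (hbot _ _) (fun _ => hbot _ _)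
      hI.subset, ?_⟩
    have c1 : F.edgeSet \ I.edgeSet ⊆ Set.range (Sym2.map TV.inl) := by
      rintro e ⟨he, heI⟩
      rcases hFG e he with ⟨e', h1, rfl⟩ | h1
      · exact ⟨e', rfl⟩
      · exfalso
        apply heI
        rw [hI]
        exact .inr h1
    have c2 : Cardinal.mk Kp ≤ Cardinal.mk ↥(I.edgeSet \ F.edgeSet) := by
      refine Cardinal.mk_le_of_injective (f := fun κ : Kp =>
        (⟨Sym2.map (ph a b z o κ) (ee κ), ?_, hee2 κ⟩ : ↥(I.edgeSet \ F.edgeSet))) ?_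
      · rw [hI]
        exact .inr ⟨z, o, κ, ho, _, hee1 κ, rfl⟩
      · intro κ κ' e
        have e1 := congrArg Subtype.val e
        simp only at e1
        have hPd := hh.hPd (ee κ) (hee1 κ)
        obtain ⟨w, hw⟩ := ph_inner (W0 := W0) hPd.1 hPd.2 z o κ
        rw [e1] at hw
        rcases ph_vert hw with k | k | ⟨w', k⟩
        · cases k
        · cases k
        · have := TV.inr_injective k
          simp only [Prod.mk.injEq] at this
          exact this.2.2.1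
    refine lt_of_le_of_lt (Cardinal.mk_le_mk_of_subset c1)
      (lt_of_le_of_lt Cardinal.mk_range_le (lt_of_lt_of_le ?_ c2))
    rw [Cardinal.mk_set]
    exact Cardinal.cantor _

end Pool.Agent.P8H52.SM
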