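import Pool.Agent.P8H52.SM.T3d

/-!
# 2-connected graphs with at most one separating edge fail
-/

open Finset SimpleGraph
open scoped Classical symmDiff

namespace Pool.Agent.P8H52.SM

open Pool.Agent.H165R2.SM Pool.Agent.Results.MP_fc2b6d_co.Forests

/-- 2-connected finite graphs with at most one separating edge `ab` fail -/
theorem oneSep_fail {W : Type} [Finite W] {H : SimpleGraph W}
    (h3 : ∃ a b c : W, a ≠ b ∧ a ≠ c ∧ b ≠ c) (hconn : H.Preconnected)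
    (hcut : ∀ v : W, (H.induce {v}ᶜ).Preconnected) {a b : W} (hab : H.Adj a b)
    (hsep : ∀ c d : W, H.Adj c d → s(c, d) ≠ s(a, b) → (H.induce {c, d}ᶜ).Preconnected) :
    Fail H := by
  have hfin : H.edgeSet.Finite := Set.toFinite _
  obtain ⟨E, hE⟩ : ∃ E : Finset (Sym2 W), ∀ e, e ∈ E ↔ e ∈ H.edgeSet :=
    ⟨hfin.toFinset, fun e => hfin.mem_toFinset⟩
  have hCC : CC E := ⟨fun e he => H.not_isDiag_of_mem_edgeSet ((hE e).1 he),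
    Rl_all hE hconn hcut h3⟩
  have habE : s(a, b) ∈ E := (hE _).2 hab
  have hsepE : ∀ c d, s(c, d) ∈ E → s(c, d) ≠ s(a, b) → ¬ Sep E c d := fun c d hcd hne =>
    not_sep hE (hsep c d ((hE _).1 hcd) hne)
  -- a tight subset of maximal profile
  obtain ⟨Q, hQ⟩ : ∃ Q : Finset (Finset (Sym2 W) × Sym2 W),
      ∀ r, r ∈ Q ↔ (r.1 ⊆ E ∧ Tt r.1) ∧ r.2 ∈ r.1 := by
    refine ⟨(E.powerset ×ˢ E).filter (fun r => Tt r.1 ∧ r.2 ∈ r.1), fun r => ?_⟩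
    rw [mem_filter, mem_product, mem_powerset]
    constructor
    · rintro ⟨⟨h1, -⟩, h2, h3⟩; exact ⟨⟨h1, h2⟩, h3⟩
    · rintro ⟨⟨h1, h2⟩, h3⟩; exact ⟨⟨h1, h1 h3⟩, h2, h3⟩
  have hQne : Q.Nonempty := by
    obtain ⟨e, he, hne⟩ := hCC.exists_ne habE s(a, b)
    obtain ⟨P, h1, h2, h3, h4, -⟩ := exists_page hCC habE hsepE he hne
    exact ⟨(P, e), (hQ _).2 ⟨⟨h1, h4⟩, h3⟩⟩
  obtain ⟨⟨K, e0⟩, hK, hmaxK⟩ := exists_max_image Q (fun r => pf r.1 r.2) hQne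
  obtain ⟨⟨hKE, hKT⟩, he0⟩ := (hQ _).1 hK
  simp only at hKE hKT he0
  have hB : ∀ N, Bd N (pf K e0) (E : Set (Sym2 W)) := by
    intro N J hJE _ hJ e he
    exact hmaxK (J, e) ((hQ _).2 ⟨⟨fun g hg => hJE g hg, hJ⟩, he⟩)
  -- the graph on its vertices
  obtain ⟨W0, ι, hval, hran⟩ : ∃ (W0 : Type) (ι : W0 → W), Function.Injective ι ∧
      ∀ w, (∃ u, ι u = w) ↔ ∃ e ∈ K, w ∈ e :=
    ⟨{v : W // ∃ e ∈ K, v ∈ e}, Subtype.val, Subtype.val_injective, fun w =>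
      ⟨fun ⟨u, hu⟩ => hu ▸ u.2, fun hw => ⟨⟨w, hw⟩, rfl⟩⟩⟩
  obtain ⟨E0, hE0⟩ : ∃ E0 : Finset (Sym2 W0), im ι E0 = K := by
    have : Finite W0 := Finite.of_injective ι hval
    have hsub : K ⊆ (Set.toFinite (Set.univ : Set (Sym2 W0))).toFinset.image
        (Sym2.map ι) := by
      intro e he
      rw [mem_image]
      induction e using Sym2.ind with
      | _ u v =>
        obtain ⟨u', rfl⟩ := (hran u).2 ⟨_, he, Sym2.mem_mk_left _ _⟩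
        obtain ⟨v', rfl⟩ := (hran v).2 ⟨_, he, Sym2.mem_mk_right _ _⟩
        exact ⟨s(u', v'), by simp, rfl⟩
    obtain ⟨E0, -, h2⟩ := subset_image_iff.1 hsub
    exact ⟨E0, h2⟩
  have hT : Tt E0 := (Tt_im hval).1 (by rw [hE0]; exact hKT)
  have hmem : ∀ e, e ∈ E0 ↔ Sym2.map ι e ∈ K := by
    intro e
    rw [← hE0, mem_im]
    constructor
    · exact fun h => ⟨e, h, rfl⟩
    · rintro ⟨e', h1, h2⟩
      rwa [← Sym2.map.injective hval h2]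
  have hmax : ∃ e ∈ E0, pf E0 e = pf K e0 := by
    have h1 : e0 ∈ im ι E0 := by rw [hE0]; exact he0
    obtain ⟨e, he, h2⟩ := mem_im.1 h1
    refine ⟨e, he, ?_⟩
    rw [← h2, ← pf_im hval E0 e, hE0]
  have hle : ∀ e ∈ E0, pf E0 e ≤ pf K e0 := by
    intro e he
    rw [← pf_im hval E0 e, hE0]
    exact hmaxK (K, _) ((hQ _).2 ⟨⟨hKE, hKT⟩, (hmem e).1 he⟩)
  have hv : ∀ u : W0, ∃ e ∈ E0, u ∈ e := by
    intro u
    obtain ⟨e, he, hu⟩ := (hran (ι u)).1 ⟨u, rfl⟩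
    rw [← hE0] at he
    obtain ⟨e', he', rfl⟩ := mem_im.1 he
    obtain ⟨u', hu', h2⟩ := Sym2.mem_map.1 hu
    exact ⟨e', he', by rwa [← hval h2]⟩
  obtain ⟨hKab, -, -⟩ := page_of_max hCC habE hsepE hB hKE hKT ⟨e0, he0, rfl⟩
  obtain ⟨v0, hv0⟩ := (hran a).2 ⟨_, hKab, Sym2.mem_mk_left _ _⟩
  obtain ⟨p, hp⟩ := (hran b).2 ⟨_, hKab, Sym2.mem_mk_right _ _⟩
  have hvp : s(v0, p) ∈ E0 := by
    rw [hmem, Sym2.map_mk, hv0, hp]
    exact hKab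
  obtain ⟨S, hS⟩ : ∃ S : Finset (Finset (Sym2 W)), ∀ J, J ∈ S ↔ J ⊆ E ∧ Ro E0 v0 p J a b :=
    ⟨E.powerset.filter (fun J => Ro E0 v0 p J a b), fun J => by rw [mem_filter, mem_powerset]⟩
  obtain ⟨S', hS'⟩ : ∃ S' : Finset (Finset (Sym2 W)), ∀ J, J ∈ S' ↔ J ⊆ E ∧ Ro E0 v0 p J b a :=
    ⟨E.powerset.filter (fun J => Ro E0 v0 p J b a), fun J => by rw [mem_filter, mem_powerset]⟩
  have hKS : K ∈ S := (hS K).2 ⟨hKE, ι, hval, hE0, hv0, hp⟩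
  by_cases hoo : S' = ∅ ∨ S.card ≤ S'.card
  · exact main_fail hE hCC habE hsepE hB hT hmax hv hle hvp hS hS' ⟨K, hKS⟩ hoo
  · rw [not_or, not_le, ← ne_eq, ← nonempty_iff_ne_empty] at hoo
    have hba : s(b, a) = s(a, b) := Sym2.eq_swap
    exact main_fail hE hCC (a := b) (b := a) (by rw [hba]; exact habE) (by rw [hba]; exact hsepE) hB
      hT hmax hv hle hvp hS' hS hoo.1 (.inr hoo.2.le)

end Pool.Agent.P8H52.SM

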