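import Pool.Agent.H165R2.SM6

/-!
# Tight edge sets and circuit profiles
-/

open Finset
open scoped Classical symmDiff

namespace Pool.Agent.P8H52.SM

open Pool.Agent.H165R2.SM

section
variable {V : Type}

/-- two disjoint edge sets whose common vertices are among `s`, `t` -/
structure Spl (A B : Finset (Sym2 V)) (s t : V) : Prop where
  dis : Disjoint A B
  com : ∀ v, (∃ e ∈ A, v ∈ e) → (∃ e ∈ B, v ∈ e) → v = s ∨ v = t

theorem Spl.symm {A B : Finset (Sym2 V)} {s t : V} (h : Spl A B s t) : Spl B A s t :=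
  ⟨h.dis.symm, fun v h1 h2 => h.com v h2 h1⟩

/-- 2-connected edge sets -/
structure CC (J : Finset (Sym2 V)) : Prop where
  nd : ∀ e ∈ J, ¬ e.IsDiag
  cc : ∀ e ∈ J, ∀ g ∈ J, Rl J e g

/-- 2-connected edge sets without separating edge -/
structure Tt (J : Finset (Sym2 V)) : Prop extends CC J where
  ns : ∀ a b, s(a, b) ∈ J → ¬ Sep J a b

/-- the numbers of circuits through `e` -/
noncomputable def pf (J : Finset (Sym2 V)) (e : Sym2 V) : Lex (ℕ → ℕ) :=
  toLex (fun l => (circs J e l).card)

theorem lex_lt_of {f g : ℕ → ℕ} {l : ℕ} (h1 : ∀ m ≤ l, f m ≤ g m) (h2 : f l < g l) :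
    toLex f < toLex g := by
  have hex : ∃ i, f i < g i := ⟨l, h2⟩
  refine ⟨Nat.find hex, ?_, Nat.find_spec hex⟩
  intro j hj
  have h3 : ¬ f j < g j := Nat.find_min hex hj
  have h4 : Nat.find hex ≤ l := Nat.find_min' hex h2
  have h5 := h1 j (by omega)
  change f j = g j
  omega

theorem circs_mono {J J' : Finset (Sym2 V)} (h : J ⊆ J') (e : Sym2 V) (l : ℕ) :
    circs J e l ⊆ circs J' e l := by
  intro C hC
  rw [mem_circs] at hC ⊢
  exact ⟨hC.1.trans h, hC.2⟩

theorem pf_mono {J J' : Finset (Sym2 V)} (h : J ⊆ J') (e : Sym2 V) : pf J e ≤ pf J' e :=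
  Pi.toLex_monotone fun l => card_le_card (circs_mono h e l)

theorem pf_lt {J J' : Finset (Sym2 V)} (h : J ⊆ J') {e : Sym2 V} {C : Finset (Sym2 V)}
    (hC : Circ C) (hC' : C ⊆ J') (he : e ∈ C) (hn : ¬ C ⊆ J) : pf J e < pf J' e := by
  refine lex_lt_of (l := C.card) (fun m _ => card_le_card (circs_mono h e m)) ?_
  refine card_lt_card ⟨circs_mono h e _, fun hh => hn ?_⟩
  exact (mem_circs.1 (hh (mem_circs.2 ⟨hC', hC, he, rfl⟩))).1

theorem pf_im {V' : Type} {f : V → V'} (hf : Function.Injective f) (E : Finset (Sym2 V))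
    (e : Sym2 V) : pf (im f E) (Sym2.map f e) = pf E e := by
  rw [pf, pf]
  congr 1
  funext l
  exact card_circs_im hf E e l

/-- one side of a separation at an edge -/
theorem CC.side {J A B : Finset (Sym2 V)} {u v : V} (hJ : CC J) (huv : u ≠ v)
    (hun : J.erase s(u, v) = A ∪ B) (hsp : Spl A B u v) (hA : A.Nonempty) (hB : B.Nonempty) :
    CC (insert s(u, v) A) := by
  have hsub : ∀ e ∈ A, e ∈ J := fun e he => by
    have : e ∈ J.erase s(u, v) := by rw [hun]; exact mem_union_left _ he
    exact mem_of_mem_erase this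
  have hsubB : ∀ e ∈ B, e ∈ J := fun e he => by
    have : e ∈ J.erase s(u, v) := by rw [hun]; exact mem_union_right _ he
    exact mem_of_mem_erase this
  have hnA : s(u, v) ∉ A := fun h => by
    have : s(u, v) ∈ J.erase s(u, v) := by rw [hun]; exact mem_union_left _ h
    exact notMem_erase _ _ this
  have hnB : s(u, v) ∉ B := fun h => by
    have : s(u, v) ∈ J.erase s(u, v) := by rw [hun]; exact mem_union_right _ h
    exact notMem_erase _ _ this
  obtain ⟨b, hb⟩ := hB
  have key : ∀ g ∈ A, Rl (insert s(u, v) A) g s(u, v) := by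
    intro g hg
    obtain ⟨C, hC, hCC, hgC, hbC⟩ := hJ.cc g (hsub g hg) b (hsubB b hb)
    have hd : ∀ e ∈ C, ¬ e.IsDiag := fun e he => hJ.nd e (hC he)
    have huC : s(u, v) ∉ C := by
      intro huC
      refine Circ.no_cross (A := C ∩ A) (B := C ∩ B) huv hd hCC ?_ ?_ ?_ ⟨g, mem_inter.2 ⟨hgC, hg⟩⟩
        ⟨b, mem_inter.2 ⟨hbC, hb⟩⟩ (fun h => hnA (mem_inter.1 h).2) (fun h => hnB (mem_inter.1 h).2)
      · rintro w ⟨e1, h1, h2⟩ ⟨e2, h3, h4⟩
        exact hsp.com w ⟨e1, (mem_inter.1 h1).2, h2⟩ ⟨e2, (mem_inter.1 h3).2, h4⟩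
      · exact disjoint_of_subset_left inter_subset_right
          (disjoint_of_subset_right inter_subset_right hsp.dis)
      · ext e
        rw [mem_insert, mem_union, mem_inter, mem_inter]
        constructor
        · intro he
          by_cases h : e = s(u, v)
          · exact .inl h
          · right
            have : e ∈ J.erase s(u, v) := mem_erase.2 ⟨h, hC he⟩
            rw [hun, mem_union] at this
            rcases this with h | h
            · exact .inl ⟨he, h⟩
            · exact .inr ⟨he, h⟩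
        · rintro (rfl | ⟨h, -⟩ | ⟨h, -⟩)
          · exact huC
          · exact h
          · exact h
    obtain ⟨h1, -⟩ := Circ.proj (A := C ∩ A) (B := C ∩ B) huv hd hCC (by
        rintro w ⟨e1, h1, h2⟩ ⟨e2, h3, h4⟩
        exact hsp.com w ⟨e1, (mem_inter.1 h1).2, h2⟩ ⟨e2, (mem_inter.1 h3).2, h4⟩)
      (disjoint_of_subset_left inter_subset_right
          (disjoint_of_subset_right inter_subset_right hsp.dis)) (by
        ext e
        rw [mem_union, mem_inter, mem_inter]
        constructor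
        · intro he
          have : e ∈ J.erase s(u, v) := mem_erase.2 ⟨fun h => huC (h ▸ he), hC he⟩
          rw [hun, mem_union] at this
          rcases this with h | h
          · exact .inl ⟨he, h⟩
          · exact .inr ⟨he, h⟩
        · rintro (⟨h, -⟩ | ⟨h, -⟩)
          · exact h
          · exact h) ⟨g, mem_inter.2 ⟨hgC, hg⟩⟩ ⟨b, mem_inter.2 ⟨hbC, hb⟩⟩ huC
    exact ⟨_, insert_subset_insert _ inter_subset_right, h1,
      mem_insert_of_mem (mem_inter.2 ⟨hgC, hg⟩), mem_insert_self _ _⟩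
  refine ⟨?_, ?_⟩
  · intro e he
    rcases mem_insert.1 he with rfl | he
    · rwa [Sym2.mk_isDiag_iff]
    · exact hJ.nd e (hsub e he)
  · obtain ⟨a, ha⟩ := hA
    have self : Rl (insert s(u, v) A) s(u, v) s(u, v) := (key a ha).symm.trans (key a ha)
    have key' : ∀ g ∈ insert s(u, v) A, Rl (insert s(u, v) A) g s(u, v) := by
      intro g hg
      rcases mem_insert.1 hg with rfl | hg
      · exact self
      · exact key g hg
    exact fun e he g hg => (key' e he).trans (key' g hg).symm

/-- the main reduction: a tight set which is cut at a missing edge -/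
theorem Tt.cut {J A B : Finset (Sym2 V)} {u v : V} (hJ : Tt J) (huv : u ≠ v)
    (hn : s(u, v) ∉ J) (hun : J = A ∪ B) (hsp : Spl A B u v) (hB : B.Nonempty) {e : Sym2 V}
    (he : e ∈ A) : ∃ A1 ⊆ A, e ∈ A1 ∧ Tt (insert s(u, v) A1) ∧
      (insert s(u, v) A1).card < J.card ∧ pf J e < pf (insert s(u, v) A1) e := by
  -- a minimal side
  obtain ⟨A1, hA1, hmin⟩ : ∃ A1 ∈ (A.powerset.filter (fun A1 => e ∈ A1 ∧ Spl A1 (J \ A1) u v)),
      ∀ A2 ∈ (A.powerset.filter (fun A1 => e ∈ A1 ∧ Spl A1 (J \ A1) u v)),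
        A1.card ≤ A2.card := by
    refine exists_min_image _ _ ⟨A, ?_⟩
    rw [mem_filter, mem_powerset]
    refine ⟨Subset.refl _, he, ?_⟩
    have : J \ A = B := by
      rw [hun, union_sdiff_left, Finset.sdiff_eq_self_iff_disjoint]
      exact hsp.dis.symm
    rw [this]
    exact hsp
  rw [mem_filter, mem_powerset] at hA1
  obtain ⟨hA1A, heA1, hsp1⟩ := hA1
  have hAJ : A ⊆ J := by rw [hun]; exact subset_union_left
  have hA1J : A1 ⊆ J := hA1A.trans hAJ
  have hBsub : B ⊆ J \ A1 := by
    intro g hg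
    rw [mem_sdiff]
    exact ⟨by rw [hun]; exact mem_union_right _ hg, fun h => disjoint_left.1 hsp.dis (hA1A h) hg⟩
  have hB1 : (J \ A1).Nonempty := hB.mono hBsub
  have hun1 : J = A1 ∪ (J \ A1) := (union_sdiff_of_subset hA1J).symm
  have herase : J.erase s(u, v) = A1 ∪ (J \ A1) := by
    rw [erase_eq_of_notMem hn]; exact hun1
  have hcc := hJ.toCC.side huv herase hsp1 ⟨e, heA1⟩ hB1
  have hnA1 : s(u, v) ∉ A1 := fun h => hn (hA1J h)
  have hproj : ∀ C, C ⊆ J → Circ C → (C ∩ A1).Nonempty → (C ∩ (J \ A1)).Nonempty →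
      Circ (insert s(u, v) (C ∩ A1)) ∧ (insert s(u, v) (C ∩ A1)).card < C.card := by
    intro C hC hCC h1 h2
    refine Circ.proj (A := C ∩ A1) (B := C ∩ (J \ A1)) huv (fun e he => hJ.nd e (hC he)) hCC ?_ ?_
      ?_ h1 h2 (fun h => hn (hC h))
    · rintro w ⟨e1, h1, h2⟩ ⟨e2, h3, h4⟩
      exact hsp1.com w ⟨e1, (mem_inter.1 h1).2, h2⟩ ⟨e2, (mem_inter.1 h3).2, h4⟩
    · exact disjoint_of_subset_left inter_subset_right
        (disjoint_of_subset_right inter_subset_right hsp1.dis)
    · rw [← inter_union_distrib_left, ← hun1, inter_eq_left.2 hC]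
  refine ⟨A1, hA1A, heA1, ⟨hcc, ?_⟩, ?_, ?_⟩
  · -- no separating edge
    intro a b hab hsep
    obtain ⟨P, Q, hP, hQ, hd, hPQ, hcom⟩ := hsep
    by_cases hc : s(a, b) = s(u, v)
    · -- contradiction with minimality
      have hPQ' : P ∪ Q = A1 := by
        rw [hPQ, hc, erase_insert hnA1]
      have hcom' : ∀ w, (∃ e ∈ P, w ∈ e) → (∃ e ∈ Q, w ∈ e) → w = u ∨ w = v := by
        intro w h1 h2
        have h3 := hcom w h1 h2
        have h4 : w ∈ s(a, b) := by
          rw [Sym2.mem_iff]; exact h3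
        rw [hc, Sym2.mem_iff] at h4
        exact h4
      have main : ∀ P Q : Finset (Sym2 V), Q.Nonempty → Disjoint P Q → P ∪ Q = A1 →
          (∀ w, (∃ e ∈ P, w ∈ e) → (∃ e ∈ Q, w ∈ e) → w = u ∨ w = v) → e ∈ P → False := by
        intro P Q hQ hd hPQ hcom heP
        have hPA : P ⊆ A1 := by rw [← hPQ]; exact subset_union_left
        have h1 := hmin P (by
          rw [mem_filter, mem_powerset]
          refine ⟨hPA.trans hA1A, heP, disjoint_sdiff, ?_⟩
          rintro w ⟨e1, h1, h2⟩ ⟨e2, h3, h4⟩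
          rw [mem_sdiff] at h3
          by_cases h5 : e2 ∈ A1
          · refine hcom w ⟨e1, h1, h2⟩ ⟨e2, ?_, h4⟩
            rw [← hPQ, mem_union] at h5
            exact h5.resolve_left h3.2
          · exact hsp1.com w ⟨e1, hPA h1, h2⟩ ⟨e2, mem_sdiff.2 ⟨h3.1, h5⟩, h4⟩)
        have h2 : A1.card = P.card + Q.card := by
          rw [← hPQ, card_union_of_disjoint hd]
        have h3 := card_pos.2 hQ
        omega
      have heU : e ∈ P ∪ Q := by rw [hPQ']; exact heA1
      rcases mem_union.1 heU with h | h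
      · exact main P Q hQ hd hPQ' hcom' h
      · exact main Q P hP hd.symm (by rw [union_comm]; exact hPQ')
          (fun w h1 h2 => hcom' w h2 h1) h
    · -- a separating edge of `J`
      have habJ : s(a, b) ∈ J := hA1J ((mem_insert.1 hab).resolve_left hc)
      have habA : s(a, b) ∈ A1 := (mem_insert.1 hab).resolve_left hc
      have main : ∀ P Q : Finset (Sym2 V), Q.Nonempty → Disjoint P Q →
          P ∪ Q = (insert s(u, v) A1).erase s(a, b) →
          (∀ w, (∃ e ∈ P, w ∈ e) → (∃ e ∈ Q, w ∈ e) → w = a ∨ w = b) → s(u, v) ∈ P → False := by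
        intro P Q hQ hd hPQ hcom huP
        have hQA : ∀ g ∈ Q, g ∈ A1 ∧ g ≠ s(a, b) := by
          intro g hg
          have h1 : g ∈ (insert s(u, v) A1).erase s(a, b) := by
            rw [← hPQ]; exact mem_union_right _ hg
          rw [mem_erase, mem_insert] at h1
          refine ⟨h1.2.resolve_left ?_, h1.1⟩
          rintro rfl
          exact disjoint_left.1 hd huP hg
        refine hJ.ns a b habJ ⟨(P.erase s(u, v)) ∪ (J \ A1), Q, hB1.mono subset_union_right, hQ,
          ?_, ?_, ?_⟩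
        · rw [disjoint_union_left]
          refine ⟨disjoint_of_subset_left (erase_subset _ _) hd, ?_⟩
          rw [disjoint_left]
          intro g h1 h2
          exact (mem_sdiff.1 h1).2 (hQA g h2).1
        · ext g
          simp only [mem_union, mem_erase, mem_sdiff]
          constructor
          · rintro ((⟨h1, h2⟩ | ⟨h1, h2⟩) | h)
            · have h3 : g ∈ (insert s(u, v) A1).erase s(a, b) := by
                rw [← hPQ]; exact mem_union_left _ h2
              rw [mem_erase, mem_insert] at h3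
              exact ⟨h3.1, hA1J (h3.2.resolve_left h1)⟩
            · refine ⟨?_, h1⟩
              rintro rfl
              exact h2 habA
            · exact ⟨(hQA g h).2, hA1J (hQA g h).1⟩
          · rintro ⟨h1, h2⟩
            by_cases h3 : g ∈ A1
            · have h4 : g ∈ P ∪ Q := by
                rw [hPQ, mem_erase, mem_insert]; exact ⟨h1, .inr h3⟩
              rcases mem_union.1 h4 with h4 | h4
              · refine .inl (.inl ⟨?_, h4⟩)
                rintro rfl
                exact hn h2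
              · exact .inr h4
            · exact .inl (.inr ⟨h2, h3⟩)
        · rintro w ⟨e1, h1, h2⟩ ⟨e2, h3, h4⟩
          rcases mem_union.1 h1 with h1 | h1
          · exact hcom w ⟨e1, mem_of_mem_erase h1, h2⟩ ⟨e2, h3, h4⟩
          · have h5 := hsp1.com w ⟨e2, (hQA e2 h3).1, h4⟩ ⟨e1, h1, h2⟩
            refine hcom w ⟨s(u, v), huP, ?_⟩ ⟨e2, h3, h4⟩
            rw [Sym2.mem_iff]; exact h5
      have huU : s(u, v) ∈ P ∪ Q := by
        rw [hPQ, mem_erase]; exact ⟨fun h => hc h.symm, mem_insert_self _ _⟩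
      rcases mem_union.1 huU with h | h
      · exact main P Q hQ hd hPQ hcom h
      · exact main Q P hP hd.symm (by rw [union_comm]; exact hPQ) (fun w h1 h2 => hcom w h2 h1) h
  · -- cardinality
    obtain ⟨b, hb⟩ := hB1
    obtain ⟨C, hC, hCC, h1, h2⟩ := hJ.cc e (hA1J heA1) b (mem_sdiff.1 hb).1
    obtain ⟨-, h3⟩ := hproj C hC hCC ⟨e, mem_inter.2 ⟨h1, heA1⟩⟩ ⟨b, mem_inter.2 ⟨h2, hb⟩⟩
    have h4 : C.card = (C ∩ A1).card + (C ∩ (J \ A1)).card := by
      rw [← card_union_of_disjoint, ← inter_union_distrib_left, ← hun1, inter_eq_left.2 hC]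
      exact disjoint_of_subset_left inter_subset_right
        (disjoint_of_subset_right inter_subset_right hsp1.dis)
    rw [card_insert_of_notMem (fun h => hnA1 (mem_inter.1 h).2)] at h3
    have h5 : J.card = A1.card + (J \ A1).card := by
      conv_lhs => rw [hun1]
      exact card_union_of_disjoint hsp1.dis
    have h6 : (C ∩ (J \ A1)).card ≤ (J \ A1).card := card_le_card inter_subset_right
    rw [card_insert_of_notMem hnA1]
    omega
  · -- profiles
    have hex : ∃ l, ∃ C ∈ circs (insert s(u, v) A1) e l, s(u, v) ∈ C := by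
      obtain ⟨C, hC, hCC, h1, h2⟩ := hcc.cc e (mem_insert_of_mem heA1) _ (mem_insert_self _ _)
      exact ⟨C.card, C, mem_circs.2 ⟨hC, hCC, h1, rfl⟩, h2⟩
    obtain ⟨C, hC, hCu⟩ := Nat.find_spec hex
    have hl : ∀ m ≤ Nat.find hex, circs J e m ⊆ circs A1 e m := by
      intro m hm Z hZ
      rw [mem_circs] at hZ ⊢
      obtain ⟨h1, h2, h3, h4⟩ := hZ
      refine ⟨?_, h2, h3, h4⟩
      by_contra hcon
      obtain ⟨g, hg, hgA⟩ := not_subset.1 hcon
      obtain ⟨h5, h6⟩ := hproj Z h1 h2 ⟨e, mem_inter.2 ⟨h3, heA1⟩⟩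
        ⟨g, mem_inter.2 ⟨hg, mem_sdiff.2 ⟨h1 hg, hgA⟩⟩⟩
      refine Nat.find_min hex (m := (insert s(u, v) (Z ∩ A1)).card) (by omega)
        ⟨insert s(u, v) (Z ∩ A1), ?_, mem_insert_self _ _⟩
      rw [mem_circs]
      exact ⟨insert_subset_insert _ inter_subset_right, h5,
        mem_insert_of_mem (mem_inter.2 ⟨h3, heA1⟩), rfl⟩
    generalize Nat.find hex = l at hC hl
    refine lex_lt_of (l := l) (fun m hm => card_le_card ((hl m hm).trans
      (circs_mono (subset_insert _ _) _ _))) ?_
    refine card_lt_card ⟨(hl l le_rfl).trans (circs_mono (subset_insert _ _) _ _), fun hh => ?_⟩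
    have := hh hC
    rw [mem_circs] at this
    exact hn (this.1 hCu)

end

end Pool.Agent.P8H52.SM
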