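import Pool.Agent.P8H52.SM.T3e
import Pool.Agent.P8H52.SM.Frag

/-!
# 2-connected graphs
-/

open Finset SimpleGraph
open scoped Classical

namespace Pool.Agent.P8H52.SM

open Pool.Agent.Results.MP_fc2b6d_co.Forests Pool.Agent.H165R2.SM

section
variable {W : Type} [Fintype W] {H : SimpleGraph W}

/-- the data of a separation -/
structure SD (H : SimpleGraph W) (c d : W) (C C' : Finset W) : Prop where
  ne : C.Nonempty
  ne' : C'.Nonempty
  dis : Disjoint C C'
  un : ∀ w, w = c ∨ w = d ∨ w ∈ C ∨ w ∈ C'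
  cC : c ∉ C
  cC' : c ∉ C'
  dC : d ∉ C
  dC' : d ∉ C'
  adj : ∀ x ∈ C, ∀ y ∈ C', ¬ H.Adj x y

theorem exists_SD {c d : W} (h : ¬ (H.induce ({c, d}ᶜ : Set W)).Preconnected) :
    ∃ C C', SD H c d C C' := by
  unfold SimpleGraph.Preconnected at h
  push Not at h
  obtain ⟨x, y, hxy⟩ := h
  obtain ⟨C, hC⟩ : ∃ C : Finset W, ∀ w, w ∈ C ↔ ∃ hw : w ∈ ({c, d}ᶜ : Set W),
      (H.induce ({c, d}ᶜ : Set W)).Reachable x ⟨w, hw⟩ :=
    ⟨univ.filter (fun w => ∃ hw : w ∈ ({c, d}ᶜ : Set W),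
      (H.induce ({c, d}ᶜ : Set W)).Reachable x ⟨w, hw⟩), fun w => by rw [mem_filter]; simp⟩
  obtain ⟨C', hC'⟩ : ∃ C' : Finset W, ∀ w, w ∈ C' ↔ w ∈ ({c, d}ᶜ : Set W) ∧ w ∉ C :=
    ⟨univ.filter (fun w => w ∈ ({c, d}ᶜ : Set W) ∧ w ∉ C), fun w => by rw [mem_filter]; simp⟩
  have hc : c ∉ ({c, d}ᶜ : Set W) := by simp
  have hd : d ∉ ({c, d}ᶜ : Set W) := by simp
  refine ⟨C, C', ⟨x.1, (hC _).2 ⟨x.2, Reachable.refl _⟩⟩, ⟨y.1, (hC' _).2 ⟨y.2, ?_⟩⟩, ?_, ?_, ?_, ?_,
    ?_, ?_, ?_⟩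
  · rintro hy
    obtain ⟨h1, h2⟩ := (hC _).1 hy
    exact hxy h2
  · rw [Finset.disjoint_left]
    exact fun w h1 h2 => ((hC' w).1 h2).2 h1
  · intro w
    by_cases h1 : w = c
    · exact .inl h1
    · by_cases h2 : w = d
      · exact .inr (.inl h2)
      · by_cases h3 : w ∈ C
        · exact .inr (.inr (.inl h3))
        · exact .inr (.inr (.inr ((hC' w).2 ⟨by simp [h1, h2], h3⟩)))
  · exact fun h => hc ((hC _).1 h).1
  · exact fun h => hc ((hC' _).1 h).1
  · exact fun h => hd ((hC _).1 h).1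
  · exact fun h => hd ((hC' _).1 h).1
  · intro u hu v hv huv
    obtain ⟨h1, h2⟩ := (hC u).1 hu
    obtain ⟨h3, h4⟩ := (hC' v).1 hv
    apply h4
    rw [hC]
    refine ⟨h3, h2.trans ?_⟩
    have : (H.induce ({c, d}ᶜ : Set W)).Adj ⟨u, h1⟩ ⟨v, h3⟩ := huv
    exact this.reachable

theorem SD.symm {c d : W} {C C' : Finset W} (h : SD H c d C C') : SD H c d C' C :=
  ⟨h.ne', h.ne, h.dis.symm, fun w => by
    rcases h.un w with h1 | h1 | h1 | h1
    · exact .inl h1
    · exact .inr (.inl h1)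
    · exact .inr (.inr (.inr h1))
    · exact .inr (.inr (.inl h1)), h.cC', h.cC, h.dC', h.dC,
    fun x hx y hy hh => h.adj y hy x hx hh.symm⟩

theorem SD.swap {c d : W} {C C' : Finset W} (h : SD H c d C C') : SD H d c C C' :=
  ⟨h.ne, h.ne', h.dis, fun w => by
    rcases h.un w with h1 | h1 | h1 | h1
    · exact .inr (.inl h1)
    · exact .inl h1
    · exact .inr (.inr (.inl h1))
    · exact .inr (.inr (.inr h1)), h.dC, h.dC', h.cC, h.cC', h.adj⟩

theorem SD.nb_sub {c d : W} {C C' : Finset W} (h : SD H c d C C') : nb H C ⊆ {c, d} := by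
  intro w hw
  rw [mem_nb] at hw
  obtain ⟨h1, x, h2, h3⟩ := hw
  rw [mem_insert, mem_singleton]
  rcases h.un w with h4 | h4 | h4 | h4
  · exact .inl h4
  · exact .inr h4
  · exact (h1 h4).elim
  · exact (h.adj x h2 w h4 h3).elim

theorem SD.ne_univ {c d : W} {C C' : Finset W} (h : SD H c d C C') : C ∪ nb H C ≠ univ := by
  intro hu
  obtain ⟨y, hy⟩ := h.ne'
  rcases mem_union.1 (eq_univ_iff_forall.1 hu y) with h1 | h1
  · exact Finset.disjoint_left.1 h.dis h1 hy
  · have := h.nb_sub h1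
    rw [mem_insert, mem_singleton] at this
    rcases this with rfl | rfl
    · exact h.cC' hy
    · exact h.dC' hy

theorem SD.fr {c d : W} {C C' : Finset W} (h : SD H c d C C') : Fr H C :=
  ⟨h.ne, (card_le_card h.nb_sub).trans card_le_two, h.ne_univ⟩

theorem SD.exists_nbr (hcon : ∀ D : Finset W, D.Nonempty → D ∪ nb H D ≠ univ → 2 ≤ (nb H D).card)
    {c d : W} {C C' : Finset W} (h : SD H c d C C') : ∃ x ∈ C, H.Adj c x := by
  have h3 := hcon C h.ne h.ne_univ
  have hc2 : ({c, d} : Finset W).card ≤ 2 := card_le_two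
  have h4 : nb H C = {c, d} := eq_of_subset_of_card_le h.nb_sub (by omega)
  have h5 : c ∈ nb H C := by rw [h4]; exact mem_insert_self _ _
  obtain ⟨-, x, h6, h7⟩ := mem_nb.1 h5
  exact ⟨x, h6, h7.symm⟩

end

/-- the induction step for 2-connected graphs -/
theorem twoconn_step {W : Type} [Finite W] {H : SimpleGraph W}
    (h3 : ∃ a b c : W, a ≠ b ∧ a ≠ c ∧ b ≠ c) (hconn : H.Preconnected)
    (hcut : ∀ v : W, (H.induce {v}ᶜ).Preconnected)
    (IH : ∀ S : Set W, S ≠ Set.univ → ¬ IsStar (H.induce S) → Fail (H.induce S)) : Fail H := by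
  have := Fintype.ofFinite W
  by_cases h1 : ∃ a b, H.Adj a b ∧ ∀ c d : W, H.Adj c d → s(c, d) ≠ s(a, b) →
      (H.induce ({c, d}ᶜ : Set W)).Preconnected
  · obtain ⟨a, b, hab, h1⟩ := h1
    exact oneSep_fail h3 hconn hcut hab h1
  push Not at h1
  -- two separating edges
  obtain ⟨a0, b0, hab0⟩ : ∃ a b, H.Adj a b := by
    obtain ⟨a, b, -, hab, -⟩ := h3
    obtain ⟨p⟩ := hconn a b
    cases p with
    | nil => exact absurd rfl hab
    | cons h' _ => exact ⟨_, _, h'⟩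
  obtain ⟨c1, d1, hcd1, -, hs1⟩ := h1 a0 b0 hab0
  obtain ⟨c2, d2, hcd2, hne, hs2⟩ := h1 c1 d1 hcd1
  have hcon : ∀ D : Finset W, D.Nonempty → D ∪ nb H D ≠ univ → 2 ≤ (nb H D).card :=
    fun D hD hne => two_le_nb hconn hcut hD hne
  -- the rigid set
  obtain ⟨M, hM, hMu, hMs⟩ : ∃ M : Set W, Rg H M ∧ M ≠ Set.univ ∧
      ∀ c d : W, H.Adj c d → ¬ (H.induce ({c, d}ᶜ : Set W)).Preconnected → c ∈ M := by
    by_cases hdeg : ∃ w0, (univ.filter (H.Adj w0)).card ≤ 2
    · obtain ⟨w0, hw0⟩ := hdeg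
      refine ⟨{w | 3 ≤ (univ.filter (H.Adj w)).card}, ?_, ?_, ?_⟩
      · intro D g hinj hD hN hadj d hd hdM
        have h4 := hD d hd
        rw [Set.mem_ofPred_eq, not_le] at h4
        rw [Set.mem_ofPred_eq] at hdM
        have h5 : (univ.filter (H.Adj d)).card ≤ (univ.filter (H.Adj (g d))).card := by
          refine card_le_card_of_injOn g ?_ ?_
          · intro x hx
            rw [mem_coe, mem_filter] at hx ⊢
            exact ⟨mem_univ _, hadj d hd x hx.2⟩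
          · intro x hx y hy e
            rw [mem_coe, mem_filter] at hx hy
            exact hinj x y (.inr ⟨d, hd, hx.2⟩) (.inr ⟨d, hd, hy.2⟩) e
        omega
      · intro hu
        have : w0 ∈ {w | 3 ≤ (univ.filter (H.Adj w)).card} := by rw [hu]; trivial
        rw [Set.mem_ofPred_eq] at this
        omega
      · intro c d hcd hs
        obtain ⟨C, C', hSD⟩ := exists_SD hs
        obtain ⟨x, hx, hcx⟩ := hSD.exists_nbr hcon
        obtain ⟨y, hy, hcy⟩ := hSD.symm.exists_nbr hcon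
        rw [Set.mem_ofPred_eq]
        have hsub : ({d, x, y} : Finset W) ⊆ univ.filter (H.Adj c) := by
          intro u hu
          rw [mem_insert, mem_insert, mem_singleton] at hu
          rw [mem_filter]
          rcases hu with rfl | rfl | rfl
          · exact ⟨mem_univ _, hcd⟩
          · exact ⟨mem_univ _, hcx⟩
          · exact ⟨mem_univ _, hcy⟩
        have hcard : ({d, x, y} : Finset W).card = 3 := by
          rw [card_eq_three]
          refine ⟨d, x, y, ?_, ?_, ?_, rfl⟩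
          · rintro rfl; exact hSD.dC hx
          · rintro rfl; exact hSD.dC' hy
          · rintro rfl; exact Finset.disjoint_left.1 hSD.dis hx hy
        rw [← hcard]
        exact card_le_card hsub
    · push Not at hdeg
      obtain ⟨C, C', hSD⟩ := exists_SD hs1
      have hex : ∃ k, ∃ D, Fr H D ∧ D.card = k := ⟨_, C, hSD.fr, rfl⟩
      obtain ⟨k, ⟨D0, hD0, hD0k⟩, hmin⟩ : ∃ k, (∃ D, Fr H D ∧ D.card = k) ∧
          ∀ D, Fr H D → k ≤ D.card :=
        ⟨Nat.find hex, Nat.find_spec hex, fun D hD => Nat.find_min' hex ⟨D, hD, rfl⟩⟩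
      have hk2 : 2 ≤ k := by
        by_contra hcon
        have h4 : D0.card = 1 := by have := hD0.ne.card_pos; omega
        obtain ⟨w, rfl⟩ := card_eq_one.1 h4
        have h5 : nb H {w} = univ.filter (H.Adj w) := by
          ext u
          rw [mem_nb, mem_filter]
          constructor
          · rintro ⟨-, d, h6, h7⟩
            rw [mem_singleton] at h6
            exact ⟨mem_univ _, h6 ▸ h7⟩
          · rintro ⟨-, h6⟩
            exact ⟨fun h7 => h6.ne' (mem_singleton.1 h7), w, mem_singleton_self _, h6⟩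
        have h6 := hD0.le
        rw [h5] at h6
        have := hdeg w
        omega
      have hMn : Mn H k := ⟨hcon, hk2, hmin, ⟨D0, hD0, hD0k⟩⟩
      refine ⟨core H k, hMn.rg, ?_, ?_⟩
      · intro hu
        obtain ⟨w, hw⟩ := hD0.ne
        have : w ∈ core H k := by rw [hu]; trivial
        exact this D0 hD0 hD0k hw
      · intro c d hcd hs D hD hDk
        obtain ⟨C, C', hSD⟩ := exists_SD hs
        exact hMn.nsep hD hDk hSD.ne hSD.ne' hSD.dis hSD.un hSD.cC hSD.cC' hSD.dC hSD.dC' hSD.adj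
  have hMs' : ∀ c d : W, H.Adj c d → ¬ (H.induce ({c, d}ᶜ : Set W)).Preconnected → d ∈ M := by
    intro c d hcd hs
    refine hMs d c hcd.symm ?_
    rwa [Set.pair_comm]
  have m1 := hMs c1 d1 hcd1 hs1
  have m2 := hMs' c1 d1 hcd1 hs1
  have m3 := hMs c2 d2 hcd2 hs2
  have m4 := hMs' c2 d2 hcd2 hs2
  by_cases hstar : IsStar (H.induce M)
  · obtain ⟨v, hv⟩ := hstar
    have hv' : ∀ a ∈ M, ∀ b ∈ M, H.Adj a b → a = v.1 ∨ b = v.1 := by
      intro a ha b hb hab
      have h4 : (H.induce M).Adj ⟨a, ha⟩ ⟨b, hb⟩ := hab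
      rcases hv _ _ h4 with h5 | h5
      · exact .inl (congrArg Subtype.val h5)
      · exact .inr (congrArg Subtype.val h5)
    have key : ∀ c ∈ M, ∀ d ∈ M, H.Adj c d → ∃ l ∈ M, H.Adj v.1 l ∧ s(c, d) = s(v.1, l) := by
      intro c hc d hd hcd
      rcases hv' c hc d hd hcd with rfl | rfl
      · exact ⟨d, hd, hcd, rfl⟩
      · exact ⟨c, hc, hcd.symm, Sym2.eq_swap⟩
    obtain ⟨l1, hl1, ha1, he1⟩ := key c1 m1 d1 m2 hcd1
    obtain ⟨l2, hl2, ha2, he2⟩ := key c2 m3 d2 m4 hcd2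
    refine hM.star v.2 hv' (l1 := l1) (l2 := l2) ?_ hl1 hl2 ha1 ha2 (hcut _)
    rintro rfl
    exact hne (he2.trans he1.symm)
  · exact hM.step ⟨⟨c1, m1⟩, ⟨d1, m2⟩, hcd1⟩ (IH M hMu hstar)

end Pool.Agent.P8H52.SM

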